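import Pool.Agent.McT.W.Spec

/-! Norms of block diagonal elements. -/

set_option autoImplicit false

namespace Pool.McT

variable {P : Type*} [CStarAlgebra P] {τ : P →ₗ[ℂ] ℂ}

/-- Then `‖c i - ∑ l, t i l • q l‖ ≤ ε`: the element is the sum over `l` of
`(c i - t i l) q l = q l (..) q l`, pairwise orthogonal. -/
theorem norm_part (hW : WT τ) {L : ℕ} {q : Fin L → P} (hq : ∀ l, IsPr (q l))
    (ho : ∀ l l', l ≠ l' → q l * q l' = 0) (h1 : ∑ l, q l = 1) {c : P}
    (hc : ∀ l, c * q l = q l * c) {t : Fin L → ℂ} {ε : ℝ} (hε : 0 ≤ ε)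
    (h : ∀ l, ‖c * q l - t l • q l‖ ≤ ε) : ‖c - ∑ l, t l • q l‖ ≤ ε := by
  let _ := CStarAlgebra.spectralOrder P
  have _ := CStarAlgebra.spectralOrderedRing P
  have hd0 : ∀ l, c * q l - t l • q l = q l * (c * q l - t l • q l) := by
    intro l
    rw [mul_sub, ← mul_assoc, ← hc l, mul_assoc, (hq l).2, mul_smul_comm, (hq l).2]
  have hd1 : ∀ l, c * q l - t l • q l = (c * q l - t l • q l) * q l := by
    intro l
    rw [sub_mul, mul_assoc, (hq l).2, smul_mul_assoc, (hq l).2]
  have hsum : c - ∑ l, t l • q l = ∑ l, (c * q l - t l • q l) := by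
    rw [Finset.sum_sub_distrib, ← Finset.mul_sum, h1, mul_one]
  have hcross : ∀ l l', l ≠ l' →
      star (c * q l - t l • q l) * (c * q l' - t l' • q l') = 0 := by
    intro l l' hne
    have e0 : star (c * q l - t l • q l) = star (c * q l - t l • q l) * q l := by
      conv_lhs => rw [hd0 l, star_mul, (hq l).1]
    calc star (c * q l - t l • q l) * (c * q l' - t l' • q l')
        = star (c * q l - t l • q l) * q l * (q l' * (c * q l' - t l' • q l')) := by
          rw [← e0, ← hd0 l']
      _ = star (c * q l - t l • q l) * (q l * q l') * (c * q l' - t l' • q l') := by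
          simp only [mul_assoc]
      _ = 0 := by rw [ho l l' hne, mul_zero, zero_mul]
  have hss : star (c - ∑ l, t l • q l) * (c - ∑ l, t l • q l) =
      ∑ l, star (c * q l - t l • q l) * (c * q l - t l • q l) := by
    rw [hsum, star_sum, Finset.sum_mul]
    refine Finset.sum_congr rfl fun i _ => ?_
    rw [Finset.mul_sum, Finset.sum_eq_single i]
    · intro j _ hji
      exact hcross i j (Ne.symm hji)
    · intro hi
      exact absurd (Finset.mem_univ i) hi
  have hle : ∀ l, star (c * q l - t l • q l) * (c * q l - t l • q l) ≤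
      ((ε ^ 2 : ℝ) : ℂ) • q l := by
    intro l
    have a1 : star (c * q l - t l • q l) * (c * q l - t l • q l) ≤
        algebraMap ℝ P (‖c * q l - t l • q l‖ ^ 2) :=
      CStarAlgebra.star_mul_le_algebraMap_norm_sq
    have a2 : algebraMap ℝ P (‖c * q l - t l • q l‖ ^ 2) ≤ algebraMap ℝ P (ε ^ 2) := by
      apply algebraMap_mono
      exact pow_le_pow_left₀ (norm_nonneg _) (h l) 2
    have a3 := star_left_conjugate_le_conjugate (a1.trans a2) (q l)
    have e1 : star (q l) * (star (c * q l - t l • q l) * (c * q l - t l • q l)) * q l =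
        star (c * q l - t l • q l) * (c * q l - t l • q l) := by
      have e2 : star (c * q l - t l • q l) = q l * star (c * q l - t l • q l) := by
        conv_lhs => rw [hd1 l, star_mul, (hq l).1]
      rw [(hq l).1, ← mul_assoc (q l), ← e2, mul_assoc, ← hd1 l]
    have e3 : star (q l) * algebraMap ℝ P (ε ^ 2) * q l = ((ε ^ 2 : ℝ) : ℂ) • q l := by
      rw [(hq l).1, Algebra.algebraMap_eq_smul_one, mul_smul_comm, mul_one, smul_mul_assoc,
        (hq l).2, Complex.coe_smul]
    rw [e1, e3] at a3
    exact a3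
  have hle2 : star (c - ∑ l, t l • q l) * (c - ∑ l, t l • q l) ≤ algebraMap ℝ P (ε ^ 2) := by
    rw [hss]
    refine (Finset.sum_le_sum fun l _ => hle l).trans (le_of_eq ?_)
    rw [← Finset.smul_sum, h1, Algebra.algebraMap_eq_smul_one, Complex.coe_smul]
  have hn : ‖star (c - ∑ l, t l • q l) * (c - ∑ l, t l • q l)‖ ≤ ε ^ 2 :=
    (CStarAlgebra.norm_le_iff_le_algebraMap _ (sq_nonneg ε) (star_mul_self_nonneg _)).2 hle2
  rw [CStarRing.norm_star_mul_self] at hn
  nlinarith [norm_nonneg (c - ∑ l, t l • q l)]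

end Pool.McT
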