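import Pool.Agent.McT.F.PartA
import Pool.Agent.McT.F.PartN

/-! Finite families of commuting elements are approximated by partitions. -/

set_option autoImplicit false

namespace Pool.McT

variable {P : Type*} [CStarAlgebra P] {τ : P →ₗ[ℂ] ℂ}

/-- The version for self-adjoint elements, with an arbitrary finite index type. -/
private theorem sa_Part (hW : WT τ) : ∀ (m : ℕ) (h : Fin m → P), (∀ i, IsSelfAdjoint (h i)) →
    (∀ i j, h i * h j = h j * h i) → ∀ ε : ℝ, 0 < ε →
    ∃ (ι : Type) (_ : Fintype ι) (q : ι → P) (t : Fin m → ι → ℝ), (∀ l, IsPr (q l)) ∧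
      (∀ l l', l ≠ l' → q l * q l' = 0) ∧ ∑ l, q l = 1 ∧
      (∀ i l, ‖h i * q l - (t i l : ℂ) • q l‖ ≤ ε) ∧
      ∀ c : P, (∀ i, c * h i = h i * c) → ∀ l, c * q l = q l * c := by
  intro m
  induction m with
  | zero =>
    intro h _ _ ε _
    refine ⟨Unit, inferInstance, fun _ => 1, fun i => i.elim0, fun _ => ⟨star_one P, one_mul 1⟩,
      fun l l' hl => absurd rfl hl, ?_, fun i => i.elim0, fun c _ _ => ?_⟩
    · simp
    · rw [mul_one, one_mul]
  | succ m ih =>
    intro h hsa hcomm ε hε
    obtain ⟨ι, hι, q, t, hq, ho, h1, hn, hc⟩ := ih (fun i => h i.castSucc)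
      (fun i => hsa _) (fun i j => hcomm _ _) ε hε
    obtain ⟨L, q', t', hq', ho', h1', hn', hc'⟩ := exists_part_one hW (hsa (Fin.last m)) hε
    -- the projections commute
    have hqh : ∀ l, q l * h (Fin.last m) = h (Fin.last m) * q l := fun l =>
      (hc (h (Fin.last m)) (fun i => hcomm _ _) l).symm
    have hqq : ∀ l l', q l * q' l' = q' l' * q l := fun l l' => hc' (q l) (hqh l) l'
    refine ⟨ι × Fin L, inferInstance, fun p => q p.1 * q' p.2,
      fun i p => Fin.lastCases (motive := fun _ => ℝ) (t' p.2) (fun j => t j p.1) i,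
      fun p => ⟨?_, ?_⟩, fun p p' hp => ?_, ?_, fun i p => ?_, fun c hcc p => ?_⟩
    · rw [star_mul, (hq p.1).1, (hq' p.2).1]
      exact (hqq _ _).symm
    · calc q p.1 * q' p.2 * (q p.1 * q' p.2) = q p.1 * (q' p.2 * q p.1) * q' p.2 := by
            simp only [mul_assoc]
        _ = q p.1 * (q p.1 * q' p.2) * q' p.2 := by rw [hqq]
        _ = (q p.1 * q p.1) * (q' p.2 * q' p.2) := by simp only [mul_assoc]
        _ = q p.1 * q' p.2 := by rw [(hq p.1).2, (hq' p.2).2]
    · have h2 : q p.1 * q' p.2 * (q p'.1 * q' p'.2) = (q p.1 * q p'.1) * (q' p.2 * q' p'.2) := by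
        calc q p.1 * q' p.2 * (q p'.1 * q' p'.2) = q p.1 * (q' p.2 * q p'.1) * q' p'.2 := by
              simp only [mul_assoc]
          _ = q p.1 * (q p'.1 * q' p.2) * q' p'.2 := by rw [hqq]
          _ = _ := by simp only [mul_assoc]
      rw [h2]
      by_cases h3 : p.1 = p'.1
      · have h4 : p.2 ≠ p'.2 := fun h4 => hp (Prod.ext h3 h4)
        rw [ho' _ _ h4, mul_zero]
      · rw [ho _ _ h3, zero_mul]
    · rw [Fintype.sum_prod_type]
      simp only [← Finset.mul_sum]
      rw [h1']
      simp only [mul_one]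
      exact h1
    · refine Fin.lastCases (motive := fun i => ‖h i * (q p.1 * q' p.2) -
        ((Fin.lastCases (motive := fun _ => ℝ) (t' p.2) (fun j => t j p.1) i : ℝ) : ℂ) •
          (q p.1 * q' p.2)‖ ≤ ε) ?_ (fun j => ?_) i
      · rw [Fin.lastCases_last]
        have h2 : h (Fin.last m) * (q p.1 * q' p.2) - ((t' p.2 : ℝ) : ℂ) • (q p.1 * q' p.2) =
            q p.1 * (h (Fin.last m) * q' p.2 - ((t' p.2 : ℝ) : ℂ) • q' p.2) := by
          rw [mul_sub, mul_smul_comm, ← mul_assoc, ← hqh, mul_assoc]
        rw [h2]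
        refine (norm_mul_le _ _).trans ?_
        calc ‖q p.1‖ * ‖h (Fin.last m) * q' p.2 - ((t' p.2 : ℝ) : ℂ) • q' p.2‖
            ≤ 1 * ε := mul_le_mul (hq p.1).norm_le (hn' p.2) (norm_nonneg _) zero_le_one
          _ = ε := one_mul ε
      · rw [Fin.lastCases_castSucc]
        have h2 : h j.castSucc * (q p.1 * q' p.2) - ((t j p.1 : ℝ) : ℂ) • (q p.1 * q' p.2) =
            (h j.castSucc * q p.1 - ((t j p.1 : ℝ) : ℂ) • q p.1) * q' p.2 := by
          rw [sub_mul, smul_mul_assoc, mul_assoc]
        rw [h2]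
        refine (norm_mul_le _ _).trans ?_
        calc ‖h j.castSucc * q p.1 - ((t j p.1 : ℝ) : ℂ) • q p.1‖ * ‖q' p.2‖
            ≤ ε * 1 := mul_le_mul (hn j p.1) (hq' p.2).norm_le (norm_nonneg _) hε.le
          _ = ε := mul_one ε
    · have h2 := hc c (fun i => hcc _) p.1
      have h3 := hc' c (hcc _) p.2
      calc c * (q p.1 * q' p.2) = (c * q p.1) * q' p.2 := (mul_assoc _ _ _).symm
        _ = q p.1 * (c * q' p.2) := by rw [h2, mul_assoc]
        _ = q p.1 * q' p.2 * c := by rw [h3, mul_assoc]

/-- Write `c i = h i + I h' i`, apply `exists_part_one` to the `2 n` self-adjoint elements and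
take all products of the projections (they commute). Induction on the number of self-adjoint
elements: the partition for `n + 1` elements consists of the products. -/
theorem exists_part (hW : WT τ) {n : ℕ} (c : Fin n → P)
    (hc : ∀ i j, c i * c j = c j * c i) (hc' : ∀ i j, c i * star (c j) = star (c j) * c i)
    {ε : ℝ} (hε : 0 < ε) :
    ∃ (L : ℕ) (q : Fin L → P) (t : Fin n → Fin L → ℂ), (∀ l, IsPr (q l)) ∧
      (∀ l l', l ≠ l' → q l * q l' = 0) ∧ ∑ l, q l = 1 ∧
      (∀ i l, c i * q l = q l * c i) ∧ ∀ i l, ‖c i * q l - t i l • q l‖ ≤ ε := by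
  classical
  -- real and imaginary parts
  have k1 : ∀ i j, Commute (c i) (c j) := fun i j => hc i j
  have k2 : ∀ i j, Commute (c i) (star (c j)) := fun i j => hc' i j
  have k3 : ∀ i j, Commute (star (c i)) (c j) := fun i j => (k2 j i).symm
  have k4 : ∀ i j, Commute (star (c i)) (star (c j)) := fun i j => (k1 i j).star_star
  have hr : ∀ x : P, ((realPart x : selfAdjoint P) : P) = (2 : ℝ)⁻¹ • (x + star x) := fun x =>
    realPart_apply_coe x
  have hi : ∀ x : P, ((imaginaryPart x : selfAdjoint P) : P) =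
      -Complex.I • (2 : ℝ)⁻¹ • (x - star x) := fun x => imaginaryPart_apply_coe x
  -- whatever commutes with `c j` and its adjoint commutes with the parts of `c j`
  have hre : ∀ (x : P) (j : Fin n), Commute x (c j) → Commute x (star (c j)) →
      Commute x ((realPart (c j) : selfAdjoint P) : P) := by
    intro x j h1 h2
    rw [hr]
    exact (h1.add_right h2).smul_right _
  have him : ∀ (x : P) (j : Fin n), Commute x (c j) → Commute x (star (c j)) →
      Commute x ((imaginaryPart (c j) : selfAdjoint P) : P) := by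
    intro x j h1 h2
    rw [hi]
    exact ((h1.sub_right h2).smul_right _).smul_right _
  have a1 : ∀ i j, Commute ((realPart (c i) : selfAdjoint P) : P)
      ((realPart (c j) : selfAdjoint P) : P) := fun i j =>
    hre _ j (hre _ i (k1 j i) (k2 j i)).symm (hre _ i (k3 j i) (k4 j i)).symm
  have a2 : ∀ i j, Commute ((realPart (c i) : selfAdjoint P) : P)
      ((imaginaryPart (c j) : selfAdjoint P) : P) := fun i j =>
    him _ j (hre _ i (k1 j i) (k2 j i)).symm (hre _ i (k3 j i) (k4 j i)).symm
  have a3 : ∀ i j, Commute ((imaginaryPart (c i) : selfAdjoint P) : P)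
      ((imaginaryPart (c j) : selfAdjoint P) : P) := fun i j =>
    him _ j (him _ i (k1 j i) (k2 j i)).symm (him _ i (k3 j i) (k4 j i)).symm
  let h : Fin (n + n) → P := Fin.append
    (fun i => ((realPart (c i) : selfAdjoint P) : P))
    (fun i => ((imaginaryPart (c i) : selfAdjoint P) : P))
  have hl : ∀ i : Fin n, h (Fin.castAdd n i) = ((realPart (c i) : selfAdjoint P) : P) :=
    fun i => Fin.append_left _ _ i
  have hR : ∀ i : Fin n, h (Fin.natAdd n i) = ((imaginaryPart (c i) : selfAdjoint P) : P) :=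
    fun i => Fin.append_right _ _ i
  obtain ⟨ι, hι, q, t, hq, ho, h1, hn, hcm⟩ := sa_Part hW (n + n) h
    (fun i => by
      refine Fin.addCases (fun j => ?_) (fun j => ?_) i
      · rw [hl]
        exact (realPart (c j)).2
      · rw [hR]
        exact (imaginaryPart (c j)).2)
    (fun i j => by
      refine Fin.addCases (fun i' => ?_) (fun i' => ?_) i <;>
        refine Fin.addCases (fun j' => ?_) (fun j' => ?_) j
      · rw [hl, hl]
        exact a1 i' j'
      · rw [hl, hR]
        exact a2 i' j'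
      · rw [hl, hR]
        exact (a2 j' i').symm
      · rw [hR, hR]
        exact a3 i' j') (ε / 2) (half_pos hε)
  have e := Fintype.equivFin ι
  refine ⟨Fintype.card ι, fun l => q (e.symm l),
    fun i l => (t (Fin.castAdd n i) (e.symm l) : ℂ) +
      Complex.I * (t (Fin.natAdd n i) (e.symm l) : ℂ), fun l => hq _,
    fun l l' hll => ho _ _ (fun hh => hll (e.symm.injective hh)), ?_, fun i l => ?_,
    fun i l => ?_⟩
  · rw [← h1]
    exact Equiv.sum_comp e.symm q
  · refine hcm (c i) (fun j => ?_) _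
    refine Fin.addCases (fun j' => ?_) (fun j' => ?_) j
    · rw [hl]
      exact hre _ j' (k1 i j') (k2 i j')
    · rw [hR]
      exact him _ j' (k1 i j') (k2 i j')
  · have h2 := hn (Fin.castAdd n i) (e.symm l)
    have h3 := hn (Fin.natAdd n i) (e.symm l)
    rw [hl] at h2
    rw [hR] at h3
    have h4 : c i = ((realPart (c i) : selfAdjoint P) : P) +
        Complex.I • ((imaginaryPart (c i) : selfAdjoint P) : P) :=
      (realPart_add_I_smul_imaginaryPart (c i)).symm
    have h5 : c i * q (e.symm l) - ((t (Fin.castAdd n i) (e.symm l) : ℂ) +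
        Complex.I * (t (Fin.natAdd n i) (e.symm l) : ℂ)) • q (e.symm l) =
        (((realPart (c i) : selfAdjoint P) : P) * q (e.symm l) -
          (t (Fin.castAdd n i) (e.symm l) : ℂ) • q (e.symm l)) +
        Complex.I • (((imaginaryPart (c i) : selfAdjoint P) : P) * q (e.symm l) -
          (t (Fin.natAdd n i) (e.symm l) : ℂ) • q (e.symm l)) := by
      conv_lhs => rw [h4]
      rw [add_mul, smul_mul_assoc, add_smul, smul_sub, mul_smul]
      abel
    rw [h5]
    refine (norm_add_le _ _).trans ?_
    rw [norm_smul, Complex.norm_I, one_mul]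
    linarith

end Pool.McT
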