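import Pool.Agent.McT.F.DiagB
import Pool.Agent.McT.F.Part

/-! Commutators of diagonal elements, tested against an arbitrary contraction. -/

set_option autoImplicit false

namespace Pool.McT

variable {A P D : Type*} [CStarAlgebra A] [CStarAlgebra P] [CStarAlgebra D]
  {τA : A →ₗ[ℂ] ℂ} {τP : P →ₗ[ℂ] ℂ} {τD : D →ₗ[ℂ] ℂ} {iA : A →⋆ₐ[ℂ] D} {iP : P →⋆ₐ[ℂ] D}

private theorem dc_cont_tau (hτ : IsTr τD) : Continuous τD :=
  (τD.mkContinuous (N τD 1) fun x => norm_tau_le hτ x).continuous

private theorem dc_cont_N (hτ : IsTr τD) {X : Type*} [TopologicalSpace X] {f : X → D}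
    (hf : Continuous f) : Continuous fun x => N τD (f x) := by
  unfold N
  exact Complex.continuous_re.comp ((dc_cont_tau hτ).comp (hf.star.mul hf))

private theorem dc_cont_SA (hτ : IsTr τD) (iA : A →⋆ₐ[ℂ] D) (FA : Finset A) {X : Type*}
    [TopologicalSpace X] {f : X → D} (hf : Continuous f) :
    Continuous fun x => SA τD iA FA (f x) := by
  unfold SA cm
  refine continuous_finsetSum _ fun u _ => ?_
  refine (dc_cont_N hτ ?_).add (dc_cont_N hτ ?_)
  · exact (hf.mul continuous_const).sub (continuous_const.mul hf)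
  · exact (hf.star.mul continuous_const).sub (continuous_const.mul hf.star)

private theorem dc_approx (iA : A →⋆ₐ[ℂ] D) (iP : P →⋆ₐ[ℂ] D) {k L : ℕ} (a : Fin k → A)
    (c : Fin k → P) {q : Fin L → P} (t : Fin k → Fin L → ℂ) {δ : ℝ}
    (h : ∀ i, ‖c i - ∑ l, t i l • q l‖ ≤ δ) :
    ‖∑ i, iA (a i) * iP (c i) - ∑ l, iA (∑ i, t i l • a i) * iP (q l)‖ ≤ δ * ∑ i, ‖a i‖ := by
  have e : ∑ l, iA (∑ i, t i l • a i) * iP (q l) =
      ∑ i, iA (a i) * iP (∑ l, t i l • q l) := by
    simp only [map_sum, map_smul, Finset.sum_mul, Finset.mul_sum, smul_mul_assoc,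
      mul_smul_comm]
    rw [Finset.sum_comm]
  rw [e, ← Finset.sum_sub_distrib, Finset.mul_sum]
  refine (norm_sum_le _ _).trans (Finset.sum_le_sum fun i _ => ?_)
  rw [← mul_sub, ← map_sub]
  calc ‖iA (a i) * iP (c i - ∑ l, t i l • q l)‖
      ≤ ‖iA (a i)‖ * ‖iP (c i - ∑ l, t i l • q l)‖ := norm_mul_le _ _
    _ ≤ ‖a i‖ * δ := mul_le_mul (NonUnitalStarAlgHom.norm_apply_le iA _)
        ((NonUnitalStarAlgHom.norm_apply_le iP _).trans (h i)) (norm_nonneg _) (norm_nonneg _)
    _ = δ * ‖a i‖ := mul_comm _ _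

/-- The same for elements `∑ iA (a i) iP (c i)` with `c i` in a commuting family: `exists_part`
for all `c i`, `c' j` (one family `Fin (k + l)`), `f_ε = ∑ l, iA (∑ i, t i l • a i) iP (q l)`,
`‖f - f_ε‖ ≤ ε ∑ ‖a i‖` (`norm_part`), and `ε → 0` (`τD`, `N`, `SA`, products are norm
continuous). -/
theorem diag_comm (hW : WT τP) (T : Tens τA τP τD iA iP) {FA : Finset A} {α Λ : ℝ}
    (hα : 0 ≤ α) (hΛ : 0 ≤ Λ) (hA : AD τA FA α Λ) {E : P →ₗ[ℂ] P} (hE : AbExp τP E)
    {z : D} (hz : ‖z‖ ≤ 1) {η : ℝ} (hη : 0 < η) {k l : ℕ} (a : Fin k → A) (b : Fin k → P)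
    (a' : Fin l → A) (b' : Fin l → P) (f g : D) (hf : f = ∑ i, iA (a i) * iP (E (b i)))
    (hg : g = ∑ i, iA (a' i) * iP (E (b' i))) :
    ‖τD ((f * g - g * f) * z)‖ ≤ 2 * (η + α / η) * (N τD f + N τD g)
      + 2 * (Λ / η) * (SA τD iA FA f + SA τD iA FA g) := by
  set K : Set (D × D) := {p | ‖τD ((p.1 * p.2 - p.2 * p.1) * z)‖ ≤
    2 * (η + α / η) * (N τD p.1 + N τD p.2)
      + 2 * (Λ / η) * (SA τD iA FA p.1 + SA τD iA FA p.2)} with hK
  have hcl : IsClosed K := by
    refine isClosed_le ?_ ?_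
    · refine ((dc_cont_tau T.trD).comp ?_).norm
      exact ((continuous_fst.mul continuous_snd).sub
        (continuous_snd.mul continuous_fst)).mul continuous_const
    · refine (continuous_const.mul ((dc_cont_N T.trD continuous_fst).add
        (dc_cont_N T.trD continuous_snd))).add (continuous_const.mul
        ((dc_cont_SA T.trD iA FA continuous_fst).add (dc_cont_SA T.trD iA FA continuous_snd)))
  have hmem : (f, g) ∈ closure K := by
    rw [Metric.mem_closure_iff]
    intro ε hε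
    set C : ℝ := ∑ i, ‖a i‖ + ∑ i, ‖a' i‖ + 1 with hC
    have hs : 0 ≤ ∑ i, ‖a i‖ := Finset.sum_nonneg fun i _ => norm_nonneg _
    have hs' : 0 ≤ ∑ i, ‖a' i‖ := Finset.sum_nonneg fun i _ => norm_nonneg _
    have hCpos : 0 < C := by linarith
    set δ : ℝ := ε / (2 * C) with hδ
    have hδpos : 0 < δ := by positivity
    have hδC : δ * C < ε := by
      have : δ * C = ε / 2 := by
        rw [hδ]
        field_simp
      linarith
    have hcc : ∀ x y : P, E x * star (E y) = star (E y) * E x := by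
      intro x y
      rw [← hE.star, hE.comm]
    obtain ⟨L, q, t, hq, ho, h1, hcq, hn⟩ := exists_part hW
      (Fin.append (fun i => E (b i)) (fun j => E (b' j)))
      (fun i j => by
        refine Fin.addCases (fun i => ?_) (fun i => ?_) i <;>
          refine Fin.addCases (fun j => ?_) (fun j => ?_) j <;>
          simp only [Fin.append_left, Fin.append_right] <;> exact hE.comm _ _)
      (fun i j => by
        refine Fin.addCases (fun i => ?_) (fun i => ?_) i <;>
          refine Fin.addCases (fun j => ?_) (fun j => ?_) j <;>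
          simp only [Fin.append_left, Fin.append_right] <;> exact hcc _ _) hδpos
    have hA1 : ∀ i, ‖E (b i) - ∑ m, t (Fin.castAdd l i) m • q m‖ ≤ δ := by
      intro i
      have h2 := norm_part hW hq ho h1 (fun m => hcq (Fin.castAdd l i) m) hδpos.le
        (fun m => hn (Fin.castAdd l i) m)
      rwa [Fin.append_left] at h2
    have hA2 : ∀ j, ‖E (b' j) - ∑ m, t (Fin.natAdd k j) m • q m‖ ≤ δ := by
      intro j
      have h2 := norm_part hW hq ho h1 (fun m => hcq (Fin.natAdd k j) m) hδpos.le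
        (fun m => hn (Fin.natAdd k j) m)
      rwa [Fin.append_right] at h2
    have d1 := dc_approx iA iP a (fun i => E (b i)) (fun i m => t (Fin.castAdd l i) m) hA1
    have d2 := dc_approx iA iP a' (fun j => E (b' j)) (fun j m => t (Fin.natAdd k j) m) hA2
    rw [← hf] at d1
    rw [← hg] at d2
    refine ⟨(∑ m, iA (∑ i, t (Fin.castAdd l i) m • a i) * iP (q m),
      ∑ m, iA (∑ j, t (Fin.natAdd k j) m • a' j) * iP (q m)), ?_, ?_⟩
    · exact diag_bound T hα hΛ hA hq ho hz hη _ _ _ _ rfl rfl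
    · rw [Prod.dist_eq, max_lt_iff, dist_eq_norm, dist_eq_norm]
      constructor
      · refine lt_of_le_of_lt d1 (lt_of_le_of_lt ?_ hδC)
        exact mul_le_mul_of_nonneg_left (by linarith) hδpos.le
      · refine lt_of_le_of_lt d2 (lt_of_le_of_lt ?_ hδC)
        exact mul_le_mul_of_nonneg_left (by linarith) hδpos.le
  have h := hcl.closure_eq ▸ hmem
  exact h

end Pool.McT
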