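import Pool.Agent.McT.W.Crit

/-!
# Trace preserving conditional expectations onto abelian subalgebras

`AbExp τ E`: `E` is a trace preserving conditional expectation of `P` onto an abelian subalgebra
(its range). `CentrAb τ`: for every `δ > 0` there is such an `E` with
`limsup ‖x n - E (x n)‖₂² ≤ δ` for all central sequences `x n` in the unit ball.
-/

set_option autoImplicit false

namespace Pool.McT

open Filter Topology

variable {P : Type*} [CStarAlgebra P] {τ : P →ₗ[ℂ] ℂ} {E : P →ₗ[ℂ] P}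

/-- A trace preserving conditional expectation onto an abelian subalgebra. -/
structure AbExp (τ : P →ₗ[ℂ] ℂ) (E : P →ₗ[ℂ] P) : Prop where
  comm : ∀ x y, E x * E y = E y * E x
  mod : ∀ x y, E (E x * y) = E x * E y
  star : ∀ x, E (star x) = star (E x)
  trace : ∀ x, τ (E x) = τ x
  one : E 1 = 1
  norm_le : ∀ x, ‖E x‖ ≤ ‖x‖

/-- The central sequences are asymptotically contained in abelian subalgebras. -/
def CentrAb (τ : P →ₗ[ℂ] ℂ) : Prop :=
  ∀ δ : ℝ, 0 < δ → ∃ E : P →ₗ[ℂ] P, AbExp τ E ∧ ∀ x : ℕ → P, CentralSeq τ x →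
    (∀ n, ‖x n‖ ≤ 1) → ∀ᶠ n in atTop, N τ (x n - E (x n)) ≤ δ

theorem AbExp.idem (h : AbExp τ E) (x : P) : E (E x) = E x := by
  have := h.mod x 1
  rwa [mul_one, h.one, mul_one] at this

theorem AbExp.mod_right (h : AbExp τ E) (x y : P) : E (x * E y) = E x * E y := by
  have h1 := congrArg Star.star (h.mod (Star.star y) (Star.star x))
  rw [← h.star, h.star y, h.star x, star_mul, star_star, star_star, star_mul, star_star,
    star_star] at h1
  exact h1

theorem AbExp.tau_left (h : AbExp τ E) (x y : P) : τ (E x * y) = τ (E x * E y) := by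
  rw [← h.trace, h.mod]

theorem AbExp.tau_right (h : AbExp τ E) (x y : P) : τ (x * E y) = τ (E x * E y) := by
  rw [← h.trace, h.mod_right]

/-- `τ ((x - E x)* (y - E y)) = τ (x* y) - τ ((E x)* (E y))`. -/
theorem AbExp.tau_sub (h : AbExp τ E) (x y : P) :
    τ (Star.star (x - E x) * (y - E y)) =
      τ (Star.star x * y) - τ (Star.star (E x) * E y) := by
  have h1 : τ (Star.star (E x) * y) = τ (Star.star (E x) * E y) := by
    rw [← h.star, h.tau_left]
  have h2 : τ (Star.star x * E y) = τ (Star.star (E x) * E y) := by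
    rw [h.tau_right, h.star]
  rw [star_sub, sub_mul, mul_sub, mul_sub, map_sub, map_sub, map_sub, h1, h2]
  ring

theorem AbExp.N_sub (h : AbExp τ E) (x : P) : N τ (x - E x) = N τ x - N τ (E x) := by
  unfold N
  rw [h.tau_sub, Complex.sub_re]

theorem AbExp.N_le (h : AbExp τ E) (hτ : IsTr τ) (x : P) : N τ (E x) ≤ N τ x := by
  have h1 := h.N_sub x
  have h2 := N_nonneg hτ (x - E x)
  linarith

theorem AbExp.N_sub_le (h : AbExp τ E) (hτ : IsTr τ) (x : P) : N τ (x - E x) ≤ N τ x := by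
  have h1 := h.N_sub x
  have h2 := N_nonneg hτ (E x)
  linarith

private theorem sqrt_Exp {a : P} (ha : IsSelfAdjoint a) (h1 : ‖1 - a‖ ≤ 1) :
    ∃ b : P, Star.star b = b ∧ b * b = a := by
  rcases subsingleton_or_nontrivial P with hP | hP
  · exact ⟨a, Subsingleton.elim _ _, Subsingleton.elim _ _⟩
  have hs : ∀ x ∈ spectrum ℝ a, 0 ≤ x := by
    intro x hx
    have h2 : (1 : ℝ) - x ∈ spectrum ℝ (1 - a) := by
      have h3 := spectrum.singleton_sub_eq a (1 : ℝ)
      rw [map_one] at h3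
      rw [← h3]
      exact Set.sub_mem_sub (Set.mem_singleton _) hx
    have h4 : ‖(1 : ℝ) - x‖ ≤ ‖1 - a‖ := spectrum.norm_le_norm_of_mem h2
    have h5 := le_abs_self ((1 : ℝ) - x)
    rw [Real.norm_eq_abs] at h4
    linarith
  refine ⟨cfc (fun s : ℝ => √s) a,
    (cfc_predicate (R := ℝ) (p := IsSelfAdjoint) _ a).star_eq, ?_⟩
  rw [← cfc_mul _ _ a Real.continuous_sqrt.continuousOn Real.continuous_sqrt.continuousOn]
  have h6 : cfc (fun s : ℝ => √s * √s) a = cfc (fun s : ℝ => s) a :=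
    cfc_congr fun s hs' => Real.mul_self_sqrt (hs s hs')
  rw [h6]
  exact cfc_id ℝ a ha

private theorem norm_Exp {p : P} (hp : IsPr p) : ‖1 - p‖ ≤ 1 := by
  have h1 : Star.star (1 - p) * (1 - p) = 1 - p := by
    rw [star_sub, star_one, hp.1, sub_mul, one_mul, mul_sub, mul_one, hp.2, sub_self, sub_zero]
  have h2 : ‖1 - p‖ * ‖1 - p‖ = ‖1 - p‖ := by
    rw [← CStarRing.norm_star_mul_self, h1]
  rcases eq_or_ne (‖1 - p‖) 0 with h3 | h3
  · rw [h3]
    exact zero_le_one
  · have h4 := mul_right_cancel₀ h3 (h2.trans (one_mul _).symm)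
    exact h4.le

/-- `E (p)` is self-adjoint with `‖1 - E p‖ = ‖E (1 - p)‖ ≤ 1`, so it is the square of a
self-adjoint element `b` (spectrum in `[0, 2]`), and `τ (b b q) = N (b q)`. -/
theorem AbExp.pos (h : AbExp τ E) (hτ : IsTr τ) {p q : P} (hp : IsPr p) (hq : IsPr q) :
    0 ≤ (τ (E p * q)).re := by
  have h1 : IsSelfAdjoint (E p) := by
    change Star.star (E p) = E p
    rw [← h.star, hp.1]
  have h2 : ‖1 - E p‖ ≤ 1 := by
    have h3 : 1 - E p = E (1 - p) := by rw [map_sub, h.one]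
    rw [h3]
    exact (h.norm_le _).trans (norm_Exp hp)
  obtain ⟨b, hb1, hb2⟩ := sqrt_Exp h1 h2
  have h4 : τ (E p * q) = τ (Star.star (b * q) * (b * q)) := by
    rw [star_mul, hb1, hq.1, ← hb2]
    calc τ (b * b * q) = τ (b * b * (q * q)) := by rw [hq.2]
      _ = τ ((b * b * q) * q) := by rw [mul_assoc (b * b)]
      _ = τ (q * (b * b * q)) := hτ.comm _ _
      _ = τ (q * b * (b * q)) := by
        congr 1
        noncomm_ring
  rw [h4]
  exact hτ.nonneg _

/-- The triangle inequality for `x ↦ √ N (x - E x)`. -/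
theorem AbExp.sqrt_add_le (_h : AbExp τ E) (hτ : IsTr τ) (x y : P) :
    Real.sqrt (N τ ((x + y) - E (x + y))) ≤
      Real.sqrt (N τ (x - E x)) + Real.sqrt (N τ (y - E y)) := by
  have h1 := sqrt_N_add_le hτ (x - E x) (y - E y)
  have h2 : (x + y) - E (x + y) = (x - E x) + (y - E y) := by
    rw [map_add]
    abel
  rw [h2]
  exact h1

end Pool.McT
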