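import Pool.Agent.McT.P.OneSided
import Pool.Agent.McT.F.Exp

/-! Commutators of diagonal elements: one block. -/

set_option autoImplicit false

namespace Pool.McT

variable {A P D : Type*} [CStarAlgebra A] [CStarAlgebra P] [CStarAlgebra D]
  {τA : A →ₗ[ℂ] ℂ} {τP : P →ₗ[ℂ] ℂ} {τD : D →ₗ[ℂ] ℂ} {iA : A →⋆ₐ[ℂ] D} {iP : P →⋆ₐ[ℂ] D}

/-- If `τ q = 0` the left side is `0` (`N (iP q) = 0`). Otherwise `t = re τ q > 0` and
`φ X = t⁻¹ τD (z * iA X * iP q)` satisfies `‖φ (X Y)‖² ≤ N X N Y`: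
`z X Y q = (z (X q)) (Y q)`, `|τ (a b)|² ≤ N a N b`, `N (z (X q)) ≤ N (X q) = t N X`. Then
`fun_comm` for `φ`, `x = G`, `star y = F`... (`φ (F G - G F)`), `N_star`,
`S τA FA (star F) = S τA FA F`. -/
theorem diag_one (T : Tens τA τP τD iA iP) {FA : Finset A} {α Λ : ℝ} (hα : 0 ≤ α)
    (hΛ : 0 ≤ Λ) (hA : AD τA FA α Λ) {q : P} (hq : IsPr q) {z : D} (hz : ‖z‖ ≤ 1) {η : ℝ}
    (hη : 0 < η) (F G : A) :
    ‖τD ((iA (F * G - G * F) * iP q) * z)‖ ≤ (τP q).re *
      (2 * (η + α / η) * (N τA F + N τA G) + 2 * (Λ / η) * (S τA FA F + S τA FA G)) := by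
  have hNq : N τP q = (τP q).re := by
    unfold N
    rw [hq.1, hq.2]
  have ht0 : 0 ≤ (τP q).re := by
    rw [← hNq]
    exact N_nonneg T.trB q
  have hNX : ∀ X : A, N τD (iA X * iP q) = N τA X * (τP q).re := by
    intro X
    rw [N_tens T, hNq]
  have hz2 : ‖z‖ ^ 2 ≤ 1 := pow_le_one₀ (norm_nonneg _) hz
  rcases ht0.eq_or_lt with ht | ht
  · have h1 := tau_mul_sq_le T.trD (iA (F * G - G * F) * iP q) z
    rw [hNX, ← ht, mul_zero, zero_mul] at h1
    have h2 : ‖τD ((iA (F * G - G * F) * iP q) * z)‖ = 0 :=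
      pow_eq_zero_iff two_ne_zero |>.1 (le_antisymm h1 (sq_nonneg _))
    rw [h2, ← ht, zero_mul]
  · set t : ℝ := (τP q).re with htdef
    let φ : A →ₗ[ℂ] ℂ :=
      { toFun := fun X => ((t⁻¹ : ℝ) : ℂ) * τD (z * (iA X * iP q))
        map_add' := fun X Y => by
          rw [map_add, add_mul, mul_add, map_add, mul_add]
        map_smul' := fun c X => by
          rw [map_smul, smul_mul_assoc, mul_smul_comm, map_smul, smul_eq_mul, smul_eq_mul,
            RingHom.id_apply]
          ring }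
    have hφdef : ∀ X, φ X = ((t⁻¹ : ℝ) : ℂ) * τD (z * (iA X * iP q)) := fun X => rfl
    have hφ : ∀ X Y, ‖φ (X * Y)‖ ^ 2 ≤ N τA X * N τA Y := by
      intro X Y
      have e1 : z * (iA (X * Y) * iP q) = (z * (iA X * iP q)) * (iA Y * iP q) := by
        have e2 : iP q * iP q = iP q := by rw [← map_mul, hq.2]
        have e3 : (z * (iA X * iP q)) * (iA Y * iP q) =
            z * (iA X * (iP q * iA Y) * iP q) := by
          simp only [mul_assoc]
        rw [e3, ← T.comm Y q, map_mul]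
        simp only [mul_assoc]
        rw [e2]
      have h1 := tau_mul_sq_le T.trD (z * (iA X * iP q)) (iA Y * iP q)
      have h2 := N_mul_le_left T.trD z (iA X * iP q)
      have h3 : N τD (z * (iA X * iP q)) ≤ N τA X * t := by
        refine h2.trans ?_
        rw [hNX]
        exact mul_le_of_le_one_left (mul_nonneg (N_nonneg T.trA X) ht0) hz2
      rw [hNX] at h1
      have h4 : ‖τD ((z * (iA X * iP q)) * (iA Y * iP q))‖ ^ 2 ≤
          (N τA X * t) * (N τA Y * t) :=
        h1.trans (mul_le_mul_of_nonneg_right h3 (mul_nonneg (N_nonneg T.trA Y) ht0))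
      rw [hφdef, e1, norm_mul, mul_pow, Complex.norm_real, Real.norm_eq_abs, sq_abs]
      calc t⁻¹ ^ 2 * ‖τD ((z * (iA X * iP q)) * (iA Y * iP q))‖ ^ 2
          ≤ t⁻¹ ^ 2 * ((N τA X * t) * (N τA Y * t)) :=
            mul_le_mul_of_nonneg_left h4 (sq_nonneg _)
        _ = N τA X * N τA Y := by
            field_simp
    have h5 := fun_comm T.trA hα hΛ hA φ hφ hη G (star F)
    rw [star_star, N_star T.trA] at h5
    have hS : S τA FA (star F) = S τA FA F := by
      unfold S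
      refine Finset.sum_congr rfl fun u _ => ?_
      rw [star_star, add_comm]
    rw [hS] at h5
    have h6 : τD ((iA (F * G - G * F) * iP q) * z) = (t : ℂ) * φ (F * G - G * F) := by
      have h7 : ∀ c : ℂ, c = (t : ℂ) * (((t⁻¹ : ℝ) : ℂ) * c) := by
        intro c
        rw [← mul_assoc, ← Complex.ofReal_mul, mul_inv_cancel₀ ht.ne', Complex.ofReal_one,
          one_mul]
      rw [hφdef, T.trD.comm]
      exact h7 _
    rw [h6, norm_mul, Complex.norm_real, Real.norm_eq_abs, abs_of_pos ht]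
    refine mul_le_mul_of_nonneg_left (h5.trans (le_of_eq ?_)) ht0
    ring

end Pool.McT
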