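import Pool.Agent.McT.F.DiagA

/-! Commutators of diagonal elements. -/

set_option autoImplicit false

namespace Pool.McT

variable {A P D : Type*} [CStarAlgebra A] [CStarAlgebra P] [CStarAlgebra D]
  {τA : A →ₗ[ℂ] ℂ} {τP : P →ₗ[ℂ] ℂ} {τD : D →ₗ[ℂ] ℂ} {iA : A →⋆ₐ[ℂ] D} {iP : P →⋆ₐ[ℂ] D}

private theorem mul_DiagB (T : Tens τA τP τD iA iP) {L : ℕ} {q : Fin L → P}
    (hq : ∀ l, IsPr (q l)) (ho : ∀ l l', l ≠ l' → q l * q l' = 0) (F G : Fin L → A) :
    (∑ l, iA (F l) * iP (q l)) * (∑ l, iA (G l) * iP (q l)) =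
      ∑ l, iA (F l * G l) * iP (q l) := by
  rw [Finset.sum_mul]
  refine Finset.sum_congr rfl fun l _ => ?_
  rw [Finset.mul_sum]
  have h1 : ∀ l', iA (F l) * iP (q l) * (iA (G l') * iP (q l')) =
      iA (F l * G l') * iP (q l * q l') := by
    intro l'
    rw [map_mul, map_mul]
    have h2 := T.comm (G l') (q l)
    calc iA (F l) * iP (q l) * (iA (G l') * iP (q l'))
        = iA (F l) * (iP (q l) * iA (G l')) * iP (q l') := by simp only [mul_assoc]
      _ = iA (F l) * iA (G l') * (iP (q l) * iP (q l')) := by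
          rw [← h2]
          simp only [mul_assoc]
  rw [Finset.sum_congr rfl fun l' _ => h1 l', Finset.sum_eq_single l]
  · rw [(hq l).2]
  · intro l' _ hl
    rw [ho l l' (Ne.symm hl), map_zero, mul_zero]
  · intro h
    exact absurd (Finset.mem_univ l) h

private theorem star_DiagB (T : Tens τA τP τD iA iP) {L : ℕ} {q : Fin L → P}
    (hq : ∀ l, IsPr (q l)) (F : Fin L → A) :
    star (∑ l, iA (F l) * iP (q l)) = ∑ l, iA (star (F l)) * iP (q l) := by
  rw [star_sum]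
  refine Finset.sum_congr rfl fun l _ => ?_
  rw [star_mul, ← map_star, ← map_star, (hq l).1, T.comm]

private theorem N_DiagB (T : Tens τA τP τD iA iP) {L : ℕ} {q : Fin L → P}
    (hq : ∀ l, IsPr (q l)) (ho : ∀ l l', l ≠ l' → q l * q l' = 0) (F : Fin L → A) :
    N τD (∑ l, iA (F l) * iP (q l)) = ∑ l, (τP (q l)).re * N τA (F l) := by
  unfold N
  rw [star_DiagB T hq, mul_DiagB T hq ho, map_sum, Complex.re_sum]
  refine Finset.sum_congr rfl fun l _ => ?_
  rw [T.tau, Complex.mul_re, T.trA.real, zero_mul, sub_zero, mul_comm]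

private theorem cm_DiagB (T : Tens τA τP τD iA iP) {L : ℕ} {q : Fin L → P}
    (F : Fin L → A) (u : A) :
    cm (∑ l, iA (F l) * iP (q l)) (iA u) = ∑ l, iA (cm (F l) u) * iP (q l) := by
  unfold cm
  rw [Finset.sum_mul, Finset.mul_sum, ← Finset.sum_sub_distrib]
  refine Finset.sum_congr rfl fun l _ => ?_
  rw [mul_assoc, ← T.comm u (q l), map_sub, map_mul, map_mul, sub_mul, mul_assoc, mul_assoc]

private theorem SA_DiagB (T : Tens τA τP τD iA iP) {L : ℕ} {q : Fin L → P}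
    (hq : ∀ l, IsPr (q l)) (ho : ∀ l l', l ≠ l' → q l * q l' = 0) (FA : Finset A)
    (F : Fin L → A) :
    SA τD iA FA (∑ l, iA (F l) * iP (q l)) = ∑ l, (τP (q l)).re * S τA FA (F l) := by
  unfold SA S
  simp only [Finset.mul_sum]
  rw [Finset.sum_comm]
  refine Finset.sum_congr rfl fun u _ => ?_
  rw [star_DiagB T hq, cm_DiagB T, cm_DiagB T, N_DiagB T hq ho, N_DiagB T hq ho,
    ← Finset.sum_add_distrib]
  refine Finset.sum_congr rfl fun l _ => ?_
  ring

/-- For `f = ∑ iA (F l) iP (q l)`, `g = ∑ iA (G l) iP (q l)` (orthogonal projections):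
`f g - g f = ∑ iA (F l G l - G l F l) iP (q l)`, `N f = ∑ τ (q l) N (F l)`,
`SA f = ∑ τ (q l) S (F l)`; `diag_one` and the triangle inequality. -/
theorem diag_bound (T : Tens τA τP τD iA iP) {FA : Finset A} {α Λ : ℝ} (hα : 0 ≤ α)
    (hΛ : 0 ≤ Λ) (hA : AD τA FA α Λ) {L : ℕ} {q : Fin L → P} (hq : ∀ l, IsPr (q l))
    (ho : ∀ l l', l ≠ l' → q l * q l' = 0) {z : D} (hz : ‖z‖ ≤ 1) {η : ℝ}
    (hη : 0 < η) (F G : Fin L → A) (f g : D) (hf : f = ∑ l, iA (F l) * iP (q l))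
    (hg : g = ∑ l, iA (G l) * iP (q l)) :
    ‖τD ((f * g - g * f) * z)‖ ≤ 2 * (η + α / η) * (N τD f + N τD g)
      + 2 * (Λ / η) * (SA τD iA FA f + SA τD iA FA g) := by
  have h1 : f * g - g * f = ∑ l, iA (F l * G l - G l * F l) * iP (q l) := by
    rw [hf, hg, mul_DiagB T hq ho, mul_DiagB T hq ho, ← Finset.sum_sub_distrib]
    refine Finset.sum_congr rfl fun l _ => ?_
    rw [map_sub, sub_mul]
  have h2 : ‖τD ((f * g - g * f) * z)‖ ≤ ∑ l, (τP (q l)).re *
      (2 * (η + α / η) * (N τA (F l) + N τA (G l)) +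
        2 * (Λ / η) * (S τA FA (F l) + S τA FA (G l))) := by
    rw [h1, Finset.sum_mul, map_sum]
    refine (norm_sum_le _ _).trans (Finset.sum_le_sum fun l _ => ?_)
    exact diag_one T hα hΛ hA (hq l) hz hη (F l) (G l)
  refine h2.trans (le_of_eq ?_)
  rw [hf, hg, N_DiagB T hq ho, N_DiagB T hq ho, SA_DiagB T hq ho, SA_DiagB T hq ho,
    ← Finset.sum_add_distrib, ← Finset.sum_add_distrib, Finset.mul_sum, Finset.mul_sum,
    ← Finset.sum_add_distrib]
  refine Finset.sum_congr rfl fun l _ => ?_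
  ring

end Pool.McT
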