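import Pool.Agent.McT.F.FinB

/-! Tensor product of a factor which is not McDuff and a factor whose central sequences are
contained in abelian subalgebras. -/

set_option autoImplicit false

namespace Pool.McT

open Filter Topology

variable {A P D : Type*} [CStarAlgebra A] [CStarAlgebra P] [CStarAlgebra D]
  {τA : A →ₗ[ℂ] ℂ} {τP : P →ₗ[ℂ] ℂ} {τD : D →ₗ[ℂ] ℂ} {iA : A →⋆ₐ[ℂ] D} {iP : P →⋆ₐ[ℂ] D}

/-- the 2-norm of a commutator, for bounded elements, is bounded by a value of the trace -/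
private theorem cm_le_Fin {τ : D →ₗ[ℂ] ℂ} (hτ : IsTr τ) {K B : ℝ} (hB : 2 * K ^ 2 ≤ B)
    (hB0 : 0 < B) (hK0 : 0 ≤ K) {x y : D} (hx : ‖x‖ ≤ K) (hy : ‖y‖ ≤ K) :
    ∃ z : D, ‖z‖ ≤ 1 ∧ N τ (cm x y) ≤ B * ‖τ ((x * y - y * x) * z)‖ := by
  have hc : ‖cm x y‖ ≤ B := by
    unfold cm
    refine (norm_sub_le _ _).trans ?_
    have h1 : ‖x * y‖ ≤ K * K :=
      (norm_mul_le _ _).trans (mul_le_mul hx hy (norm_nonneg _) hK0)
    have h2 : ‖y * x‖ ≤ K * K :=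
      (norm_mul_le _ _).trans (mul_le_mul hy hx (norm_nonneg _) hK0)
    nlinarith
  refine ⟨((B⁻¹ : ℝ) : ℂ) • star (cm x y), ?_, ?_⟩
  · rw [norm_smul, Complex.norm_real, Real.norm_eq_abs, abs_of_pos (inv_pos.2 hB0), norm_star,
      inv_mul_le_iff₀ hB0, mul_one]
    exact hc
  · have h2 : τ ((x * y - y * x) * (((B⁻¹ : ℝ) : ℂ) • star (cm x y))) =
        ((B⁻¹ : ℝ) : ℂ) * τ (cm x y * star (cm x y)) := by
      rw [mul_smul_comm, map_smul, smul_eq_mul]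
      rfl
    have h3 : N τ (cm x y) = (τ (cm x y * star (cm x y))).re := by
      rw [← N_star hτ]
      unfold N
      rw [star_star]
    rw [h2, norm_mul, Complex.norm_real, Real.norm_eq_abs, abs_of_pos (inv_pos.2 hB0), h3,
      ← mul_assoc, mul_inv_cancel₀ hB0.ne', one_mul]
    exact Complex.re_le_norm _

/-- As `not_mcduff_of_commLOne` (the bounded multiple of `[f n, g n]*` as `z`),
`SS_tendsto_MainZ`, `N_bdd_MainZ`. -/
theorem not_mcduff_tens (T : Tens τA τP τD iA iP) (hd : Dense2 τD iA iP) (hA : Fac τA)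
    (hP : Fac τP) (sA : Sep τA) (sP : Sep τP) (mA : ¬ McDuff τA) (hab : CentrAb τP) :
    ¬ McDuff τD := by
  rintro ⟨x, y, hx, hy, hn⟩
  apply hn
  obtain ⟨K₁, hK₁⟩ := hx.1
  obtain ⟨K₂, hK₂⟩ := hy.1
  obtain ⟨K, hK⟩ : ∃ K : ℝ, K = max K₁ K₂ := ⟨_, rfl⟩
  have hKx : ∀ n, ‖x n‖ ≤ K := fun n => (hK₁ n).trans (by rw [hK]; exact le_max_left _ _)
  have hKy : ∀ n, ‖y n‖ ≤ K := fun n => (hK₂ n).trans (by rw [hK]; exact le_max_right _ _)
  have hK0 : 0 ≤ K := (norm_nonneg _).trans (hKx 0)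
  obtain ⟨M₁, hM₁⟩ := N_bdd_MainZ T hx
  obtain ⟨M₂, hM₂⟩ := N_bdd_MainZ T hy
  have hM₁0 : 0 ≤ M₁ := (N_nonneg T.trD (x 0)).trans (hM₁ 0)
  have hM₂0 : 0 ≤ M₂ := (N_nonneg T.trD (y 0)).trans (hM₂ 0)
  obtain ⟨B, hB⟩ : ∃ B : ℝ, B = 2 * K ^ 2 + 1 := ⟨_, rfl⟩
  have hB0 : 0 < B := by
    rw [hB]
    positivity
  have hKB : 2 * K ^ 2 ≤ B := by
    rw [hB]
    linarith
  rw [Metric.tendsto_atTop]
  intro ε hε
  have hδ : 0 < ε / (2 * B * (M₁ + M₂ + 1)) := by positivity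
  obtain ⟨FA, FP, C, hC, hb⟩ := fin_all T hd hA hP sA sP mA hab hδ
  have hS : Tendsto (fun n => B * (C * (SS τD iA iP FA FP (x n) + SS τD iA iP FA FP (y n))))
      atTop (𝓝 0) := by
    have h1 := ((SS_tendsto_MainZ T hx FA FP).add (SS_tendsto_MainZ T hy FA FP)).const_mul (B * C)
    simpa [mul_assoc] using h1
  rw [Metric.tendsto_atTop] at hS
  obtain ⟨n₀, hn₀⟩ := hS (ε / 2) (by positivity)
  refine ⟨n₀, fun n hn' => ?_⟩
  have h2 := hn₀ n hn'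
  rw [Real.dist_eq, sub_zero] at h2 ⊢
  rw [abs_of_nonneg (N_nonneg T.trD _)]
  have h3 := (abs_lt.1 h2).2
  obtain ⟨z, hz, h1⟩ := cm_le_Fin T.trD hKB hB0 hK0 (hKx n) (hKy n)
  have h4 := hb (x n) (y n) z hz
  have h5 : B * (ε / (2 * B * (M₁ + M₂ + 1)) * (N τD (x n) + N τD (y n))) ≤ ε / 2 := by
    have h6 := hM₁ n
    have h7 := hM₂ n
    calc B * (ε / (2 * B * (M₁ + M₂ + 1)) * (N τD (x n) + N τD (y n))) ≤
          B * (ε / (2 * B * (M₁ + M₂ + 1)) * (M₁ + M₂ + 1)) :=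
          mul_le_mul_of_nonneg_left (mul_le_mul_of_nonneg_left (by linarith) hδ.le) hB0.le
      _ = ε / 2 := by
          field_simp
  calc N τD (cm (x n) (y n)) ≤ B * ‖τD ((x n * y n - y n * x n) * z)‖ := h1
    _ ≤ B * (ε / (2 * B * (M₁ + M₂ + 1)) * (N τD (x n) + N τD (y n)) +
        C * (SS τD iA iP FA FP (x n) + SS τD iA iP FA FP (y n))) :=
        mul_le_mul_of_nonneg_left h4 hB0.le
    _ = B * (ε / (2 * B * (M₁ + M₂ + 1)) * (N τD (x n) + N τD (y n))) +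
        B * (C * (SS τD iA iP FA FP (x n) + SS τD iA iP FA FP (y n))) := by ring
    _ < ε := by linarith

end Pool.McT
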