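import Pool.Agent.McT.F.TensE

/-! The conditional expectation on the second factor of a tensor product. -/

set_option autoImplicit false

namespace Pool.McT

variable {A P D : Type*} [CStarAlgebra A] [CStarAlgebra P] [CStarAlgebra D]
  {τA : A →ₗ[ℂ] ℂ} {τP : P →ₗ[ℂ] ℂ} {τD : D →ₗ[ℂ] ℂ} {iA : A →⋆ₐ[ℂ] D} {iP : P →⋆ₐ[ℂ] D}
  {E : P →ₗ[ℂ] P}

/-- With an orthonormal system `e` in `A` (`exists_repr`): `f = ∑ p, iA (e p) iP (z p)`,
`f - f' = ∑ p, iA (e p) iP (z p - E (z p))`; the map `∑ x_i ⊗ y_i ↦ ∑ x_i ⊗ E y_i` depends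
only on the element up to 2-norm `0` (`N_tens_exp` applied to the difference of two
representations), `N_sum_tens`, `S_sum_tens` for `T.symm`. -/
theorem N_sub_tens_exp (T : Tens τA τP τD iA iP) (hfA : ∀ x : A, N τA x = 0 → x = 0)
    (hfP : ∀ x : P, N τP x = 0 → x = 0) (hE : AbExp τP E) {F : Finset P} {δ C : ℝ}
    (h : ∀ x : P, N τP (x - E x) ≤ δ * N τP x + C * S τP F x) {k : ℕ} (a : Fin k → A)
    (b : Fin k → P) (f : D) (hf : f = ∑ i, iA (a i) * iP (b i)) :
    N τD (f - ∑ i, iA (a i) * iP (E (b i))) ≤ δ * N τD f +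
      C * ∑ u ∈ F, (N τD (cm f (iP u)) + N τD (cm (star f) (iP u))) := by
  obtain ⟨m, e, s, -, he, hs⟩ := gram_schmidt T.trA hfA k a
  have key : ∀ y : Fin k → P, ∑ i, iA (a i) * iP (y i) =
      ∑ p, iP (∑ i, s i p • y i) * iA (e p) := by
    intro y
    have h1 : ∀ i, iA (a i) * iP (y i) = ∑ p, s i p • (iP (y i) * iA (e p)) := by
      intro i
      rw [T.comm, hs i, map_sum, Finset.mul_sum]
      refine Finset.sum_congr rfl fun p _ => ?_
      rw [map_smul, mul_smul_comm]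
    rw [Finset.sum_congr rfl fun i _ => h1 i, Finset.sum_comm]
    refine Finset.sum_congr rfl fun p _ => ?_
    rw [map_sum, Finset.sum_mul]
    refine Finset.sum_congr rfl fun i _ => ?_
    rw [map_smul, smul_mul_assoc]
  obtain ⟨z, hz⟩ : ∃ z : Fin m → P, z = fun p => ∑ i, s i p • b i := ⟨_, rfl⟩
  have h2 : f = ∑ p, iP (z p) * iA (e p) := by rw [hf, key b, hz]
  have h3 : ∑ i, iA (a i) * iP (E (b i)) = ∑ p, iP (E (z p)) * iA (e p) := by
    rw [key fun i => E (b i), hz]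
    refine Finset.sum_congr rfl fun p _ => ?_
    simp only [map_sum, map_smul]
  have h4 : f - ∑ i, iA (a i) * iP (E (b i)) = ∑ p, iP (z p - E (z p)) * iA (e p) := by
    rw [h3, h2, ← Finset.sum_sub_distrib]
    refine Finset.sum_congr rfl fun p _ => ?_
    rw [map_sub, sub_mul]
  rw [h4, N_sum_tens T.symm _ e he, h2, N_sum_tens T.symm _ e he, S_sum_tens T.symm _ e he,
    Finset.mul_sum, Finset.mul_sum, ← Finset.sum_add_distrib]
  exact Finset.sum_le_sum fun p _ => h (z p)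

end Pool.McT
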