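import Pool.Agent.McT.F.LTwo
import Pool.Agent.McT.F.TensF
import Pool.Agent.McT.F.Diag

/-! The commutator estimate for algebraic elements. -/

set_option autoImplicit false

namespace Pool.McT

open Filter Topology

variable {A P D : Type*} [CStarAlgebra A] [CStarAlgebra P] [CStarAlgebra D]
  {τA : A →ₗ[ℂ] ℂ} {τP : P →ₗ[ℂ] ℂ} {τD : D →ₗ[ℂ] ℂ} {iA : A →⋆ₐ[ℂ] D} {iP : P →⋆ₐ[ℂ] D}

private theorem FinA_three {τ : D →ₗ[ℂ] ℂ} (hτ : IsTr τ) {x y z : D} (hz : ‖z‖ ≤ 1) {t : ℝ}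
    (ht : 0 < t) : ‖τ (x * y * z)‖ ≤ (1 / t * N τ x + t * N τ y) / 2 := by
  have hx := N_nonneg hτ x
  have hy := N_nonneg hτ y
  have h1 := tau_mul_sq_le hτ x (y * z)
  rw [← mul_assoc] at h1
  have h2 : N τ (y * z) ≤ N τ y := by
    refine (N_mul_le_right hτ y z).trans ?_
    exact mul_le_of_le_one_left hy (pow_le_one₀ (norm_nonneg _) hz)
  have h3 : ‖τ (x * y * z)‖ ^ 2 ≤ N τ x * N τ y := h1.trans (mul_le_mul_of_nonneg_left h2 hx)
  have h4 : N τ x * N τ y ≤ ((1 / t * N τ x + t * N τ y) / 2) ^ 2 := by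
    have h5 : (1 / t * N τ x) * (t * N τ y) = N τ x * N τ y := by
      field_simp
    nlinarith [sq_nonneg (1 / t * N τ x - t * N τ y)]
  have h6 : 0 ≤ (1 / t * N τ x + t * N τ y) / 2 := by positivity
  exact (pow_le_pow_iff_left₀ (norm_nonneg _) h6 two_ne_zero).1 (h3.trans h4)

/-- `|τ (x y z)| ≤ √N x √N y` for `‖z‖ ≤ 1`; `x y - x' y' = (x - x') y + x' (y - y')`, and
`2 √(a b) ≤ a / t + t b`. -/
theorem tau_replace {τ : D →ₗ[ℂ] ℂ} (hτ : IsTr τ) {f g f' g' z : D} (hz : ‖z‖ ≤ 1) {t : ℝ}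
    (ht : 0 < t) :
    ‖τ ((f * g - g * f) * z)‖ ≤ ‖τ ((f' * g' - g' * f') * z)‖ +
      (1 / t) * (N τ (f - f') + N τ (g - g')) + t * (N τ g + N τ f') := by
  have e : (f * g - g * f) * z = (f' * g' - g' * f') * z + (f - f') * g * z +
      f' * (g - g') * z - (g - g') * f' * z - g * (f - f') * z := by
    noncomm_ring
  have h1 := FinA_three hτ (x := f - f') (y := g) hz ht
  have h2 : ‖τ (f' * (g - g') * z)‖ ≤ (1 / t * N τ (g - g') + t * N τ f') / 2 := by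
    have ht' : 0 < 1 / t := by positivity
    have := FinA_three hτ (x := f') (y := g - g') hz ht'
    rw [one_div_one_div] at this
    linarith
  have h3 := FinA_three hτ (x := g - g') (y := f') hz ht
  have h4 : ‖τ (g * (f - f') * z)‖ ≤ (1 / t * N τ (f - f') + t * N τ g) / 2 := by
    have ht' : 0 < 1 / t := by positivity
    have := FinA_three hτ (x := g) (y := f - f') hz ht'
    rw [one_div_one_div] at this
    linarith
  rw [e, map_sub, map_sub, map_add, map_add]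
  have h5 : ‖τ ((f' * g' - g' * f') * z) + τ ((f - f') * g * z) + τ (f' * (g - g') * z) -
      τ ((g - g') * f' * z) - τ (g * (f - f') * z)‖ ≤ ‖τ ((f' * g' - g' * f') * z)‖ +
      ‖τ ((f - f') * g * z)‖ + ‖τ (f' * (g - g') * z)‖ + ‖τ ((g - g') * f' * z)‖ +
      ‖τ (g * (f - f') * z)‖ := by
    refine (norm_sub_le _ _).trans (add_le_add ?_ le_rfl)
    refine (norm_sub_le _ _).trans (add_le_add ?_ le_rfl)
    refine (norm_add_le _ _).trans (add_le_add ?_ le_rfl)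
    exact norm_add_le _ _
  refine h5.trans ?_
  have e2 : 1 / t * (N τ (f - f') + N τ (g - g')) + t * (N τ g + N τ f') =
      (1 / t * N τ (f - f') + t * N τ g) / 2 + (1 / t * N τ (g - g') + t * N τ f') / 2 +
      (1 / t * N τ (g - g') + t * N τ f') / 2 + (1 / t * N τ (f - f') + t * N τ g) / 2 := by
    ring
  linarith

/-- For algebraic `f`, `g`: `tau_replace` with `f' = ∑ a i ⊗ E (b i)`, `g'` alike,
`t = δ / 4`, `N f' ≤ N f` (`N_tens_exp`), `N (f - f') ≤ δ' N f + C' S_P f` (`N_sub_tens_exp`) with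
`δ' = min 1 (δ² / 64)`, and `diag_comm` with `AD` from `absdiff`, `exists_NM`
(`2 (η + 16 η² / η) = 34 η ≤ δ / 8`, as in `one_factor`), `comm_tens_exp`. -/
theorem fin_alg (T : Tens τA τP τD iA iP) (hA : Fac τA) (hP : Fac τP) (sA : Sep τA)
    (sP : Sep τP) (mA : ¬ McDuff τA) (hab : CentrAb τP) {δ : ℝ} (hδ : 0 < δ) :
    ∃ (FA : Finset A) (FP : Finset P) (C : ℝ), 0 ≤ C ∧ ∀ (k l : ℕ) (a : Fin k → A)
      (b : Fin k → P) (a' : Fin l → A) (b' : Fin l → P) (f g z : D), ‖z‖ ≤ 1 →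
      f = ∑ i, iA (a i) * iP (b i) → g = ∑ i, iA (a' i) * iP (b' i) →
      ‖τD ((f * g - g * f) * z)‖ ≤ δ * (N τD f + N τD g) +
        C * (SS τD iA iP FA FP f + SS τD iA iP FA FP g) := by
  obtain ⟨FA, κ, hκ, hNA⟩ := exists_NM hA sA mA
  obtain ⟨n, hn⟩ := exists_pow_lt_of_lt_one (show (0 : ℝ) < δ / 272 by positivity)
    (show (1 / 2 : ℝ) < 1 by norm_num)
  obtain ⟨J, hJ⟩ : ∃ J : ℕ, J = max n 3 := ⟨_, rfl⟩
  have hJ3 : 3 ≤ J := hJ ▸ le_max_right _ _
  obtain ⟨η, hη⟩ : ∃ η : ℝ, η = (1 / 2 : ℝ) ^ J := ⟨_, rfl⟩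
  have hη0 : 0 < η := by
    rw [hη]
    positivity
  have hηδ : 34 * η ≤ δ / 8 := by
    have h1 : η ≤ (1 / 2 : ℝ) ^ n := by
      rw [hη]
      exact pow_le_pow_of_le_one (by norm_num) (by norm_num) (hJ ▸ le_max_left _ _)
    linarith
  have h4 : (1 / 4 : ℝ) ^ J = η * η := by
    rw [hη, ← mul_pow]
    norm_num
  have hAD := absdiff hA.tr hκ hNA hJ3
  have hδ' : 0 < min 1 (δ ^ 2 / 64) := lt_min one_pos (by positivity)
  obtain ⟨E, hE, FP, C', hC', hEP⟩ := centrAb_l_two hP sP hab hδ' (min_le_left _ _)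
  have hΛ : 0 ≤ 520 * κ * J := by positivity
  refine ⟨FA, FP, 2 * (520 * κ * J / η) + 4 / δ * C', by positivity,
    fun k l a b a' b' f g z hz hf hg => ?_⟩
  obtain ⟨f', hf'⟩ : ∃ f' : D, f' = ∑ i, iA (a i) * iP (E (b i)) := ⟨_, rfl⟩
  obtain ⟨g', hg'⟩ : ∃ g' : D, g' = ∑ i, iA (a' i) * iP (E (b' i)) := ⟨_, rfl⟩
  have h5 := tau_replace T.trD (f := f) (g := g) (f' := f') (g' := g') hz
    (show 0 < δ / 4 by positivity)
  have h6 := diag_comm hP.toWT T (α := 16 * (1 / 4 : ℝ) ^ J) (Λ := 520 * κ * J) (by positivity)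
    hΛ hAD hE hz hη0 a b a' b' f' g' hf' hg'
  have hNf : N τD f' ≤ N τD f := by
    have h7 := N_tens_exp T hE a b
    rw [← hf, ← hf'] at h7
    have h8 := N_nonneg T.trD (∑ i, iA (a i) * iP (b i - E (b i)))
    linarith
  have hNg : N τD g' ≤ N τD g := by
    have h7 := N_tens_exp T hE a' b'
    rw [← hg, ← hg'] at h7
    have h8 := N_nonneg T.trD (∑ i, iA (a' i) * iP (b' i - E (b' i)))
    linarith
  have hDf := N_sub_tens_exp T hA.faithful hP.faithful hE hEP a b f hf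
  have hDg := N_sub_tens_exp T hA.faithful hP.faithful hE hEP a' b' g hg
  rw [← hf'] at hDf
  rw [← hg'] at hDg
  have hSf : SA τD iA FA f' ≤ SA τD iA FA f := by
    unfold SA
    refine Finset.sum_le_sum fun u _ => ?_
    have h7 := comm_tens_exp T hE a b f hf u
    rw [← hf'] at h7
    exact add_le_add h7.1 h7.2
  have hSg : SA τD iA FA g' ≤ SA τD iA FA g := by
    unfold SA
    refine Finset.sum_le_sum fun u _ => ?_
    have h7 := comm_tens_exp T hE a' b' g hg u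
    rw [← hg'] at h7
    exact add_le_add h7.1 h7.2
  obtain ⟨Pf, hPf⟩ : ∃ Pf : ℝ, Pf = ∑ u ∈ FP, (N τD (cm f (iP u)) +
      N τD (cm (star f) (iP u))) := ⟨_, rfl⟩
  obtain ⟨Pg, hPg⟩ : ∃ Pg : ℝ, Pg = ∑ u ∈ FP, (N τD (cm g (iP u)) +
      N τD (cm (star g) (iP u))) := ⟨_, rfl⟩
  rw [← hPf] at hDf
  rw [← hPg] at hDg
  have hSSf : SS τD iA iP FA FP f = SA τD iA FA f + Pf := by
    rw [hPf]
    rfl
  have hSSg : SS τD iA iP FA FP g = SA τD iA FA g + Pg := by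
    rw [hPg]
    rfl
  have hPf0 : 0 ≤ Pf := by
    rw [hPf]
    exact Finset.sum_nonneg fun u _ => add_nonneg (N_nonneg T.trD _) (N_nonneg T.trD _)
  have hPg0 : 0 ≤ Pg := by
    rw [hPg]
    exact Finset.sum_nonneg fun u _ => add_nonneg (N_nonneg T.trD _) (N_nonneg T.trD _)
  have hAf0 : 0 ≤ SA τD iA FA f :=
    Finset.sum_nonneg fun u _ => add_nonneg (N_nonneg T.trD _) (N_nonneg T.trD _)
  have hAg0 : 0 ≤ SA τD iA FA g :=
    Finset.sum_nonneg fun u _ => add_nonneg (N_nonneg T.trD _) (N_nonneg T.trD _)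
  have hNf0 := N_nonneg T.trD f
  have hNg0 := N_nonneg T.trD g
  rw [hSSf, hSSg]
  obtain ⟨L, hL⟩ : ∃ L : ℝ, L = 2 * (520 * κ * J / η) := ⟨_, rfl⟩
  have hL0 : 0 ≤ L := by
    rw [hL]
    positivity
  rw [← hL] at h6 ⊢
  have h9 : 2 * (η + 16 * (1 / 4 : ℝ) ^ J / η) = 34 * η := by
    rw [h4]
    field_simp
    ring
  rw [h9] at h6
  have h10 : 34 * η * (N τD f' + N τD g') ≤ δ / 8 * (N τD f + N τD g) :=
    mul_le_mul hηδ (add_le_add hNf hNg) (add_nonneg (N_nonneg T.trD _) (N_nonneg T.trD _))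
      (by positivity)
  have h11 : L * (SA τD iA FA f' + SA τD iA FA g') ≤ L * (SA τD iA FA f + SA τD iA FA g) :=
    mul_le_mul_of_nonneg_left (add_le_add hSf hSg) hL0
  have h12 : min 1 (δ ^ 2 / 64) ≤ δ ^ 2 / 64 := min_le_right _ _
  have h13 : N τD (f - f') + N τD (g - g') ≤ δ ^ 2 / 64 * (N τD f + N τD g) + C' * (Pf + Pg) := by
    have h14 := mul_le_mul_of_nonneg_right h12 hNf0
    have h15 := mul_le_mul_of_nonneg_right h12 hNg0
    linarith
  have h16 : 1 / (δ / 4) * (N τD (f - f') + N τD (g - g')) ≤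
      δ / 16 * (N τD f + N τD g) + 4 / δ * C' * (Pf + Pg) := by
    have h17 : 1 / (δ / 4) = 4 / δ := by
      field_simp
    rw [h17]
    refine (mul_le_mul_of_nonneg_left h13 (by positivity)).trans (le_of_eq ?_)
    field_simp
    ring
  have h18 : δ / 4 * (N τD g + N τD f') ≤ δ / 4 * (N τD f + N τD g) := by
    refine mul_le_mul_of_nonneg_left ?_ (by positivity)
    linarith
  have h19 : 0 ≤ δ * (N τD f + N τD g) := by positivity
  have h20 : 0 ≤ L * (Pf + Pg) := by positivity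
  have h21 : 0 ≤ 4 / δ * C' * (SA τD iA FA f + SA τD iA FA g) := by positivity
  have h22 : (L + 4 / δ * C') * (SA τD iA FA f + Pf + (SA τD iA FA g + Pg)) =
      L * (SA τD iA FA f + SA τD iA FA g) + 4 / δ * C' * (Pf + Pg) + L * (Pf + Pg) +
        4 / δ * C' * (SA τD iA FA f + SA τD iA FA g) := by
    ring
  rw [h22]
  have h23 : δ / 8 * (N τD f + N τD g) + δ / 16 * (N τD f + N τD g) +
      δ / 4 * (N τD f + N τD g) ≤ δ * (N τD f + N τD g) := by
    nlinarith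
  linarith

end Pool.McT
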