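import Pool.Agent.McT.F.FinA

/-! The commutator estimate for all elements. -/

set_option autoImplicit false

namespace Pool.McT

open Filter Topology

variable {A P D : Type*} [CStarAlgebra A] [CStarAlgebra P] [CStarAlgebra D]
  {τA : A →ₗ[ℂ] ℂ} {τP : P →ₗ[ℂ] ℂ} {τD : D →ₗ[ℂ] ℂ} {iA : A →⋆ₐ[ℂ] D} {iP : P →⋆ₐ[ℂ] D}

/-- Density, as `sand_bound` (`tapp_DenseZ`, `tN_DenseZ`, `tSS_DenseZ`, `ttau_DenseZ`). -/
theorem fin_all (T : Tens τA τP τD iA iP) (hd : Dense2 τD iA iP) (hA : Fac τA) (hP : Fac τP)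
    (sA : Sep τA) (sP : Sep τP) (mA : ¬ McDuff τA) (hab : CentrAb τP) {δ : ℝ} (hδ : 0 < δ) :
    ∃ (FA : Finset A) (FP : Finset P) (C : ℝ), 0 ≤ C ∧ ∀ (f g z : D), ‖z‖ ≤ 1 →
      ‖τD ((f * g - g * f) * z)‖ ≤ δ * (N τD f + N τD g) +
        C * (SS τD iA iP FA FP f + SS τD iA iP FA FP g) := by
  obtain ⟨FA, FP, C, hC, h⟩ := fin_alg T hA hP sA sP mA hab hδ
  refine ⟨FA, FP, C, hC, fun f g z hz => ?_⟩
  obtain ⟨k, a, b, hf⟩ := tapp_DenseZ T.trD hd f
  obtain ⟨l, a', b', hg⟩ := tapp_DenseZ T.trD hd g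
  have hle := fun n => h (k n) (l n) (a n) (b n) (a' n) (b' n) _ _ z hz rfl rfl
  have hL : Filter.Tendsto (fun n => ‖τD (((∑ i, iA (a n i) * iP (b n i)) *
      (∑ i, iA (a' n i) * iP (b' n i)) - (∑ i, iA (a' n i) * iP (b' n i)) *
      (∑ i, iA (a n i) * iP (b n i))) * z)‖) Filter.atTop
      (nhds ‖τD ((f * g - g * f) * z)‖) := by
    have h1 := ttau_DenseZ T.trD hf (tmul_DenseZ T.trD hg z)
    have h2 := ttau_DenseZ T.trD hg (tmul_DenseZ T.trD hf z)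
    have h3 := (h1.sub h2).norm
    have e : ∀ p q r : D, τD (p * (q * r)) - τD (q * (p * r)) = τD ((p * q - q * p) * r) := by
      intro p q r
      rw [← map_sub]
      congr 1
      noncomm_ring
    simp only [e] at h3
    exact h3
  have hR := (((tN_DenseZ T.trD hf).add (tN_DenseZ T.trD hg)).const_mul δ).add
    (((tSS_DenseZ T.trD iA iP FA FP hf).add (tSS_DenseZ T.trD iA iP FA FP hg)).const_mul C)
  exact le_of_tendsto_of_tendsto' hL hR hle

end Pool.McT
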