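import Pool.Agent.McT.F.Stg
import Pool.Agent.McT.W.Exh

/-! The exhaustion. -/

set_option autoImplicit false

namespace Pool.McT

open Filter Topology

variable {P : Type*} [CStarAlgebra P] {τ : P →ₗ[ℂ] ℂ} {E : P →ₗ[ℂ] P}

private theorem grd_S_par (F : Finset P) (x y : P) :
    S τ F (x + y) + S τ F (x - y) = 2 * S τ F x + 2 * S τ F y := by
  unfold S
  rw [← Finset.sum_add_distrib, Finset.mul_sum, Finset.mul_sum, ← Finset.sum_add_distrib]
  refine Finset.sum_congr rfl fun u _ => ?_
  have e1 : ∀ a b : P, cm (a + b) u = cm a u + cm b u := by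
    intro a b
    unfold cm
    noncomm_ring
  have e2 : ∀ a b : P, cm (a - b) u = cm a u - cm b u := by
    intro a b
    unfold cm
    noncomm_ring
  rw [star_add, star_sub, e1, e1, e2, e2]
  have h1 := N_par (τ := τ) (cm x u) (cm y u)
  have h2 := N_par (τ := τ) (cm (star x) u) (cm (star y) u)
  linarith

private theorem grd_S_zero (F : Finset P) : S τ F (0 : P) = 0 := by
  unfold S
  refine Finset.sum_eq_zero fun u _ => ?_
  have h : cm (0 : P) u = 0 := by
    unfold cm
    rw [zero_mul, mul_zero, sub_zero]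
  rw [star_zero, h, N_zero, add_zero]

private theorem grd_lim_E (hτ : IsTr τ) (hE : AbExp τ E) {x : ℕ → P} {y : P}
    (h : Lim2 τ x y) : Lim2 τ (fun n => E (x n)) (E y) := by
  have h1 : Tendsto (fun n => N τ (x n - y)) atTop (𝓝 0) := h
  refine squeeze_zero (fun n => N_nonneg hτ _) (fun n => ?_) h1
  rw [← map_sub]
  exact hE.N_le hτ _

private theorem grd_S_sq (hτ : IsTr τ) (F : Finset P) {v : P} (hv : star v = v) (hn : ‖v‖ ≤ 1) :
    S τ F (1 - v * v) ≤ 4 * S τ F v := by
  unfold S
  rw [Finset.mul_sum]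
  refine Finset.sum_le_sum fun u _ => ?_
  have e1 : cm (1 - v * v) u = - cm (v * v) u := by
    unfold cm
    noncomm_ring
  have e2 : star (1 - v * v) = 1 - v * v := by
    rw [star_sub, star_one, star_mul, hv]
  rw [e2, e1, N_neg, hv]
  have h1 := N_cm_mul_le hτ hn hn u
  linarith

/-- The expression `Ψ x = N (x - E x) - K S x - θ N x` satisfies the parallelogram law, so
`max (Ψ (x + y)) (Ψ (x - y)) ≥ Ψ x + Ψ y`. -/
theorem psi_add (hτ : IsTr τ) (F : Finset P) (K θ : ℝ) (x y : P) :
    (N τ (x - E x) - K * S τ F x - θ * N τ x) + (N τ (y - E y) - K * S τ F y - θ * N τ y) ≤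
      max (N τ ((x + y) - E (x + y)) - K * S τ F (x + y) - θ * N τ (x + y))
        (N τ ((x - y) - E (x - y)) - K * S τ F (x - y) - θ * N τ (x - y)) := by
  have h1 := N_par (τ := τ) (x - E x) (y - E y)
  have e1 : (x + y) - E (x + y) = (x - E x) + (y - E y) := by
    rw [map_add]
    abel
  have e2 : (x - y) - E (x - y) = (x - E x) - (y - E y) := by
    rw [map_sub]
    abel
  have h2 := grd_S_par (τ := τ) F x y
  have h3 := N_par (τ := τ) x y
  rw [e1, e2]
  have h4 : ∀ a b c : ℝ, a + b = 2 * c → c ≤ max a b := by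
    intro a b c h
    rcases le_total a b with h5 | h5
    · exact le_max_of_le_right (by linarith)
    · exact le_max_of_le_left (by linarith)
  apply h4
  linear_combination h1 - K * h2 - θ * h3

/-- `exists_greedy` with `u₀ = 0`, `θ = δ / 100`; `Q u`: `star u = u`, `u * u * u = u`,
`θ N u + K S u ≤ N (u - E u)`; `P u w`: `star w = w`, `w * w * w = w`, `u * w = 0`, and
`θ N (u + w) + K S (u + w) ≤ N ((u + w) - E (u + w))`; `R u w`: `u * w = 0 ∧ w * u = 0`. (`‖u‖ ≤ 1`:
`u * u` is a projection, `IsPr.norm_le`; `R` descends: `(u + w) w' = 0` gives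
`u w' = u u (u + w) w' = 0`.) The limit `v` satisfies `Q` (`S`, `N`, `x ↦ N (x - E x)`
continuous for `Lim2`: `N (E x) ≤ N x`). Suppose `N v ≤ δ / 4000`. Put `q = 1 - v * v`:
projection, `τ q = 1 - N v`; `S q = S (v v) ≤ 4 S v` (`[v v, u] = v [v, u] + [v, u] v`),
`K S v ≤ N v ≤ δ/4000`. `stg` gives `e' ≤ q`, and with `psi_add` (`x = v`, `y = e'`,
`θ = δ/100`) `w' = e'` or `w' = - e'` satisfies
`θ N (v + w') + K S (v + w') < N ((v + w') - E (v + w'))`, strictly; `v w' = 0 = w' v`, so
`u n * w' = 0` for all `n` (`u n = u n * u n * v`), and for large `n` `P (u n) w'`, so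
`N w' ≤ 2 N (w n) → 0`, `e' = 0`: contradiction. -/
theorem grd (hF : Fac τ) (hE : AbExp τ E) {δ K : ℝ} (hδ : 0 < δ) (hδ1 : δ ≤ 1) (hK : 0 < K)
    (hbad : ∀ (F : Finset P) (K' : ℝ), 0 ≤ K' → ∃ e : P, IsPr e ∧ e ≠ 0 ∧
      δ / 16 * N τ e + K' * S τ F e < N τ (e - E e)) (F : Finset P) :
    ∃ v : P, ‖v‖ ≤ 1 ∧ δ / 4000 < N τ v ∧
      δ / 100 * N τ v + K * S τ F v ≤ N τ (v - E v) := by
  have hW : WT τ := hF.toWT
  have hτ : IsTr τ := hW.tr
  let R : P → P → Prop := fun u w => star u * w = 0 ∧ w * star u = 0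
  let Q : P → Prop := fun u => star u = u ∧ u * u * u = u ∧
    δ / 100 * N τ u + K * S τ F u ≤ N τ (u - E u)
  let PP : P → P → Prop := fun u w => star w = w ∧ w * w * w = w ∧ u * w = 0 ∧
    δ / 100 * N τ (u + w) + K * S τ F (u + w) ≤ N τ ((u + w) - E (u + w))
  have hwu : ∀ u w : P, star u = u → star w = w → u * w = 0 → w * u = 0 := by
    intro u w hu hw h
    have h1 := congrArg star h
    rwa [star_mul, hu, hw, star_zero] at h1
  have hnorm : ∀ u : P, star u = u → u * u * u = u → ‖u‖ ≤ 1 := by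
    intro u hu hu3
    have h1 : IsPr (u * u) := by
      refine ⟨by rw [star_mul, hu], ?_⟩
      rw [← mul_assoc, hu3]
    have h2 := h1.norm_le
    have h3 : ‖star u * u‖ = ‖u‖ * ‖u‖ := CStarRing.norm_star_mul_self
    rw [hu] at h3
    rw [h3] at h2
    by_contra hlt
    rw [not_le] at hlt
    nlinarith
  obtain ⟨u, w, hu0, hQ, hP, hstep, hmax, hRnm, hw0, v, hv, hv1⟩ :=
    exists_greedy hW PP R Q 0
      ⟨star_zero _, by rw [mul_zero], by
        rw [grd_S_zero, N_zero, map_zero, sub_zero, N_zero, mul_zero, mul_zero, add_zero]⟩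
      (fun u hu => ⟨star_zero _, by rw [mul_zero], mul_zero _, by
        rw [add_zero]
        exact hu.2.2⟩)
      (fun u w hu hw => by
        have h1 := hwu u w hu.1 hw.1 hw.2.2.1
        refine ⟨by rw [star_add, hu.1, hw.1], ?_, hw.2.2.2⟩
        have e1 : (u + w) * (u + w) = u * u + w * w := by
          rw [add_mul, mul_add, mul_add, hw.2.2.1, h1, add_zero, zero_add]
        rw [e1, add_mul, mul_add, mul_add, hu.2.1, hw.2.1, mul_assoc u u w, hw.2.2.1,
          mul_assoc w w u, h1, mul_zero, mul_zero, add_zero, zero_add])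
      (fun u hu => hnorm u hu.1 hu.2.1)
      (fun u w hu hw => by
        have h1 := hwu u w hu.1 hw.1 hw.2.2.1
        refine ⟨?_, ?_⟩
        · rw [hu.1]
          exact hw.2.2.1
        · rw [hu.1]
          exact h1)
      (fun u w w' hu hw h => by
        have h1 := hwu u w hu.1 hw.1 hw.2.2.1
        have h2 : (u + w) * w' = 0 := by
          have := h.1
          rwa [star_add, hu.1, hw.1] at this
        have h3 : w' * (u + w) = 0 := by
          have := h.2
          rwa [star_add, hu.1, hw.1] at this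
        have e1 : u * u * (u + w) = u := by
          rw [mul_add, hu.2.1, mul_assoc, hw.2.2.1, mul_zero, add_zero]
        have e2 : (u + w) * (u * u) = u := by
          rw [add_mul, ← mul_assoc, hu.2.1, ← mul_assoc, h1, zero_mul, add_zero]
        refine ⟨?_, ?_⟩
        · rw [hu.1]
          calc u * w' = u * u * (u + w) * w' := by rw [e1]
            _ = u * u * ((u + w) * w') := by rw [mul_assoc]
            _ = 0 := by rw [h2, mul_zero]
        · rw [hu.1]
          calc w' * u = w' * ((u + w) * (u * u)) := by rw [e2]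
            _ = w' * (u + w) * (u * u) := by rw [mul_assoc]
            _ = 0 := by rw [h3, zero_mul])
      (fun u w h => h.1)
  have hun : ∀ n, ‖u n‖ ≤ 1 := fun n => hnorm _ (hQ n).1 (hQ n).2.1
  -- the limit
  have hvs : star v = v := by
    have h1 := hv.star hW
    have h2 : (fun n => star (u n)) = u := funext fun n => (hQ n).1
    rw [h2] at h1
    exact h1.unique hW hv
  have hv3 : v * v * v = v := by
    have h1 : Lim2 τ (fun n => u n * u n) (v * v) := hv.mul hW hv hun
    have h2 : Lim2 τ (fun n => u n * u n * u n) (v * v * v) :=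
      h1.mul hW hv (C := 1) (fun n => by
        refine (norm_mul_le _ _).trans ?_
        exact mul_le_one₀ (hun n) (norm_nonneg _) (hun n))
    have h3 : (fun n => u n * u n * u n) = u := funext fun n => (hQ n).2.1
    rw [h3] at h2
    exact h2.unique hW hv
  have hsubE : ∀ {x : ℕ → P} {y : P}, Lim2 τ x y →
      Tendsto (fun n => N τ (x n - E (x n))) atTop (𝓝 (N τ (y - E y))) := by
    intro x y h
    exact (h.sub hW (grd_lim_E hτ hE h)).tendsto_N hW
  have hlhs : ∀ {x : ℕ → P} {y : P}, Lim2 τ x y →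
      Tendsto (fun n => δ / 100 * N τ (x n) + K * S τ F (x n)) atTop
        (𝓝 (δ / 100 * N τ y + K * S τ F y)) := by
    intro x y h
    exact ((h.tendsto_N hW).const_mul _).add ((h.tendsto_S hW F).const_mul _)
  have hvQ : δ / 100 * N τ v + K * S τ F v ≤ N τ (v - E v) :=
    le_of_tendsto_of_tendsto' (hlhs hv) (hsubE hv) fun n => (hQ n).2.2
  refine ⟨v, hv1, ?_, hvQ⟩
  by_contra hN
  rw [not_lt] at hN
  have hNv := N_nonneg hτ v
  -- the complement
  have hq : IsPr (1 - v * v) := by
    refine ⟨by rw [star_sub, star_one, star_mul, hvs], ?_⟩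
    have h1 : v * v * (v * v) = v * v := by rw [← mul_assoc, hv3]
    rw [mul_sub, sub_mul, sub_mul, one_mul, one_mul, mul_one, h1, sub_self, sub_zero]
  have hτq : 1 - δ / 4000 ≤ (τ (1 - v * v)).re := by
    have h1 : N τ v = (τ (v * v)).re := by
      unfold N
      rw [hvs]
    rw [map_sub, hW.one, Complex.sub_re, Complex.one_re, ← h1]
    linarith
  have hKS : K * S τ F v ≤ δ / 4000 := by
    have h1 := hE.N_sub_le hτ v
    have h2 : 0 ≤ δ / 100 * N τ v := by positivity
    linarith
  have hSq : K * S τ F (1 - v * v) ≤ δ / 1000 := by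
    have h1 := mul_le_mul_of_nonneg_left (grd_S_sq hτ F hvs hv1) hK.le
    linarith
  obtain ⟨e', he', he0, hqe, heq, hlt⟩ := stg hF hE hδ hδ1 hK hbad F hq hτq hSq
  have hve : v * e' = 0 := by
    have h1 : v * ((1 - v * v) * e') = 0 := by
      rw [← mul_assoc, mul_sub, mul_one, ← mul_assoc, hv3, sub_self, zero_mul]
    rwa [hqe] at h1
  -- the sign
  obtain ⟨w', hw's, hw'3, hvw', hNw', hw'lt⟩ : ∃ w' : P, star w' = w' ∧ w' * w' * w' = w' ∧
      v * w' = 0 ∧ N τ w' = N τ e' ∧
      δ / 100 * N τ (v + w') + K * S τ F (v + w') < N τ ((v + w') - E (v + w')) := by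
    have h1 := psi_add (E := E) hτ F K (δ / 100) v e'
    have h2 : 0 < max (N τ ((v + e') - E (v + e')) - K * S τ F (v + e') -
        δ / 100 * N τ (v + e'))
        (N τ ((v - e') - E (v - e')) - K * S τ F (v - e') - δ / 100 * N τ (v - e')) := by
      refine lt_of_lt_of_le ?_ h1
      linarith
    rcases lt_max_iff.1 h2 with h3 | h3
    · exact ⟨e', he'.1, by rw [he'.2, he'.2], hve, rfl, by linarith⟩
    · refine ⟨-e', by rw [star_neg, he'.1], ?_, by rw [mul_neg, hve, neg_zero], N_neg _, ?_⟩
      · rw [neg_mul_neg, he'.2, mul_neg, he'.2]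
      · rw [← sub_eq_add_neg]
        linarith
  have hunw : ∀ n m, n ≤ m → u n * (u m - u n) = 0 := by
    intro n m hnm
    induction m, hnm using Nat.le_induction with
    | base => rw [sub_self, mul_zero]
    | succ m hm ih =>
      have e : u (m + 1) - u n = (u m - u n) + w m := by
        rw [hstep m]
        abel
      have h1 := (hRnm n m hm).1
      rw [(hQ n).1] at h1
      rw [e, mul_add, ih, h1, add_zero]
  have hunv : ∀ n, u n * v = u n * u n := by
    intro n
    have h1 : Lim2 τ (fun m => u n * u m) (u n * v) := hv.mul_left hW _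
    have h2 : Lim2 τ (fun m => u n * u m) (u n * u n) := by
      refine tendsto_const_nhds.congr' ?_
      filter_upwards [eventually_ge_atTop n] with m hm
      have h3 := hunw n m hm
      rw [mul_sub, sub_eq_zero] at h3
      rw [h3, sub_self, N_zero]
    exact h1.unique hW h2
  have hunw' : ∀ n, u n * w' = 0 := by
    intro n
    calc u n * w' = u n * u n * u n * w' := by rw [(hQ n).2.1]
      _ = u n * (u n * v) * w' := by rw [hunv, mul_assoc (u n) (u n) (u n)]
      _ = u n * u n * (v * w') := by noncomm_ring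
      _ = 0 := by rw [hvw', mul_zero]
  have hlim : Lim2 τ (fun n => u n + w') (v + w') := hv.add hW (Lim2.const w')
  have hev : ∀ᶠ n in atTop, δ / 100 * N τ (u n + w') + K * S τ F (u n + w') <
      N τ ((u n + w') - E (u n + w')) :=
    (hlhs hlim).eventually_lt (hsubE hlim) hw'lt
  have hNy : N τ w' ≤ 0 := by
    have h1 : Tendsto (fun n => 2 * N τ (w n)) atTop (𝓝 0) := by
      simpa using hw0.const_mul 2
    refine ge_of_tendsto h1 ?_
    filter_upwards [hev] with n hn
    exact hmax n w' ⟨hw's, hw'3, hunw' n, hn.le⟩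
  rw [hNw'] at hNy
  exact he0 (hW.faithful e' (le_antisymm hNy (N_nonneg hτ e')))

end Pool.McT
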