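import Pool.Agent.McT.F.Exp
import Pool.Agent.McT.W.Crit

/-! From central sequences to finite sets. -/

set_option autoImplicit false

namespace Pool.McT

open Filter Topology

variable {P : Type*} [CStarAlgebra P] {τ : P →ₗ[ℂ] ℂ} {E : P →ₗ[ℂ] P}

private theorem unif_cm_le (hτ : IsTr τ) {v : P} (hv : ‖v‖ ≤ 1) (b : P) :
    N τ (cm v b) ≤ 4 * N τ b := by
  have h1 : cm v b = v * b + -(b * v) := by
    unfold cm
    abel
  rw [h1]
  have h2 := N_add_le hτ (v * b) (-(b * v))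
  rw [N_neg] at h2
  have h3 := N_mul_le_left hτ v b
  have h4 := N_mul_le_right hτ b v
  have h5 : ‖v‖ ^ 2 ≤ 1 := pow_le_one₀ (norm_nonneg _) hv
  have h6 := mul_le_of_le_one_left (N_nonneg hτ b) h5
  linarith

private theorem unif_central (hτ : IsTr τ) {d : ℕ → P}
    (hd : ∀ x : P, ∀ ε : ℝ, 0 < ε → ∃ n, N τ (x - d n) ≤ ε) {v : ℕ → P} (hv : ∀ n, ‖v n‖ ≤ 1)
    (h : ∀ m n, m ≤ n → N τ (cm (v n) (d m)) ≤ 1 / ((n : ℝ) + 1)) : CentralSeq τ v := by
  refine ⟨⟨1, hv⟩, fun a => ?_⟩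
  rw [Metric.tendsto_atTop]
  intro ε hε
  obtain ⟨m, hm⟩ := hd a (ε / 16) (by positivity)
  obtain ⟨n₀, hn₀⟩ := exists_nat_one_div_lt (show (0 : ℝ) < ε / 8 by positivity)
  refine ⟨max m n₀, fun n hn => ?_⟩
  have h1 : cm (v n) a = cm (v n) (a - d m) + cm (v n) (d m) := by
    unfold cm
    noncomm_ring
  have h2 := N_add_le hτ (cm (v n) (a - d m)) (cm (v n) (d m))
  rw [← h1] at h2
  have h3 := unif_cm_le hτ (hv n) (a - d m)
  have h4 := h m n (le_trans (le_max_left _ _) hn)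
  have h6 : n₀ ≤ n := le_trans (le_max_right _ _) hn
  have h7 : (n₀ : ℝ) ≤ n := by exact_mod_cast h6
  have h5 : 1 / ((n : ℝ) + 1) ≤ 1 / ((n₀ : ℝ) + 1) :=
    one_div_le_one_div_of_le (by positivity) (by linarith)
  rw [Real.dist_eq, sub_zero, abs_of_nonneg (N_nonneg hτ _)]
  linarith

/-- As `mcduff_of_not_NM`: `d n` from `Sep`; if for all `n` there is `x n` in the unit ball with
`S τ {d 0, …, d n} (x n) ≤ 1 / (n + 1)` and `N (x n - E (x n)) > δ'`, then `x n` is a central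
sequence (`N [x, a] ≤ 2 N [x, d k] + 8 N (a - d k)` for `‖x‖ ≤ 1`), against
`∀ᶠ n, N (x n - E (x n)) ≤ δ'`. -/
theorem unif_of_seq (hτ : IsTr τ) (hs : Sep τ) {δ' : ℝ}
    (h : ∀ x : ℕ → P, CentralSeq τ x → (∀ n, ‖x n‖ ≤ 1) →
      ∀ᶠ n in atTop, N τ (x n - E (x n)) ≤ δ') :
    ∃ (F : Finset P) (ε : ℝ), 0 < ε ∧ ∀ x : P, ‖x‖ ≤ 1 → S τ F x ≤ ε →
      N τ (x - E x) ≤ δ' := by
  classical
  obtain ⟨d, hd⟩ := hs
  by_contra hcon
  push Not at hcon
  have hex : ∀ n : ℕ, ∃ x : P, ‖x‖ ≤ 1 ∧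
      S τ ((Finset.range (n + 1)).image d) x ≤ 1 / ((n : ℝ) + 1) ∧ δ' < N τ (x - E x) := fun n =>
    hcon ((Finset.range (n + 1)).image d) (1 / ((n : ℝ) + 1)) (by positivity)
  choose x hx1 hx2 hx3 using hex
  have hc : CentralSeq τ x := by
    refine unif_central hτ hd hx1 fun m n hmn => ?_
    have h1 : N τ (cm (x n) (d m)) + N τ (cm (star (x n)) (d m)) ≤
        S τ ((Finset.range (n + 1)).image d) (x n) := by
      unfold S
      refine Finset.single_le_sum (f := fun u => N τ (cm (x n) u) + N τ (cm (star (x n)) u))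
        (fun u _ => add_nonneg (N_nonneg hτ _) (N_nonneg hτ _)) ?_
      exact Finset.mem_image_of_mem d (Finset.mem_range.2 (Nat.lt_succ_of_le hmn))
    have h2 := N_nonneg hτ (cm (star (x n)) (d m))
    have h3 := hx2 n
    linarith
  obtain ⟨n, hn⟩ := (h x hc hx1).exists
  exact absurd hn (not_le.2 (hx3 n))

end Pool.McT
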