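import Pool.Agent.McT.F.Lev
import Pool.Agent.McT.F.Grd
import Pool.Agent.McT.F.Unif

/-! The inequality for all elements (2-norm version). -/

set_option autoImplicit false

namespace Pool.McT

open Filter Topology

variable {P : Type*} [CStarAlgebra P] {τ : P →ₗ[ℂ] ℂ} {E : P →ₗ[ℂ] P}

/-- By contradiction: if for every `F` and `C ≥ 0` some `x` violates the inequality, then
`exists_bad_pr` gives `hbad` of `grd`; take `F = F₀`, `K = 1 / ε`: `K S v ≤ N (v - E v) ≤ N v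
≤ 1`, so `S v ≤ ε`, but `N (v - E v) ≥ δ/100 δ/4000 > δ² / 500000`. -/
theorem l_two (hF : Fac τ) (hE : AbExp τ E) {δ ε : ℝ} (hδ : 0 < δ) (hδ1 : δ ≤ 1) (hε : 0 < ε)
    (F₀ : Finset P) (h : ∀ x : P, ‖x‖ ≤ 1 → S τ F₀ x ≤ ε → N τ (x - E x) ≤ δ ^ 2 / 500000) :
    ∃ (F : Finset P) (C : ℝ), 0 ≤ C ∧ ∀ x : P, N τ (x - E x) ≤ δ * N τ x + C * S τ F x := by
  by_contra hcon
  push Not at hcon
  have hτ : IsTr τ := hF.toWT.tr
  have hbad : ∀ (F : Finset P) (K' : ℝ), 0 ≤ K' → ∃ e : P, IsPr e ∧ e ≠ 0 ∧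
      δ / 16 * N τ e + K' * S τ F e < N τ (e - E e) := by
    intro F K' hK'
    obtain ⟨C, hC, H⟩ := exists_bad_pr hF.toWT hE hδ hδ1 hK' F
    obtain ⟨x, hx⟩ := hcon F C hC
    exact H x hx
  obtain ⟨v, hv, hNv, hKv⟩ := grd hF hE hδ hδ1 (K := 1 / ε) (by positivity) hbad F₀
  have hS : 0 ≤ S τ F₀ v :=
    Finset.sum_nonneg fun u _ => add_nonneg (N_nonneg hτ _) (N_nonneg hτ _)
  have hN1 : N τ (1 : P) = 1 := by
    unfold N
    rw [star_one, one_mul, hF.toWT.one, Complex.one_re]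
  have hNv1 : N τ v ≤ 1 := by
    have h1 := N_mul_le_left hτ v 1
    rw [mul_one, hN1, mul_one] at h1
    refine h1.trans ?_
    nlinarith [norm_nonneg v]
  have hle := hE.N_sub_le hτ v
  have hNv0 := N_nonneg hτ v
  have hS1 : S τ F₀ v ≤ ε := by
    have h1 : 1 / ε * S τ F₀ v ≤ 1 := by
      have h2 : 0 ≤ δ / 100 * N τ v := by positivity
      linarith
    rw [one_div, inv_mul_le_iff₀ hε, mul_one] at h1
    exact h1
  have h3 := h v hv hS1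
  have h4 : 0 ≤ 1 / ε * S τ F₀ v := by positivity
  nlinarith [mul_lt_mul_of_pos_left hNv (show (0 : ℝ) < δ / 100 by positivity), sq_nonneg δ,
    mul_pos hδ hδ]

theorem centrAb_l_two (hF : Fac τ) (hs : Sep τ) (h : CentrAb τ) {δ : ℝ} (hδ : 0 < δ)
    (hδ1 : δ ≤ 1) :
    ∃ E : P →ₗ[ℂ] P, AbExp τ E ∧ ∃ (F : Finset P) (C : ℝ), 0 ≤ C ∧
      ∀ x : P, N τ (x - E x) ≤ δ * N τ x + C * S τ F x := by
  obtain ⟨E, hE, h1⟩ := h (δ ^ 2 / 500000) (by positivity)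
  obtain ⟨F₀, ε, hε, h2⟩ := unif_of_seq hF.tr hs h1
  exact ⟨E, hE, l_two hF hE hδ hδ1 hε F₀ h2⟩

end Pool.McT
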