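import Pool.Agent.McT.F.LevL

/-! Level sets: approximation by a step function. -/

set_option autoImplicit false

namespace Pool.McT

open Filter Topology

variable {P : Type*} [CStarAlgebra P] {τ : P →ₗ[ℂ] ℂ} {E : P →ₗ[ℂ] P}

private theorem LevA_Ico (a : ℤ) (n : ℕ) :
    Finset.Ico a (a + ((n + 1 : ℕ) : ℤ)) = insert (a + (n : ℤ)) (Finset.Ico a (a + (n : ℤ))) := by
  ext i
  rw [Finset.mem_insert, Finset.mem_Ico, Finset.mem_Ico]
  push_cast
  omega

private theorem LevA_sum {β : Type*} [AddCommMonoid β] (a : ℤ) (n : ℕ) (g : ℤ → β) :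
    ∑ i ∈ Finset.Ico a (a + ((n + 1 : ℕ) : ℤ)), g i =
      g (a + (n : ℤ)) + ∑ i ∈ Finset.Ico a (a + (n : ℤ)), g i := by
  rw [LevA_Ico, Finset.sum_insert (by simp)]

private theorem LevA_oddr {t w s : ℝ} (ht : 0 < t) (hw : 0 < w) (hs : 0 ≤ s) :
    oddr t w s = min 1 (max 0 ((s - t) / w)) := by
  unfold oddr
  have h1 : (-s - t) / w ≤ 0 := div_nonpos_of_nonpos_of_nonneg (by linarith) hw.le
  rw [max_eq_left h1, min_eq_right zero_le_one, sub_zero]

private theorem LevA_zero {t w s : ℝ} (ht : 0 < t) (hw : 0 < w) (hs : 0 ≤ s) (h : s ≤ t) :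
    oddr t w s = 0 := by
  rw [LevA_oddr ht hw hs]
  have h1 : (s - t) / w ≤ 0 := div_nonpos_of_nonpos_of_nonneg (by linarith) hw.le
  rw [max_eq_left h1, min_eq_right zero_le_one]

private theorem LevA_one {t w s : ℝ} (ht : 0 < t) (hw : 0 < w) (hs : 0 ≤ s) (h : t + w ≤ s) :
    oddr t w s = 1 := by
  rw [LevA_oddr ht hw hs]
  have h1 : 1 ≤ (s - t) / w := by
    rw [le_div_iff₀ hw]
    linarith
  exact min_eq_left (h1.trans (le_max_right _ _))

private theorem LevA_w {η : ℝ} (hη : 0 < η) (i : ℤ) (M : ℕ) :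
    0 < η * qq η i / ((M : ℝ) + 1) ∧ η * qq η i / ((M : ℝ) + 1) ≤ η * qq η i := by
  have h := qq_pos hη i
  refine ⟨by positivity, div_le_self (by positivity) ?_⟩
  have : (0 : ℝ) ≤ M := Nat.cast_nonneg M
  linarith

/-- the partial sums of the step function -/
private theorem LevA_partial {η : ℝ} (hη : 0 < η) (M : ℕ) (a : ℤ) {s : ℝ}
    (hs : 0 ≤ s) (n : ℕ) :
    (qq η (a + (n : ℤ)) ≤ s → ∑ i ∈ Finset.Ico a (a + (n : ℤ)),
      (qq η (i + 1) - qq η i) * oddr (qq η i) (η * qq η i / (M + 1)) s =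
        qq η (a + (n : ℤ)) - qq η a) ∧
    (s ≤ qq η (a + (n : ℤ)) →
      s - η * s - qq η a ≤ ∑ i ∈ Finset.Ico a (a + (n : ℤ)),
        (qq η (i + 1) - qq η i) * oddr (qq η i) (η * qq η i / (M + 1)) s ∧
      ∑ i ∈ Finset.Ico a (a + (n : ℤ)),
        (qq η (i + 1) - qq η i) * oddr (qq η i) (η * qq η i / (M + 1)) s ≤ s + η * s) := by
  induction n with
  | zero =>
    have h0 := mul_nonneg hη.le hs
    simp only [Nat.cast_zero, add_zero, Finset.Ico_self, Finset.sum_empty, sub_self]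
    refine ⟨fun _ => trivial, fun h => ⟨by linarith, by linarith⟩⟩
  | succ n ih =>
    obtain ⟨ih1, ih2⟩ := ih
    have hk : a + ((n + 1 : ℕ) : ℤ) = a + (n : ℤ) + 1 := by push_cast; ring
    have hq := qq_pos hη (a + (n : ℤ))
    have hq1 := qq_succ hη (a + (n : ℤ))
    obtain ⟨hw, hw'⟩ := LevA_w hη (a + (n : ℤ)) M
    rw [LevA_sum, hk]
    constructor
    · intro h
      have h1 : qq η (a + (n : ℤ)) ≤ s := by
        have := mul_pos hη hq
        linarith
      rw [ih1 h1, LevA_one hq hw hs (by linarith)]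
      ring
    · intro h
      rcases le_total s (qq η (a + (n : ℤ))) with h1 | h1
      · rw [LevA_zero hq hw hs h1, mul_zero, zero_add]
        exact ih2 h1
      · rw [ih1 h1]
        have h2 : 0 ≤ oddr (qq η (a + (n : ℤ))) (η * qq η (a + (n : ℤ)) / (M + 1)) s := by
          rw [LevA_oddr hq hw hs]
          exact le_min zero_le_one (le_max_left _ _)
        have h3 : oddr (qq η (a + (n : ℤ))) (η * qq η (a + (n : ℤ)) / (M + 1)) s ≤ 1 := by
          rw [LevA_oddr hq hw hs]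
          exact min_le_left _ _
        have h4 : qq η (a + (n : ℤ) + 1) - qq η (a + (n : ℤ)) = η * qq η (a + (n : ℤ)) := by
          linarith
        rw [h4]
        have h5 := mul_pos hη hq
        have h6 := mul_nonneg h5.le h2
        have h7 := mul_le_mul_of_nonneg_left h3 h5.le
        have h8 := mul_le_mul_of_nonneg_left h1 hη.le
        rw [hq1] at h
        have h9 := mul_le_mul_of_nonneg_left h hη.le
        have h10 := qq_pos hη a
        constructor
        · nlinarith [mul_pos hη h5, mul_nonneg hη.le (sub_nonneg.2 h1)]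
        · linarith

private theorem LevA_smul (hW : WT τ) (c : ℂ) {x : ℕ → P} {y : P} (h : Lim2 τ x y) :
    Lim2 τ (fun n => c • x n) (c • y) := by
  have h1 := Lim2.mul_left hW (c • (1 : P)) h
  simpa only [smul_mul_assoc, one_mul] using h1

private theorem LevA_sumlim (hW : WT τ) (I : Finset ℤ) (f : ℤ → ℕ → P) (g : ℤ → P)
    (h : ∀ i, Lim2 τ (f i) (g i)) : Lim2 τ (fun n => ∑ i ∈ I, f i n) (∑ i ∈ I, g i) := by
  classical
  induction I using Finset.induction_on with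
  | empty => simpa using Lim2.const (τ := τ) (0 : P)
  | insert a s ha ih =>
    rw [Finset.sum_insert ha]
    simp only [Finset.sum_insert ha]
    exact Lim2.add hW (h a) ih

private theorem LevA_tau (hτ : IsTr τ) {a : P} {k : ℝ → ℝ} (hk : Continuous k)
    (h0 : ∀ s ∈ spectrum ℝ a, 0 ≤ k s) : 0 ≤ (τ (cfc k a)).re := by
  have h1 : cfc k a = star (cfc (fun s => Real.sqrt (k s)) a) *
      cfc (fun s => Real.sqrt (k s)) a := by
    have hs : Continuous fun s => Real.sqrt (k s) := by fun_prop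
    rw [← cfc_star, ← cfc_mul (fun s => star (Real.sqrt (k s))) (fun s => Real.sqrt (k s)) a
      hs.star.continuousOn hs.continuousOn]
    refine cfc_congr fun s hs => ?_
    show k s = star (Real.sqrt (k s)) * Real.sqrt (k s)
    rw [star_trivial, Real.mul_self_sqrt (h0 s hs)]
  rw [h1]
  exact hτ.nonneg _

private theorem LevA_N (hτ : IsTr τ) (h1 : τ 1 = 1) {a : P} (ha : IsSelfAdjoint a) {g : ℝ → ℝ}
    (hg : Continuous g) {A B : ℝ}
    (h0 : ∀ s ∈ spectrum ℝ a, (s - g s) ^ 2 ≤ A * s ^ 2 + B) :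
    N τ (a - cfc g a) ≤ A * N τ a + B := by
  have hc : Continuous fun s : ℝ => s - g s := continuous_id.sub hg
  have e1 : a - cfc g a = cfc (fun s => s - g s) a := by
    rw [cfc_sub (fun s => s) g a continuous_id.continuousOn hg.continuousOn, cfc_id' ℝ a ha]
  have e2 : star (cfc (fun s => s - g s) a) = cfc (fun s => s - g s) a :=
    (cfc_predicate (fun s => s - g s) a : IsSelfAdjoint _)
  have e3 : N τ (a - cfc g a) = (τ (cfc (fun s => (s - g s) ^ 2) a)).re := by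
    unfold N
    rw [e1, e2, cfc_pow (fun s => s - g s) 2 a hc.continuousOn ha, sq]
  have e4 : cfc (fun s : ℝ => A * s ^ 2 + B) a = ((A : ℝ) : ℂ) • (a * a) + ((B : ℝ) : ℂ) • 1 := by
    rw [cfc_add (a := a) (f := fun s : ℝ => A * s ^ 2) (g := fun _ => B)
      (by fun_prop) (by fun_prop), cfc_const_mul A (fun s : ℝ => s ^ 2) a (by fun_prop),
      cfc_pow_id a 2 ha, cfc_const B a ha, sq, Algebra.algebraMap_eq_smul_one]
    rw [Complex.coe_smul, Complex.coe_smul]
  have e5 : (τ (cfc (fun s : ℝ => A * s ^ 2 + B) a)).re = A * N τ a + B := by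
    rw [e4, map_add, map_smul, map_smul, h1, Complex.add_re, smul_eq_mul, smul_eq_mul,
      Complex.re_ofReal_mul, Complex.re_ofReal_mul, Complex.one_re, mul_one]
    unfold N
    rw [ha.star_eq]
  have e6 := LevA_tau hτ (a := a) (k := fun s => (A * s ^ 2 + B) - (s - g s) ^ 2)
    (by fun_prop) (fun s hs => sub_nonneg.2 (h0 s hs))
  rw [cfc_sub (fun s => A * s ^ 2 + B) (fun s => (s - g s) ^ 2) a (by fun_prop)
    (hc.pow 2).continuousOn, map_sub, Complex.sub_re, e5] at e6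
  rw [e3]
  linarith

/-- `g_M s = ∑ (qq η (i+1) - qq η i) oddr (qq η i) (η * qq η i / (M+1)) s` satisfies
`|s - g_M s| ≤ η s + qq η (-m)` for `0 ≤ s ≤ qq η m`: for `qq η k ≤ s ≤ qq η (k+1)` the value
lies between `qq η k - qq η (-m)` and `qq η (k+1) - qq η (-m)` (telescoping), for
`s ≤ qq η (-m)` it is `0`. So `N (a - cfc g_M a) ≤ 2 η² N a + 2 (qq η (-m))²` (`τ 1 = 1`), then
`M → ∞` with `lim_oddr`. -/
theorem lev_approx (hW : WT τ) {η : ℝ} (hη : 0 < η) (hη8 : η ≤ 1 / 8) {a : P}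
    (ha : IsSelfAdjoint a) (hp : ∀ s ∈ spectrum ℝ a, 0 ≤ s) {m : ℕ} (hm : ‖a‖ ≤ qq η m)
    (e : ℤ → P) (he : ∀ i, IsSpec τ a (qq η i) (e i)) :
    N τ (a - ∑ i ∈ Finset.Icc (-(m : ℤ)) m, ((qq η (i + 1) - qq η i : ℝ) : ℂ) • e i) ≤
      2 * η ^ 2 * N τ a + 2 * (qq η (-m)) ^ 2 := by
  have hI : Finset.Icc (-(m : ℤ)) m =
      Finset.Ico (-(m : ℤ)) (-(m : ℤ) + ((2 * m + 1 : ℕ) : ℤ)) := by
    ext i
    rw [Finset.mem_Icc, Finset.mem_Ico]
    push_cast
    omega
  have hcont : ∀ (i : ℤ) (M : ℕ), Continuous (oddr (qq η i) (η * qq η i / (M + 1))) :=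
    fun i M => continuous_oddr _ (LevA_w hη i M).1
  -- the limit
  have hlim : Lim2 τ (fun M : ℕ => ∑ i ∈ Finset.Icc (-(m : ℤ)) m,
      ((qq η (i + 1) - qq η i : ℝ) : ℂ) • cfc (oddr (qq η i) (η * qq η i / (M + 1))) a)
      (∑ i ∈ Finset.Icc (-(m : ℤ)) m, ((qq η (i + 1) - qq η i : ℝ) : ℂ) • e i) :=
    LevA_sumlim hW _ _ _ fun i => LevA_smul hW _
      (lim_oddr hW ha hp (qq_pos hη i) (mul_pos hη (qq_pos hη i)) (he i))
  have hlim2 := Lim2.tendsto_N hW (Lim2.sub hW (Lim2.const (τ := τ) a) hlim)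
  refine le_of_tendsto hlim2 (Eventually.of_forall fun M => ?_)
  -- the sum as a function of `a`
  have hg : Continuous fun s : ℝ => ∑ i ∈ Finset.Icc (-(m : ℤ)) m,
      (qq η (i + 1) - qq η i) * oddr (qq η i) (η * qq η i / (M + 1)) s :=
    continuous_finsetSum _ fun i _ => continuous_const.mul (hcont i M)
  have hsum : ∑ i ∈ Finset.Icc (-(m : ℤ)) m,
      ((qq η (i + 1) - qq η i : ℝ) : ℂ) • cfc (oddr (qq η i) (η * qq η i / (M + 1))) a =
      cfc (fun s : ℝ => ∑ i ∈ Finset.Icc (-(m : ℤ)) m,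
        (qq η (i + 1) - qq η i) * oddr (qq η i) (η * qq η i / (M + 1)) s) a := by
    have h1 := cfc_sum (a := a) (f := fun (i : ℤ) (s : ℝ) => (qq η (i + 1) - qq η i) *
      oddr (qq η i) (η * qq η i / (M + 1)) s) (s := Finset.Icc (-(m : ℤ)) m)
      (fun i _ => (continuous_const.mul (hcont i M)).continuousOn)
    have h2 : (∑ i ∈ Finset.Icc (-(m : ℤ)) m, fun s : ℝ => (qq η (i + 1) - qq η i) *
      oddr (qq η i) (η * qq η i / (M + 1)) s) = fun s : ℝ => ∑ i ∈ Finset.Icc (-(m : ℤ)) m,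
        (qq η (i + 1) - qq η i) * oddr (qq η i) (η * qq η i / (M + 1)) s := by
      funext s
      rw [Finset.sum_apply]
    rw [← h2, h1]
    refine Finset.sum_congr rfl fun i _ => ?_
    rw [cfc_const_mul (qq η (i + 1) - qq η i) (oddr (qq η i) (η * qq η i / (M + 1))) a
      (hcont i M).continuousOn, Complex.coe_smul]
  show N τ (a - ∑ i ∈ Finset.Icc (-(m : ℤ)) m,
      ((qq η (i + 1) - qq η i : ℝ) : ℂ) • cfc (oddr (qq η i) (η * qq η i / (M + 1))) a) ≤ _
  rw [hsum]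
  refine LevA_N hW.tr hW.one ha hg fun s hs => ?_
  have hs0 := hp s hs
  have : Nontrivial P := ⟨⟨1, 0, fun h => by
    have h1 := hW.one
    rw [h, map_zero] at h1
    exact zero_ne_one h1⟩⟩
  have hs1 : s ≤ qq η m := by
    have h1 := spectrum.norm_le_norm_of_mem hs
    rw [Real.norm_of_nonneg hs0] at h1
    exact h1.trans hm
  have hs2 : s ≤ qq η (-(m : ℤ) + ((2 * m + 1 : ℕ) : ℤ)) := by
    have h1 : -(m : ℤ) + ((2 * m + 1 : ℕ) : ℤ) = (m : ℤ) + 1 := by push_cast; ring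
    rw [h1, qq_succ hη]
    have := mul_pos hη (qq_pos hη m)
    linarith
  obtain ⟨h1, h2⟩ := (LevA_partial hη M (-(m : ℤ)) hs0 (2 * m + 1)).2 hs2
  rw [hI]
  generalize (∑ i ∈ Finset.Ico (-(m : ℤ)) (-(m : ℤ) + ((2 * m + 1 : ℕ) : ℤ)),
        (qq η (i + 1) - qq η i) * oddr (qq η i) (η * qq η i / (M + 1)) s) = G at h1 h2
  have h3 := qq_pos hη (-(m : ℤ))
  have h4 := mul_nonneg hη.le hs0
  have h5 : |s - G| ≤ η * s + qq η (-(m : ℤ)) := by
    rw [abs_le]
    constructor <;> linarith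
  have h6 : (s - G) ^ 2 ≤ (η * s + qq η (-(m : ℤ))) ^ 2 := by
    rw [← sq_abs (s - G)]
    exact pow_le_pow_left₀ (abs_nonneg _) h5 2
  nlinarith [sq_nonneg (η * s - qq η (-(m : ℤ)))]

end Pool.McT
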