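import Pool.Agent.McT.F.LevB

/-! Level sets: distance of a step function from the abelian algebra. -/

set_option autoImplicit false

namespace Pool.McT

variable {P : Type*} [CStarAlgebra P] {τ : P →ₗ[ℂ] ℂ} {E : P →ₗ[ℂ] P}

private theorem LevC_expand (hτ : IsTr τ) (x y : P) :
    N τ (x + y) = N τ x + N τ y + 2 * (τ (star x * y)).re := by
  have h : star (x + y) * (x + y) = star x * x + star y * y + star x * y + star (star x * y) := by
    rw [star_add, star_mul, star_star]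
    noncomm_ring
  unfold N
  rw [h]
  simp only [map_add, Complex.add_re, tau_star hτ, Complex.conj_re]
  ring

private theorem LevC_Ico (a : ℤ) (n : ℕ) :
    Finset.Ico a (a + ((n + 1 : ℕ) : ℤ)) = insert (a + (n : ℤ)) (Finset.Ico a (a + (n : ℤ))) := by
  ext i
  rw [Finset.mem_insert, Finset.mem_Ico, Finset.mem_Ico]
  push_cast
  omega

private theorem LevC_sum {β : Type*} [AddCommMonoid β] (a : ℤ) (n : ℕ) (g : ℤ → β) :
    ∑ i ∈ Finset.Ico a (a + ((n + 1 : ℕ) : ℤ)), g i =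
      g (a + (n : ℤ)) + ∑ i ∈ Finset.Ico a (a + (n : ℤ)), g i := by
  rw [LevC_Ico, Finset.sum_insert (by simp)]

private theorem LevC_cross (hτ : IsTr τ) (hE : AbExp τ E) (t : ℤ → ℝ) (ht : Monotone t)
    (e : ℤ → P) (he : ∀ i, IsPr (e i)) (hmono : ∀ i j, i ≤ j → e i * e j = e j) (a : ℤ) (n : ℕ)
    (j : ℤ) (hj : a + (n : ℤ) ≤ j) :
    (τ (star (∑ i ∈ Finset.Ico a (a + (n : ℤ)),
      ((t (i + 1) - t i : ℝ) : ℂ) • (e i - E (e i))) * (e j - E (e j)))).re ≤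
      (t (a + (n : ℤ)) - t a) * N τ (e j - E (e j)) := by
  induction n with
  | zero => simp
  | succ n ih =>
    have h1 := ih (by push_cast at hj; omega)
    have h2 := bad_cross hτ hE (he (a + (n : ℤ))) (he j)
      (hmono _ _ (by push_cast at hj; omega))
    have h3 : 0 ≤ t (a + (n : ℤ) + 1) - t (a + (n : ℤ)) := by
      have := ht (show a + (n : ℤ) ≤ a + (n : ℤ) + 1 by omega)
      linarith
    rw [LevC_sum, star_add, add_mul, map_add, Complex.add_re, star_smul, smul_mul_assoc, map_smul,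
      smul_eq_mul]
    have h4 : star (((t (a + (n : ℤ) + 1) - t (a + (n : ℤ)) : ℝ)) : ℂ) =
        (((t (a + (n : ℤ) + 1) - t (a + (n : ℤ)) : ℝ)) : ℂ) := Complex.conj_ofReal _
    rw [h4, Complex.re_ofReal_mul]
    have h5 : a + ((n + 1 : ℕ) : ℤ) = a + (n : ℤ) + 1 := by push_cast; ring
    rw [h5]
    have h6 := mul_le_mul_of_nonneg_left h2 h3
    have h7 : (t (a + (n : ℤ) + 1) - t a) * N τ (e j - E (e j)) =
        (t (a + (n : ℤ) + 1) - t (a + (n : ℤ))) * N τ (e j - E (e j)) +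
        (t (a + (n : ℤ)) - t a) * N τ (e j - E (e j)) := by ring
    rw [h7]
    exact add_le_add h6 h1

private theorem LevC_main (hτ : IsTr τ) (hE : AbExp τ E) (t : ℤ → ℝ) (ht : Monotone t)
    (ht0 : ∀ i, 0 < t i) (e : ℤ → P) (he : ∀ i, IsPr (e i))
    (hmono : ∀ i j, i ≤ j → e i * e j = e j) (a : ℤ) (n : ℕ) :
    N τ (∑ i ∈ Finset.Ico a (a + (n : ℤ)),
      ((t (i + 1) - t i : ℝ) : ℂ) • (e i - E (e i))) ≤
      ∑ i ∈ Finset.Ico a (a + (n : ℤ)), ((t (i + 1)) ^ 2 - (t i) ^ 2) * N τ (e i - E (e i)) := by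
  induction n with
  | zero => simp [N_zero]
  | succ n ih =>
    have h0 := LevC_cross hτ hE t ht e he hmono a n (a + (n : ℤ)) le_rfl
    rw [LevC_sum, LevC_sum, add_comm, LevC_expand hτ, N_smul, mul_smul_comm, map_smul,
      smul_eq_mul, Complex.re_ofReal_mul, Complex.norm_real, Real.norm_eq_abs, sq_abs]
    have h3 : 0 ≤ t (a + (n : ℤ) + 1) - t (a + (n : ℤ)) := by
      have := ht (show a + (n : ℤ) ≤ a + (n : ℤ) + 1 by omega)
      linarith
    have h4 := mul_le_mul_of_nonneg_left h0 h3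
    have h5 := N_nonneg hτ (e (a + (n : ℤ)) - E (e (a + (n : ℤ))))
    have h6 : 0 ≤ (t (a + (n : ℤ) + 1) - t (a + (n : ℤ))) * t a *
        N τ (e (a + (n : ℤ)) - E (e (a + (n : ℤ)))) :=
      mul_nonneg (mul_nonneg h3 (ht0 a).le) h5
    nlinarith [ih, h4, h6]

/-- `x = ∑ d i e i`, `d i = t (i+1) - t i ≥ 0`, `e i` decreasing. With `y i = e i - E (e i)`,
`x - E x = ∑ d i y i`, `N (x - E x) = ∑ i j, d i d j re τ (y i* y j)
≤ ∑ j, N (y j) (d j ² + 2 d j ∑_{i < j} d i)` and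
`d j ² + 2 d j (t j - t (-m)) ≤ (t (j+1) - t j) (t (j+1) + t j)` as `t > 0`. -/
theorem bad_step (hτ : IsTr τ) (hE : AbExp τ E) (m : ℕ) (t : ℤ → ℝ) (ht : Monotone t)
    (ht0 : ∀ i, 0 < t i) (e : ℤ → P) (he : ∀ i, IsPr (e i))
    (hmono : ∀ i j, i ≤ j → e i * e j = e j) :
    N τ ((∑ i ∈ Finset.Icc (-(m : ℤ)) m, ((t (i + 1) - t i : ℝ) : ℂ) • e i) -
        E (∑ i ∈ Finset.Icc (-(m : ℤ)) m, ((t (i + 1) - t i : ℝ) : ℂ) • e i)) ≤
      ∑ i ∈ Finset.Icc (-(m : ℤ)) m, ((t (i + 1)) ^ 2 - (t i) ^ 2) * N τ (e i - E (e i)) := by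
  have h1 : Finset.Icc (-(m : ℤ)) m = Finset.Ico (-(m : ℤ)) (-(m : ℤ) + ((2 * m + 1 : ℕ) : ℤ)) := by
    ext i
    rw [Finset.mem_Icc, Finset.mem_Ico]
    push_cast
    omega
  have h2 : (∑ i ∈ Finset.Icc (-(m : ℤ)) m, ((t (i + 1) - t i : ℝ) : ℂ) • e i) -
        E (∑ i ∈ Finset.Icc (-(m : ℤ)) m, ((t (i + 1) - t i : ℝ) : ℂ) • e i) =
      ∑ i ∈ Finset.Icc (-(m : ℤ)) m, ((t (i + 1) - t i : ℝ) : ℂ) • (e i - E (e i)) := by
    rw [map_sum, ← Finset.sum_sub_distrib]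
    refine Finset.sum_congr rfl fun i _ => ?_
    rw [map_smul, smul_sub]
  rw [h2, h1]
  exact LevC_main hτ hE t ht ht0 e he hmono _ _

end Pool.McT
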