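import Pool.Agent.McT.F.Exp
import Pool.Agent.McT.W.Connes

/-! Spectral projections are monotone. -/

set_option autoImplicit false

namespace Pool.McT

open Filter Topology

variable {P : Type*} [CStarAlgebra P] {τ : P →ₗ[ℂ] ℂ} {E : P →ₗ[ℂ] P}

/-- `IsSpec` for the same `a` and `t ≤ t'`: `e * e' = e'` (`ramp t m = 1` on `{ramp t' k > 0}`
for `m (t' - t) ≥ 1`; `IsSpec.mul_of_zero_left` for `f = ramp t' k`). -/
theorem spec_mono (hW : WT τ) {a e e' : P} (ha : IsSelfAdjoint a) {t t' : ℝ} (htt : t ≤ t')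
    (he : IsSpec τ a t e) (he' : IsSpec τ a t' e') : e * e' = e' := by
  have hc : ∀ k : ℕ, Continuous (ramp t' k) := by
    intro k
    unfold ramp
    fun_prop
  have h0 : ∀ (k : ℕ) (s : ℝ), s ≤ t → ramp t' k s = 0 := by
    intro k s hs
    unfold ramp
    have h1 : (k : ℝ) * (s - t') ≤ 0 :=
      mul_nonpos_of_nonneg_of_nonpos (Nat.cast_nonneg k) (sub_nonpos.2 (hs.trans htt))
    rw [max_eq_left h1, min_eq_right zero_le_one]
  have h1 : ∀ k : ℕ, cfc (ramp t' k) a * e = cfc (ramp t' k) a :=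
    fun k => he.mul_of_zero_left hW ha (hc k) (h0 k)
  have h2 := he'.2.mul_right hW e
  simp only [h1] at h2
  have h3 : e' = e' * e := he'.2.unique hW h2
  have h4 := congrArg star h3
  rw [star_mul, he.1.1, he'.1.1] at h4
  exact h4.symm

end Pool.McT
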