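import Pool.Agent.McT.F.LevL

/-! Level sets: 2-norms. -/

set_option autoImplicit false

namespace Pool.McT

open Filter Topology

variable {P : Type*} [CStarAlgebra P] {τ : P →ₗ[ℂ] ℂ}

private theorem star_cfc_LevN (f : ℝ → ℝ) (h : P) : star (cfc f h) = cfc f h :=
  (cfc_predicate (R := ℝ) (p := IsSelfAdjoint) f h).star_eq

private theorem N_cfc_LevN {f : ℝ → ℝ} (hf : Continuous f) (h : P) :
    N τ (cfc f h) = (τ (cfc (fun s => f s * f s) h)).re := by
  unfold N
  rw [star_cfc_LevN, cfc_mul f f h hf.continuousOn hf.continuousOn]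

private theorem mono_cfc_LevN (hT : IsTr τ) {h : P} {f g : ℝ → ℝ} (hf : Continuous f)
    (hg : Continuous g) (hfg : ∀ s ∈ spectrum ℝ h, f s ≤ g s) :
    (τ (cfc f h)).re ≤ (τ (cfc g h)).re := by
  have hk : Continuous fun s => Real.sqrt (g s - f s) := Real.continuous_sqrt.comp (hg.sub hf)
  have h1 : cfc g h - cfc f h = star (cfc (fun s => Real.sqrt (g s - f s)) h) *
      cfc (fun s => Real.sqrt (g s - f s)) h := by
    rw [star_cfc_LevN, ← cfc_mul _ _ h hk.continuousOn hk.continuousOn,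
      ← cfc_sub g f h hg.continuousOn hf.continuousOn]
    refine cfc_congr fun s hs => ?_
    exact (Real.mul_self_sqrt (sub_nonneg.2 (hfg s hs))).symm
  have h2 := hT.nonneg (cfc (fun s => Real.sqrt (g s - f s)) h)
  rw [← h1, map_sub, Complex.sub_re] at h2
  linarith

private theorem cont_ramp_LevN (t : ℝ) (m : ℕ) : Continuous (ramp t m) := by
  unfold ramp
  fun_prop

private theorem tau_real_smul_LevN (r : ℝ) (x : P) : (τ (r • x)).re = r * (τ x).re := by
  have h6 : r • x = (r : ℂ) • x := (Complex.coe_smul r x).symm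
  rw [h6, map_smul, smul_eq_mul, Complex.re_ofReal_mul]

/-- the telescoping estimate -/
private theorem tel_LevN {η s : ℝ} (hη : 0 < η) (ρ : ℤ → ℝ) (h0 : ∀ i, 0 ≤ ρ i)
    (h1 : ∀ i, ρ i ≤ 1) (hz : ∀ i, s ≤ qq η i → ρ i = 0) (m n : ℕ) :
    ∑ j ∈ Finset.range n, ((qq η ((j : ℤ) - m + 1)) ^ 2 - (qq η ((j : ℤ) - m)) ^ 2) *
        ρ ((j : ℤ) - m) ≤ (qq η ((n : ℤ) - m)) ^ 2 ∧
    ∑ j ∈ Finset.range n, ((qq η ((j : ℤ) - m + 1)) ^ 2 - (qq η ((j : ℤ) - m)) ^ 2) *
        ρ ((j : ℤ) - m) ≤ (1 + η) ^ 2 * s ^ 2 := by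
  induction n with
  | zero =>
    constructor
    · rw [Finset.sum_range_zero]
      positivity
    · rw [Finset.sum_range_zero]
      positivity
  | succ n ih =>
    obtain ⟨ih1, ih2⟩ := ih
    have hq := qq_pos hη ((n : ℤ) - m)
    have hsucc := qq_succ hη ((n : ℤ) - m)
    have hq1 : qq η ((n : ℤ) - m + 1) = (1 + η) * qq η ((n : ℤ) - m) := by
      rw [hsucc]
      ring
    have hcast : (((n + 1 : ℕ) : ℤ) - m) = (n : ℤ) - m + 1 := by
      push_cast
      ring
    have hd : 0 ≤ (qq η ((n : ℤ) - m + 1)) ^ 2 - (qq η ((n : ℤ) - m)) ^ 2 := by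
      rw [hq1]
      nlinarith [mul_pos hη hq, mul_pos hq hq]
    have hr0 := h0 ((n : ℤ) - m)
    have hr1 := h1 ((n : ℤ) - m)
    have hA : ∑ j ∈ Finset.range (n + 1), ((qq η ((j : ℤ) - m + 1)) ^ 2 -
        (qq η ((j : ℤ) - m)) ^ 2) * ρ ((j : ℤ) - m) ≤ (qq η ((n : ℤ) - m + 1)) ^ 2 := by
      rw [Finset.sum_range_succ]
      have h3 := mul_le_mul_of_nonneg_left hr1 hd
      linarith
    rw [hcast]
    refine ⟨hA, ?_⟩
    rcases le_or_gt s (qq η ((n : ℤ) - m)) with h | h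
    · rw [Finset.sum_range_succ, hz _ h, mul_zero, add_zero]
      exact ih2
    · refine hA.trans ?_
      rw [hq1, mul_pow]
      have h3 : (qq η ((n : ℤ) - m)) ^ 2 ≤ s ^ 2 := by
        apply pow_le_pow_left₀ hq.le h.le
      have h4 : 0 ≤ (1 + η) ^ 2 := by positivity
      exact mul_le_mul_of_nonneg_left h3 h4

private theorem sum_Icc_LevN (m : ℕ) (f : ℤ → ℝ) :
    ∑ i ∈ Finset.Icc (-(m : ℤ)) m, f i = ∑ j ∈ Finset.range (2 * m + 1), f ((j : ℤ) - m) := by
  refine (Finset.sum_bij (fun (j : ℕ) _ => (j : ℤ) - m) ?_ ?_ ?_ ?_).symm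
  · intro j hj
    rw [Finset.mem_range] at hj
    rw [Finset.mem_Icc]
    omega
  · intro j _ j' _ h
    have h' : (j : ℤ) - m = (j' : ℤ) - m := h
    omega
  · intro i hi
    rw [Finset.mem_Icc] at hi
    refine ⟨(i + m).toNat, ?_, ?_⟩
    · rw [Finset.mem_range]
      omega
    · omega
  · intro j _
    rfl

/-- For `s ≥ 0`: `∑ ((qq η (i+1))² - (qq η i)²) (oddr (qq η i) w s)² ≤ (1 + η)² s² ≤ 4 s²`
(only the `i` with `qq η i < s` contribute, each factor at most `1`, telescoping; see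
`fine_upper` with `r = 0` if convenient: it gives `(1/η + 8 η) s²`, which is NOT enough). Then
`M → ∞`. Or directly: `∑ c_i e_i ≤ (1+η)² a²` in the commutative algebra generated by `a`. -/
theorem lev_N (hW : WT τ) {η : ℝ} (hη : 0 < η) (hη8 : η ≤ 1 / 8) {a : P}
    (ha : IsSelfAdjoint a) (hp : ∀ s ∈ spectrum ℝ a, 0 ≤ s) (m : ℕ) (e : ℤ → P)
    (he : ∀ i, IsSpec τ a (qq η i) (e i)) :
    ∑ i ∈ Finset.Icc (-(m : ℤ)) m, ((qq η (i + 1)) ^ 2 - (qq η i) ^ 2) * N τ (e i) ≤
      4 * N τ a := by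
  obtain ⟨S, hS⟩ : ∃ S : Finset ℤ, S = Finset.Icc (-(m : ℤ)) m := ⟨_, rfl⟩
  obtain ⟨c, hc⟩ : ∃ c : ℤ → ℝ, ∀ i, c i = (qq η (i + 1)) ^ 2 - (qq η i) ^ 2 :=
    ⟨_, fun _ => rfl⟩
  have hbound : ∀ (M : ℕ) (s : ℝ), 0 ≤ s →
      ∑ i ∈ S, c i * (ramp (qq η i) M s * ramp (qq η i) M s) ≤ 4 * (s * s) := by
    intro M s _
    rw [hS, sum_Icc_LevN]
    have h1 := (tel_LevN (s := s) hη (fun i => ramp (qq η i) M s * ramp (qq η i) M s)
      (fun i => mul_self_nonneg _) (fun i => ?_) (fun i hi => ?_) m (2 * m + 1)).2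
    · simp only [hc]
      refine h1.trans ?_
      have h2 : (1 + η) ^ 2 ≤ 4 := by nlinarith
      have h3 : 0 ≤ s ^ 2 := by positivity
      nlinarith
    · have h2 : 0 ≤ ramp (qq η i) M s := le_min zero_le_one (le_max_left _ _)
      have h3 : ramp (qq η i) M s ≤ 1 := min_le_left _ _
      nlinarith
    · have h2 : ramp (qq η i) M s = 0 := by
        unfold ramp
        have h4 : (M : ℝ) * (s - qq η i) ≤ 0 :=
          mul_nonpos_of_nonneg_of_nonpos (Nat.cast_nonneg M) (sub_nonpos.2 hi)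
        rw [max_eq_left h4, min_eq_right zero_le_one]
      simp only [h2, mul_zero]
  have hM : ∀ M : ℕ, ∑ i ∈ S, c i * N τ (cfc (ramp (qq η i) M) a) ≤ 4 * N τ a := by
    intro M
    have hcont : ∀ i, Continuous fun s => ramp (qq η i) M s * ramp (qq η i) M s := fun i =>
      (cont_ramp_LevN _ _).mul (cont_ramp_LevN _ _)
    have h1 : (τ (cfc (fun s => ∑ i ∈ S, c i * (ramp (qq η i) M s * ramp (qq η i) M s)) a)).re =
        ∑ i ∈ S, c i * N τ (cfc (ramp (qq η i) M) a) := by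
      have h2 : (fun s => ∑ i ∈ S, c i * (ramp (qq η i) M s * ramp (qq η i) M s)) =
          ∑ i ∈ S, fun s => c i * (ramp (qq η i) M s * ramp (qq η i) M s) := by
        funext s
        rw [Finset.sum_apply]
      rw [h2, cfc_sum (fun i s => c i * (ramp (qq η i) M s * ramp (qq η i) M s)) a S
        (fun i _ => (continuous_const.mul (hcont i)).continuousOn), map_sum, Complex.re_sum]
      refine Finset.sum_congr rfl fun i _ => ?_
      rw [cfc_const_mul (c i) (fun s => ramp (qq η i) M s * ramp (qq η i) M s) a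
        (hcont i).continuousOn, tau_real_smul_LevN, N_cfc_LevN (cont_ramp_LevN _ _)]
    have h3 : (τ (cfc (fun s : ℝ => 4 * (s * s)) a)).re = 4 * N τ a := by
      rw [cfc_const_mul (4 : ℝ) (fun s : ℝ => s * s) a
        (continuous_id.mul continuous_id).continuousOn, tau_real_smul_LevN]
      have h4 := N_cfc_LevN (τ := τ) (f := fun s : ℝ => s) continuous_id a
      rw [cfc_id' ℝ a ha] at h4
      rw [h4]
    rw [← h1, ← h3]
    refine mono_cfc_LevN hW.tr ?_ (by fun_prop) fun s hs => hbound M s (hp s hs)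
    exact continuous_finsetSum _ fun i _ => continuous_const.mul (hcont i)
  have hlim : Tendsto (fun M : ℕ => ∑ i ∈ S, c i * N τ (cfc (ramp (qq η i) M) a)) atTop
      (𝓝 (∑ i ∈ S, c i * N τ (e i))) := by
    refine tendsto_finsetSum _ fun i _ => ?_
    exact ((he i).2.tendsto_N hW).const_mul _
  have h := le_of_tendsto' hlim hM
  rw [← hS]
  refine le_trans (le_of_eq ?_) h
  exact Finset.sum_congr rfl fun i _ => by rw [hc]

end Pool.McT
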