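import Pool.Agent.McT.F.Exp

/-! Reduction to self-adjoint elements. -/

set_option autoImplicit false

namespace Pool.McT

variable {P : Type*} [CStarAlgebra P] {τ : P →ₗ[ℂ] ℂ} {E : P →ₗ[ℂ] P}

private theorem Sa_par (y z : P) :
    N τ ((1 / 2 : ℂ) • (y + z)) + N τ ((-(Complex.I / 2) : ℂ) • (y - z)) =
      (N τ y + N τ z) / 2 := by
  have h1 := N_par (τ := τ) y z
  have e1 : ‖(1 / 2 : ℂ)‖ = 1 / 2 := by norm_num
  have e2 : ‖(-(Complex.I / 2) : ℂ)‖ = 1 / 2 := by
    rw [norm_neg, norm_div, Complex.norm_I]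
    norm_num
  rw [N_smul, N_smul, e1, e2]
  linarith

/-- `x = a + i b`, `a = (x + x*) / 2`, `b = (x - x*) / (2 i)`: `N x = N a + N b`,
`S x = S a + S b` (for every `u`: `N [x, u] + N [x*, u] = 2 N [a, u] + 2 N [b, u]` by `N_par`)
and `N (x - E x) = N (a - E a) + N (b - E b)` (`E` commutes with `*`; parallelogram law for
`x - E x`, `x* - E x*`). So one of `a`, `b` satisfies the inequality. -/
theorem bad_sa (hτ : IsTr τ) (hE : AbExp τ E) {δ C : ℝ} (F : Finset P) {x : P}
    (hx : δ * N τ x + C * S τ F x < N τ (x - E x)) :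
    ∃ a : P, IsSelfAdjoint a ∧ δ * N τ a + C * S τ F a < N τ (a - E a) := by
  set a : P := (1 / 2 : ℂ) • (x + star x) with ha
  set b : P := (-(Complex.I / 2) : ℂ) • (x - star x) with hb
  have hsa : IsSelfAdjoint a := by
    have h1 : star (1 / 2 : ℂ) = 1 / 2 := Complex.ext (by simp) (by simp)
    rw [isSelfAdjoint_iff, ha, star_smul, star_add, star_star, h1, add_comm (star x) x]
  have hsb : IsSelfAdjoint b := by
    have h1 : star (-(Complex.I / 2) : ℂ) = Complex.I / 2 :=
      Complex.ext (by simp) (by simp; norm_num)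
    rw [isSelfAdjoint_iff, hb, star_smul, star_sub, star_star, h1, ← neg_sub x (star x), smul_neg,
      neg_smul]
  have hN : N τ a + N τ b = N τ x := by
    rw [ha, hb, Sa_par, N_star hτ]
    ring
  have hEE : N τ (a - E a) + N τ (b - E b) = N τ (x - E x) := by
    have h1 : a - E a = (1 / 2 : ℂ) • ((x - E x) + star (x - E x)) := by
      rw [ha, map_smul, map_add, ← smul_sub, star_sub, hE.star]
      congr 1
      abel
    have h2 : b - E b = (-(Complex.I / 2) : ℂ) • ((x - E x) - star (x - E x)) := by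
      rw [hb, map_smul, map_sub, ← smul_sub, star_sub, hE.star]
      congr 1
      abel
    rw [h1, h2, Sa_par, N_star hτ]
    ring
  have hS : S τ F a + S τ F b = S τ F x := by
    unfold S
    rw [← Finset.sum_add_distrib]
    refine Finset.sum_congr rfl fun u _ => ?_
    have h1 : cm a u = (1 / 2 : ℂ) • (cm x u + cm (star x) u) := by
      unfold cm
      rw [ha, smul_mul_assoc, mul_smul_comm, ← smul_sub]
      congr 1
      noncomm_ring
    have h2 : cm b u = (-(Complex.I / 2) : ℂ) • (cm x u - cm (star x) u) := by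
      unfold cm
      rw [hb, smul_mul_assoc, mul_smul_comm, ← smul_sub]
      congr 1
      noncomm_ring
    rw [hsa.star_eq, hsb.star_eq, h1, h2]
    have h3 := Sa_par (τ := τ) (cm x u) (cm (star x) u)
    linarith
  by_contra hcon
  push Not at hcon
  have h1 := hcon a hsa
  have h2 := hcon b hsb
  have h3 : δ * N τ a + δ * N τ b = δ * N τ x := by rw [← mul_add, hN]
  have h4 : C * S τ F a + C * S τ F b = C * S τ F x := by rw [← mul_add, hS]
  linarith

end Pool.McT
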