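import Pool.Agent.McT.F.Exp
import Pool.Agent.McT.W.Gen

/-! Reduction to positive elements. -/

set_option autoImplicit false

namespace Pool.McT

variable {P : Type*} [CStarAlgebra P] {τ : P →ₗ[ℂ] ℂ} {E : P →ₗ[ℂ] P}

private theorem S_le_SaB (hτ : IsTr τ) (F : Finset P) {a : P} (ha : IsSelfAdjoint a) {g : ℝ → ℝ}
    (hg : Continuous g) (hl : ∀ s r : ℝ, (g s - g r) ^ 2 ≤ (s - r) ^ 2) :
    S τ F (cfc g a) ≤ S τ F a := by
  have h1 : star (cfc g a) = cfc g a := (cfc_predicate g a : IsSelfAdjoint _)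
  have h2 : star a = a := ha
  unfold S
  rw [h1, h2]
  refine Finset.sum_le_sum fun u _ => ?_
  have h3 := comm_sum_gen hτ ha u (ι := Unit) (fun _ => g) (fun _ => hg) (fun _ => 1) 1 0 le_rfl
    (fun s r _ _ => by
      have := hl s r
      rw [Finset.univ_unique, Finset.sum_singleton]
      linarith)
  rw [Finset.univ_unique, Finset.sum_singleton] at h3
  linarith

private theorem pos_SaB {a : P} (ha : IsSelfAdjoint a) {g : ℝ → ℝ}
    (hg : Continuous g) (h0 : ∀ s, 0 ≤ g s) : ∀ s ∈ spectrum ℝ (cfc g a), 0 ≤ s := by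
  intro s hs
  rw [cfc_map_spectrum (R := ℝ) g a ha hg.continuousOn] at hs
  obtain ⟨r, _, rfl⟩ := hs
  exact h0 r

/-- `a = a₊ - a₋`, `a₊ = cfc (max 0) a`, `a₋ = cfc (fun s => max 0 (-s)) a`.
`N a = N a₊ + N a₋` (`a₊ a₋ = 0`), `N (a - E a) ≤ 2 N (a₊ - E a₊) + 2 N (a₋ - E a₋)`
(`N_add_le`), `S a₊ ≤ S a`, `S a₋ ≤ S a` (`comm_sum_gen` with one function, `a = 1`, `b = 0`:
`(max 0 s - max 0 r)² ≤ (s - r)²`; for self-adjoint `h` the two terms of `S` agree). If both
`a₊`, `a₋` had `N (· - E ·) ≤ δ/2 N + C S`, then `N (a - E a) ≤ δ N a + 4 C S a`. -/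
theorem bad_pos (hτ : IsTr τ) (hE : AbExp τ E) {δ C : ℝ} (hC : 0 ≤ C) (F : Finset P) {a : P}
    (ha : IsSelfAdjoint a) (hx : δ * N τ a + 4 * C * S τ F a < N τ (a - E a)) :
    ∃ b : P, IsSelfAdjoint b ∧ (∀ s ∈ spectrum ℝ b, 0 ≤ s) ∧
      δ / 2 * N τ b + C * S τ F b < N τ (b - E b) := by
  have _ := hE
  by_contra hcon
  push Not at hcon
  have hg1 : Continuous fun s : ℝ => max 0 s := by fun_prop
  have hg2 : Continuous fun s : ℝ => max 0 (-s) := by fun_prop
  obtain ⟨b, hb⟩ : ∃ b : P, b = cfc (fun s : ℝ => max 0 s) a := ⟨_, rfl⟩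
  obtain ⟨c, hc⟩ : ∃ c : P, c = cfc (fun s : ℝ => max 0 (-s)) a := ⟨_, rfl⟩
  have hbs : IsSelfAdjoint b := by rw [hb]; exact cfc_predicate _ a
  have hcs : IsSelfAdjoint c := by rw [hc]; exact cfc_predicate _ a
  have hd : a = b - c := by
    rw [hb, hc, ← cfc_sub _ _ _ hg1.continuousOn hg2.continuousOn]
    have h1 : (fun s : ℝ => max 0 s - max 0 (-s)) = fun s => s := by
      funext s
      rcases le_total 0 s with h | h
      · rw [max_eq_right h, max_eq_left (by linarith), sub_zero]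
      · rw [max_eq_left h, max_eq_right (by linarith)]
        ring
    rw [h1, cfc_id' ℝ a ha]
  have hsq : a * a = b * b + c * c := by
    rw [hb, hc, ← cfc_mul _ _ _ hg1.continuousOn hg1.continuousOn,
      ← cfc_mul _ _ _ hg2.continuousOn hg2.continuousOn,
      ← cfc_add a (fun s : ℝ => max 0 s * max 0 s) (fun s : ℝ => max 0 (-s) * max 0 (-s))
        (hg1.mul hg1).continuousOn (hg2.mul hg2).continuousOn]
    have h1 : (fun s : ℝ => max 0 s * max 0 s + max 0 (-s) * max 0 (-s)) = fun s => s * s := by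
      funext s
      rcases le_total 0 s with h | h
      · rw [max_eq_right h, max_eq_left (by linarith)]
        ring
      · rw [max_eq_left h, max_eq_right (by linarith)]
        ring
    rw [h1, cfc_mul _ _ _ continuous_id'.continuousOn continuous_id'.continuousOn,
      cfc_id' ℝ a ha]
  have hN : N τ a = N τ b + N τ c := by
    unfold N
    rw [ha.star_eq, hbs.star_eq, hcs.star_eq, hsq, map_add, Complex.add_re]
  have hS1 : S τ F b ≤ S τ F a := by
    rw [hb]
    refine S_le_SaB hτ F ha hg1 fun s r => sq_le_sq.2 ?_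
    have := abs_max_sub_max_le_abs s r 0
    rwa [max_comm s 0, max_comm r 0] at this
  have hS2 : S τ F c ≤ S τ F a := by
    rw [hc]
    refine S_le_SaB hτ F ha hg2 fun s r => sq_le_sq.2 ?_
    have := abs_max_sub_max_le_abs (-s) (-r) 0
    rw [max_comm (-s) 0, max_comm (-r) 0] at this
    refine this.trans_eq ?_
    rw [show -s - -r = -(s - r) by ring, abs_neg]
  have h1 := hcon b hbs (by rw [hb]; exact pos_SaB ha hg1 fun s => le_max_left _ _)
  have h2 := hcon c hcs (by rw [hc]; exact pos_SaB ha hg2 fun s => le_max_left _ _)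
  have h3 : N τ (a - E a) ≤ 2 * N τ (b - E b) + 2 * N τ (c - E c) := by
    have h4 : a - E a = (b - E b) + -(c - E c) := by
      rw [hd, map_sub]
      abel
    rw [h4]
    have h5 := N_add_le hτ (b - E b) (-(c - E c))
    rwa [N_neg] at h5
  have h4 := mul_le_mul_of_nonneg_left hS1 hC
  have h5 := mul_le_mul_of_nonneg_left hS2 hC
  rw [hN] at hx
  linarith

end Pool.McT
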