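import Pool.Agent.McT.F.LevS
import Pool.Agent.McT.F.LevN
import Pool.Agent.McT.F.LevA
import Pool.Agent.McT.F.LevM
import Pool.Agent.McT.F.LevC
import Pool.Agent.McT.F.Sa
import Pool.Agent.McT.F.SaB

/-! From an element far from the abelian algebra to a projection. -/

set_option autoImplicit false

namespace Pool.McT

variable {P : Type*} [CStarAlgebra P] {τ : P →ₗ[ℂ] ℂ} {E : P →ₗ[ℂ] P}

/-- Let `U = ∑ u ∈ F, ‖u‖²`, `η = min (δ / 100) (δ / (1000 (K U + 1)))` (so `η ≤ 1/8`),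
`C₁ = 2 K / η + 1`, `C = 4 C₁`. `bad_sa`, then `bad_pos` (with `C₁`) give a positive `a` with
`δ/2 N a + C₁ S a < N (a - E a) ≤ N a` (so `N a > 0`). Take `m` from `exists_grid'` with
`R = ‖a‖`, `ρ = δ² N a / 10000`, `e i` from `exists_spec` at level `qq η i`,
`x = ∑ (qq η (i+1) - qq η i) e i`. By `lev_approx`
`N (a - x) ≤ 2 η² N a + 2 ρ ≤ 4 δ² / 10000 N a ≤ 0.0008 N (a - E a)`. With
`√ N (x - E x) ≥ √ N (a - E a) - √ N (a - x)` (`AbExp.sqrt_add_le`, `AbExp.N_sub_le`) this gives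
`N (x - E x) ≥ 0.94 N (a - E a) ≥ 0.47 δ N a + (K / η) S a`. By `bad_step` (`spec_mono`)
`∑ c i N (e i - E (e i)) ≥ N (x - E x)`, `c i = (qq η (i+1))² - (qq η i)²`; by `lev_S`
`K ∑ c i S (e i) ≤ (K/η) S a + 32 η K U N a ≤ (K/η) S a + 0.032 δ N a`; by `lev_N`
`δ/16 ∑ c i N (e i) ≤ 0.25 δ N a`. As `0.282 < 0.47`, some `i` has
`δ/16 N (e i) + K S (e i) < N (e i - E (e i))`, and `e i ≠ 0`. -/
theorem exists_bad_pr (hW : WT τ) (hE : AbExp τ E) {δ K : ℝ} (hδ : 0 < δ) (hδ1 : δ ≤ 1)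
    (hK : 0 ≤ K) (F : Finset P) : ∃ C : ℝ, 0 ≤ C ∧ ∀ x : P,
      δ * N τ x + C * S τ F x < N τ (x - E x) →
      ∃ e : P, IsPr e ∧ e ≠ 0 ∧ δ / 16 * N τ e + K * S τ F e < N τ (e - E e) := by
  obtain ⟨U, hU⟩ : ∃ U : ℝ, U = ∑ u ∈ F, ‖u‖ ^ 2 := ⟨_, rfl⟩
  have hU0 : 0 ≤ U := by
    rw [hU]
    exact Finset.sum_nonneg fun g _ => by positivity
  have hKU : 0 ≤ K * U := mul_nonneg hK hU0
  obtain ⟨η, hηdef⟩ : ∃ η : ℝ, η = min (δ / 100) (δ / (1000 * (K * U + 1))) := ⟨_, rfl⟩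
  have hη : 0 < η := by
    rw [hηdef]
    exact lt_min (by positivity) (by positivity)
  have hη1 : η ≤ δ / 100 := by
    rw [hηdef]
    exact min_le_left _ _
  have hη8 : η ≤ 1 / 8 := by linarith
  have hηK : η * (1000 * (K * U + 1)) ≤ δ := by
    have h1 : η ≤ δ / (1000 * (K * U + 1)) := by
      rw [hηdef]
      exact min_le_right _ _
    rwa [le_div_iff₀ (by positivity)] at h1
  have hKη : 0 ≤ K / η := by positivity
  obtain ⟨C₁, hC₁⟩ : ∃ C₁ : ℝ, C₁ = 2 * (K / η) + 1 := ⟨_, rfl⟩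
  have hC₁0 : 0 ≤ C₁ := by
    rw [hC₁]
    positivity
  refine ⟨4 * C₁, by positivity, fun x hx => ?_⟩
  obtain ⟨a₀, ha₀, hx₀⟩ := bad_sa hW.tr hE F hx
  obtain ⟨a, ha, hp, hbad⟩ := bad_pos hW.tr hE hC₁0 F ha₀ hx₀
  have hNA0 := N_nonneg hW.tr a
  have hSA := S_nonneg hW.tr F a
  have hD := hE.N_sub_le hW.tr a
  have hD0 : 0 < N τ (a - E a) := by
    refine lt_of_le_of_lt ?_ hbad
    positivity
  have hNA : 0 < N τ a := hD0.trans_le hD
  obtain ⟨m, hmR, hmρ⟩ := exists_grid' hη ‖a‖ (δ ^ 2 * N τ a / 10000) (by positivity)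
  have hsp : ∀ i : ℤ, ∃ e : P, IsSpec τ a (qq η i) e := fun i => exists_spec hW ha (qq η i)
  choose e he using hsp
  obtain ⟨y, hy⟩ : ∃ y : P,
      y = ∑ i ∈ Finset.Icc (-(m : ℤ)) m, ((qq η (i + 1) - qq η i : ℝ) : ℂ) • e i := ⟨_, rfl⟩
  have happ := lev_approx hW hη hη8 ha hp hmR e he
  rw [← hy] at happ
  have hNay : N τ (a - y) ≤ 0.0008 * N τ (a - E a) := by
    have h1 : η ^ 2 ≤ (δ / 100) ^ 2 := pow_le_pow_left₀ hη.le hη1 2
    have h2 : 2 * η ^ 2 * N τ a ≤ 2 * (δ / 100) ^ 2 * N τ a :=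
      mul_le_mul_of_nonneg_right (by linarith) hNA0
    have h3 : N τ (a - y) ≤ 0.0004 * (δ * (δ * N τ a)) := by nlinarith
    have h4 : δ / 2 * N τ a ≤ N τ (a - E a) := by
      have : 0 ≤ C₁ * S τ F a := mul_nonneg hC₁0 hSA
      linarith
    have h5 : δ * (δ * N τ a) ≤ 1 * (2 * N τ (a - E a)) :=
      mul_le_mul hδ1 (by linarith) (by positivity) (by norm_num)
    linarith
  -- the norm of the step function
  have hX : 0.94 * N τ (a - E a) ≤ N τ (y - E y) := by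
    have h1 := hE.sqrt_add_le hW.tr y (a - y)
    rw [add_sub_cancel] at h1
    have h2 : Real.sqrt (N τ ((a - y) - E (a - y))) ≤ 0.03 * Real.sqrt (N τ (a - E a)) := by
      have h3 : N τ ((a - y) - E (a - y)) ≤ 0.0009 * N τ (a - E a) :=
        ((hE.N_sub_le hW.tr (a - y)).trans hNay).trans (by nlinarith)
      have h4 : Real.sqrt (0.0009 * N τ (a - E a)) = 0.03 * Real.sqrt (N τ (a - E a)) := by
        rw [Real.sqrt_mul (by norm_num), show (0.0009 : ℝ) = 0.03 ^ 2 by norm_num,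
          Real.sqrt_sq (by norm_num)]
      rw [← h4]
      exact Real.sqrt_le_sqrt h3
    have h3 : 0.97 * Real.sqrt (N τ (a - E a)) ≤ Real.sqrt (N τ (y - E y)) := by linarith
    have h4 := mul_self_le_mul_self (by positivity) h3
    have h5 := Real.mul_self_sqrt (N_nonneg hW.tr (a - E a))
    have h6 := Real.mul_self_sqrt (N_nonneg hW.tr (y - E y))
    rw [h6] at h4
    nlinarith
  have hmono : Monotone (qq η) := by
    intro i j hij
    unfold qq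
    exact zpow_le_zpow_right₀ (by linarith) hij
  have hstep := bad_step hW.tr hE m (qq η) hmono (fun i => qq_pos hη i) e (fun i => (he i).1)
    (fun i j hij => spec_mono hW ha (hmono hij) (he i) (he j))
  rw [← hy] at hstep
  have hSS := lev_S hW F hη hη8 ha hp m e he
  have hNN := lev_N hW hη hη8 ha hp m e he
  rw [← hU] at hSS
  by_contra hcon
  have hall : ∀ i : ℤ, N τ (e i - E (e i)) ≤ δ / 16 * N τ (e i) + K * S τ F (e i) := by
    intro i
    by_contra hlt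
    rw [not_le] at hlt
    refine hcon ⟨e i, (he i).1, fun h0 => ?_, hlt⟩
    rw [h0, map_zero, sub_zero, N_zero, mul_zero, zero_add] at hlt
    exact absurd hlt (not_lt.2 (mul_nonneg hK (S_nonneg hW.tr F 0)))
  have hc : ∀ i : ℤ, 0 ≤ (qq η (i + 1)) ^ 2 - (qq η i) ^ 2 := by
    intro i
    have h1 := qq_pos hη i
    have h2 := hmono (show i ≤ i + 1 by omega)
    have h3 := pow_le_pow_left₀ h1.le h2 2
    linarith
  have h1 : ∑ i ∈ Finset.Icc (-(m : ℤ)) m, ((qq η (i + 1)) ^ 2 - (qq η i) ^ 2) *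
      N τ (e i - E (e i)) ≤
      δ / 16 * (∑ i ∈ Finset.Icc (-(m : ℤ)) m, ((qq η (i + 1)) ^ 2 - (qq η i) ^ 2) * N τ (e i)) +
      K * (∑ i ∈ Finset.Icc (-(m : ℤ)) m, ((qq η (i + 1)) ^ 2 - (qq η i) ^ 2) *
        S τ F (e i)) := by
    rw [Finset.mul_sum, Finset.mul_sum, ← Finset.sum_add_distrib]
    refine Finset.sum_le_sum fun i _ => ?_
    have h2 := mul_le_mul_of_nonneg_left (hall i) (hc i)
    linarith
  have h2 := mul_le_mul_of_nonneg_left hNN (show 0 ≤ δ / 16 by positivity)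
  have h3 := mul_le_mul_of_nonneg_left hSS hK
  have h4 : K * (1 / η * S τ F a + 32 * η * U * N τ a) =
      K / η * S τ F a + 32 * (η * (K * U)) * N τ a := by ring
  have h5 : 32 * (η * (K * U)) ≤ 0.032 * δ := by nlinarith [hη.le]
  have h6 : 32 * (η * (K * U)) * N τ a ≤ 0.032 * δ * N τ a :=
    mul_le_mul_of_nonneg_right h5 hNA0
  have h7 : 0.94 * (C₁ * S τ F a) ≥ K / η * S τ F a := by
    rw [hC₁]
    have h8 : 0 ≤ K / η * S τ F a := mul_nonneg hKη hSA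
    nlinarith
  have h8 : 0 < δ * N τ a := mul_pos hδ hNA
  rw [h4] at h3
  nlinarith

end Pool.McT
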