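import Pool.Agent.McT.F.Exp

/-! Level sets: cross terms. -/

set_option autoImplicit false

namespace Pool.McT

variable {P : Type*} [CStarAlgebra P] {τ : P →ₗ[ℂ] ℂ} {E : P →ₗ[ℂ] P}

/-- For projections `e' ≤ e`: `0 ≤ τ (e e') - τ (E e * e') ≤ τ e' - τ (E e' * e')
= N (e' - E e')`, as `τ (E (e - e') * e') ≥ 0` (`AbExp.pos`) and `e e' = e'`. In the form used
below, with `y i = e i - E (e i)`: `re τ (y i* y j) ≤ N (y j)` for `e j ≤ e i`
(`AbExp.tau_sub`). -/
theorem bad_cross (hτ : IsTr τ) (hE : AbExp τ E) {e e' : P} (he : IsPr e) (he' : IsPr e')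
    (h : e * e' = e') :
    (τ (star (e - E e) * (e' - E e'))).re ≤ N τ (e' - E e') := by
  have h2 : e' * e = e' := by
    have := congrArg star h
    rwa [star_mul, he.1, he'.1] at this
  have hp : IsPr (e - e') := by
    refine ⟨by rw [star_sub, he.1, he'.1], ?_⟩
    rw [sub_mul, mul_sub, mul_sub, he.2, he'.2, h, h2]
    abel
  have h3 := hE.pos hτ hp he'
  have h4 : τ (E (e - e') * e') = τ (E e * E e') - τ (E e' * E e') := by
    rw [hE.tau_left, map_sub, sub_mul, map_sub]
  rw [h4, Complex.sub_re] at h3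
  rw [hE.tau_sub]
  unfold N
  rw [hE.tau_sub, he.1, he'.1, h, he'.2, ← hE.star, ← hE.star, he.1, he'.1]
  rw [Complex.sub_re, Complex.sub_re]
  linarith

end Pool.McT
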