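import Pool.Agent.McT.F.Exp
import Pool.Agent.McT.W.Connes

/-! Level sets: limits of the functions oddr. -/

set_option autoImplicit false

namespace Pool.McT

open Filter Topology

variable {P : Type*} [CStarAlgebra P] {τ : P →ₗ[ℂ] ℂ}

private theorem real_LevL {r k y : ℝ} (hr : 0 < r) (hk0 : 0 ≤ k) (hk : k ≤ r)
    (hk1 : r < k + 1) :
    |min 1 (max 0 (r * y)) - min 1 (max 0 (k * y))| ≤ 1 / r := by
  have hr1 : 0 < 1 / r := by positivity
  rcases le_or_gt y 0 with hy | hy
  · have h1 : r * y ≤ 0 := mul_nonpos_of_nonneg_of_nonpos hr.le hy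
    have h2 : k * y ≤ 0 := mul_nonpos_of_nonneg_of_nonpos hk0 hy
    rw [max_eq_left h1, max_eq_left h2, sub_self, abs_zero]
    exact hr1.le
  · have h1 : 0 ≤ r * y := by positivity
    have h2 : 0 ≤ k * y := by positivity
    have h3 : k * y ≤ r * y := mul_le_mul_of_nonneg_right hk hy.le
    rw [max_eq_right h1, max_eq_right h2]
    rcases le_or_gt 1 (k * y) with h4 | h4
    · rw [min_eq_left h4, min_eq_left (h4.trans h3), sub_self, abs_zero]
      exact hr1.le
    · rw [min_eq_right h4.le]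
      rcases le_or_gt (r * y) 1 with h5 | h5
      · rw [min_eq_right h5, abs_of_nonneg (by linarith)]
        have h6 : y ≤ 1 / r := by
          rw [le_div_iff₀ hr]
          linarith
        nlinarith
      · rw [min_eq_left h5.le, abs_of_nonneg (by linarith)]
        have h6 : 1 / r < y := by
          rw [div_lt_iff₀ hr]
          linarith
        have h7 : k * (1 / r) ≤ k * y := mul_le_mul_of_nonneg_left h6.le hk0
        have h8 : r * (1 / r) = 1 := by field_simp
        nlinarith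

private theorem cont_oddr_LevL (t w : ℝ) : Continuous (oddr t w) := by
  unfold oddr
  fun_prop

private theorem cont_ramp_LevL (t : ℝ) (m : ℕ) : Continuous (ramp t m) := by
  unfold ramp
  fun_prop

/-- Put `r = (M + 1) / c`, `k = ⌊r⌋₊`. For `s ≥ 0` (the spectrum of `a`) the second term of `oddr`
is `0` and `oddr t (c / (M + 1)) s = min 1 (max 0 (r (s - t)))`, and for `y = s - t ≥ 0`
`|min 1 (r y) - min 1 (k y)| ≤ (r - k) / r ≤ c / (M + 1)` (three cases: `k y ≥ 1`; `r y ≤ 1`;
`k y < 1 < r y`). So `‖cfc (oddr t (c / (M + 1))) a - cfc (ramp t k) a‖ ≤ c / (M + 1) → 0`, `k → ∞`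
with `M`, and `cfc (ramp t k) a → e` by `IsSpec`. -/
theorem lim_oddr (hW : WT τ) {a e : P} (ha : IsSelfAdjoint a) (hp : ∀ s ∈ spectrum ℝ a, 0 ≤ s)
    {t c : ℝ} (ht : 0 < t) (hc : 0 < c) (he : IsSpec τ a t e) :
    Lim2 τ (fun M : ℕ => cfc (oddr t (c / (M + 1))) a) e := by
  have hkt : Tendsto (fun M : ℕ => ⌊((M : ℝ) + 1) / c⌋₊) atTop atTop := by
    refine tendsto_nat_floor_atTop.comp ?_
    exact (tendsto_atTop_add_const_right _ _ tendsto_natCast_atTop_atTop).atTop_div_const hc
  have h1 : Lim2 τ (fun M : ℕ => cfc (ramp t ⌊((M : ℝ) + 1) / c⌋₊) a) e :=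
    he.2.comp hkt
  have hb : ∀ M : ℕ, ‖cfc (oddr t (c / (M + 1))) a - cfc (ramp t ⌊((M : ℝ) + 1) / c⌋₊) a‖ ≤
      c / (M + 1) := by
    intro M
    have hM : (0 : ℝ) < (M : ℝ) + 1 := by positivity
    rw [← cfc_sub _ _ a (cont_oddr_LevL _ _).continuousOn (cont_ramp_LevL _ _).continuousOn]
    refine norm_cfc_le (by positivity) fun s hs => ?_
    have hs0 := hp s hs
    have hr : 0 < ((M : ℝ) + 1) / c := by positivity
    have e1 : oddr t (c / (M + 1)) s = min 1 (max 0 (((M : ℝ) + 1) / c * (s - t))) := by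
      unfold oddr
      have e2 : (-s - t) / (c / ((M : ℝ) + 1)) ≤ 0 :=
        div_nonpos_of_nonpos_of_nonneg (by linarith) (by positivity)
      rw [max_eq_left e2, min_eq_right zero_le_one, sub_zero]
      congr 2
      field_simp
    have e3 : ramp t ⌊((M : ℝ) + 1) / c⌋₊ s =
        min 1 (max 0 ((⌊((M : ℝ) + 1) / c⌋₊ : ℝ) * (s - t))) := rfl
    rw [Real.norm_eq_abs, e1, e3]
    refine (real_LevL hr (Nat.cast_nonneg _) (Nat.floor_le hr.le)
      (Nat.lt_floor_add_one _)).trans (le_of_eq ?_)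
    rw [one_div_div]
  have h2 : Lim2 τ (fun M : ℕ => cfc (oddr t (c / (M + 1))) a -
      cfc (ramp t ⌊((M : ℝ) + 1) / c⌋₊) a) 0 := by
    refine lim2_of_norm hW ?_
    refine squeeze_zero (fun M => norm_nonneg _) (fun M => ?_)
      (g := fun M : ℕ => c / ((M : ℝ) + 1)) ?_
    · rw [sub_zero]
      exact hb M
    · exact tendsto_const_nhds.div_atTop
        (tendsto_atTop_add_const_right _ _ tendsto_natCast_atTop_atTop)
  have h3 := Lim2.add hW h2 h1
  simpa only [sub_add_cancel, zero_add] using h3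

end Pool.McT
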