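import Pool.Agent.McT.F.LevL

/-! Level sets: commutators. -/

set_option autoImplicit false

namespace Pool.McT

open Filter Topology

variable {P : Type*} [CStarAlgebra P] {τ : P →ₗ[ℂ] ℂ}

private theorem S_tendsto_LevS (hW : WT τ) (G : Finset P) {e : ℕ → P} {y : P}
    (h : Lim2 τ e y) : Tendsto (fun M => S τ G (e M)) atTop (𝓝 (S τ G y)) := by
  unfold S
  refine tendsto_finsetSum _ fun u _ => ?_
  have h1 : Lim2 τ (fun M => cm (e M) u) (cm y u) :=
    Lim2.sub hW (Lim2.mul_right hW u h) (Lim2.mul_left hW u h)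
  have h2 : Lim2 τ (fun M => cm (star (e M)) u) (cm (star y) u) :=
    Lim2.sub hW (Lim2.mul_right hW u (Lim2.star hW h)) (Lim2.mul_left hW u (Lim2.star hW h))
  exact (Lim2.tendsto_N hW h1).add (Lim2.tendsto_N hW h2)

private theorem S_sa_LevS (F : Finset P) {x : P} (hx : star x = x) :
    S τ F x = 2 * ∑ u ∈ F, N τ (cm x u) := by
  unfold S
  rw [Finset.mul_sum]
  refine Finset.sum_congr rfl fun u _ => ?_
  rw [hx]
  ring

private theorem odd_cont_LevS {η : ℝ} (hη : 0 < η) (i : ℤ) (M : ℕ) :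
    Continuous (oddr (qq η i) (η * qq η i / (M + 1))) := by
  refine continuous_oddr _ ?_
  have := qq_pos hη i
  positivity

private theorem upper_LevS (hW : WT τ) (F : Finset P) {η : ℝ} (hη : 0 < η) (hη8 : η ≤ 1 / 8)
    {a : P} (ha : IsSelfAdjoint a) (m M : ℕ) :
    ∑ i ∈ Finset.Icc (-(m : ℤ)) m, ((qq η (i + 1)) ^ 2 - (qq η i) ^ 2) *
      S τ F (cfc (oddr (qq η i) (η * qq η i / (M + 1))) a) ≤
      1 / η * S τ F a + 32 * η * (∑ u ∈ F, ‖u‖ ^ 2) * N τ a := by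
  have h1 : ∀ u ∈ F, ∑ i ∈ Finset.Icc (-(m : ℤ)) m, ((qq η (i + 1)) ^ 2 - (qq η i) ^ 2) *
      N τ (cm (cfc (oddr (qq η i) (η * qq η i / (M + 1))) a) u) ≤
      1 / η * N τ (cm a u) + 16 * η * ‖u‖ ^ 2 * N τ a := by
    intro u _
    have h2 := comm_sum_gen hW.tr ha u
      (ι := Finset.Icc (-(m : ℤ)) m)
      (fun i => oddr (qq η i) (η * qq η i / (M + 1)))
      (fun i => odd_cont_LevS hη i M)
      (fun i => (qq η ((i : ℤ) + 1)) ^ 2 - (qq η (i : ℤ)) ^ 2) (1 / η) (8 * η) (by positivity)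
      (fun s r _ _ => by
        have h3 := fine_upper hη hη8 m M s r
        rw [← Finset.sum_coe_sort] at h3
        exact h3)
    rw [← Finset.sum_coe_sort]
    calc _ = ∑ i : Finset.Icc (-(m : ℤ)) m, ((qq η ((i : ℤ) + 1)) ^ 2 - (qq η (i : ℤ)) ^ 2) *
          N τ (cm (cfc (oddr (qq η i) (η * qq η i / (M + 1))) a) u) := rfl
      _ ≤ _ := h2
      _ = _ := by ring
  calc _ = 2 * ∑ u ∈ F, ∑ i ∈ Finset.Icc (-(m : ℤ)) m,
      ((qq η (i + 1)) ^ 2 - (qq η i) ^ 2) *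
      N τ (cm (cfc (oddr (qq η i) (η * qq η i / (M + 1))) a) u) := by
        rw [Finset.sum_comm, Finset.mul_sum]
        refine Finset.sum_congr rfl fun i _ => ?_
        have hs : star (cfc (oddr (qq η i) (η * qq η i / (M + 1))) a) =
            cfc (oddr (qq η i) (η * qq η i / (M + 1))) a :=
          (cfc_predicate (R := ℝ) _ a : IsSelfAdjoint _)
        rw [S_sa_LevS F hs, ← Finset.mul_sum]
        ring
    _ ≤ 2 * ∑ u ∈ F, (1 / η * N τ (cm a u) + 16 * η * ‖u‖ ^ 2 * N τ a) :=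
        mul_le_mul_of_nonneg_left (Finset.sum_le_sum h1) (by norm_num)
    _ = _ := by
        rw [Finset.sum_add_distrib, ← Finset.mul_sum, ← Finset.sum_mul, ← Finset.mul_sum,
          S_sa_LevS F ha.star_eq]
        ring

/-- `comm_sum_gen` with `fine_upper` for `h = a`, `u ∈ F` (weights
`(qq η (i+1))² - (qq η i)²`, functions `oddr (qq η i) (η * qq η i / (M + 1))`), then
`M → ∞` with `lim_oddr` (as `connes`, but without 2 by 2 matrices); for self-adjoint elements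
`S τ F e = 2 ∑ N [e, u]`. -/
theorem lev_S (hW : WT τ) (F : Finset P) {η : ℝ} (hη : 0 < η) (hη8 : η ≤ 1 / 8) {a : P}
    (ha : IsSelfAdjoint a) (hp : ∀ s ∈ spectrum ℝ a, 0 ≤ s) (m : ℕ) (e : ℤ → P)
    (he : ∀ i, IsSpec τ a (qq η i) (e i)) :
    ∑ i ∈ Finset.Icc (-(m : ℤ)) m, ((qq η (i + 1)) ^ 2 - (qq η i) ^ 2) * S τ F (e i) ≤
      1 / η * S τ F a + 32 * η * (∑ u ∈ F, ‖u‖ ^ 2) * N τ a := by
  have hlim : ∀ i : ℤ, Lim2 τ (fun M : ℕ =>
      cfc (oddr (qq η i) (η * qq η i / (M + 1))) a) (e i) := by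
    intro i
    have hq := qq_pos hη i
    exact lim_oddr hW ha hp hq (mul_pos hη hq) (he i)
  refine le_of_tendsto (tendsto_finsetSum _ fun i _ =>
    (S_tendsto_LevS hW F (hlim i)).const_mul ((qq η (i + 1)) ^ 2 - (qq η i) ^ 2))
    (Eventually.of_forall fun M => ?_)
  exact upper_LevS hW F hη hη8 ha m M

end Pool.McT
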