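import Pool.Agent.McT.W.Spec

/-! Partitions for one self-adjoint element. -/

set_option autoImplicit false

namespace Pool.McT

variable {P : Type*} [CStarAlgebra P] {τ : P →ₗ[ℂ] ℂ}

private theorem norm_pr_PartA {e : P} (he : IsPr e) : ‖e‖ ≤ 1 := by
  have h1 : ‖e‖ * ‖e‖ = ‖e‖ := by
    have h2 := CStarRing.norm_star_mul_self (x := e)
    rw [he.1, he.2] at h2
    exact h2.symm
  by_contra h3
  rw [not_le] at h3
  nlinarith

private theorem one_sub_PartA {e : P} (he : IsPr e) : IsPr (1 - e) := by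
  refine ⟨by rw [star_sub, star_one, he.1], ?_⟩
  rw [mul_sub, mul_one, sub_mul, one_mul, he.2, sub_self, sub_zero]

private theorem spec_one_PartA (hW : WT τ) {h e : P} {t : ℝ} (he : IsSpec τ h t e)
    (hh : IsSelfAdjoint h) (ht : ∀ s ∈ spectrum ℝ h, t + 1 ≤ s) : e = 1 := by
  have h1 := he.mul_of_zero_left hW hh (f := fun s => min 1 (max 0 (s - t))) (by fun_prop)
    (fun s hs => by rw [max_eq_left (sub_nonpos.2 hs), min_eq_right zero_le_one])
  have h2 : cfc (fun s => min 1 (max 0 (s - t))) h = 1 := by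
    rw [← cfc_const_one ℝ h hh]
    refine cfc_congr fun s hs => ?_
    have h3 := ht s hs
    show min 1 (max 0 (s - t)) = 1
    exact min_eq_left ((by linarith : (1 : ℝ) ≤ s - t).trans (le_max_right _ _))
  rwa [h2, one_mul] at h1

private theorem spec_zero_PartA (hW : WT τ) {h e : P} {t : ℝ} (he : IsSpec τ h t e)
    (hh : IsSelfAdjoint h) (ht : ∀ s ∈ spectrum ℝ h, s + 1 ≤ t) : e = 0 := by
  have h1 := he.mul_of_zero_right hW hh (f := fun s => min 1 (max 0 (t - s))) (by fun_prop)
    (fun s hs => by rw [max_eq_left (sub_nonpos.2 hs), min_eq_right zero_le_one])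
  have h2 : cfc (fun s => min 1 (max 0 (t - s))) h = 1 := by
    rw [← cfc_const_one ℝ h hh]
    refine cfc_congr fun s hs => ?_
    have h3 := ht s hs
    show min 1 (max 0 (t - s)) = 1
    exact min_eq_left ((by linarith : (1 : ℝ) ≤ t - s).trans (le_max_right _ _))
  rwa [h2, one_mul] at h1

private theorem ramp_le_PartA (t : ℝ) (m : ℕ) {s : ℝ} (hs : s ≤ t) : ramp t m s = 0 := by
  unfold ramp
  have h1 : (m : ℝ) * (s - t) ≤ 0 :=
    mul_nonpos_of_nonneg_of_nonpos (Nat.cast_nonneg m) (sub_nonpos.2 hs)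
  rw [max_eq_left h1, min_eq_right zero_le_one]

private theorem cont_PartA (t : ℝ) (m : ℕ) : Continuous (ramp t m) := by
  unfold ramp
  fun_prop

/-- the projections decrease -/
private theorem spec_le_PartA (hW : WT τ) {h e e' : P} {t t' : ℝ} (he : IsSpec τ h t e)
    (he' : IsSpec τ h t' e') (hh : IsSelfAdjoint h) (htt : t ≤ t') :
    e' * e = e' ∧ e * e' = e' := by
  have h0 : e' * e = e' := by
    have h1 := he'.2.mul_right hW e
    have h2 : (fun n : ℕ => cfc (ramp t' n) h * e) = fun n : ℕ => cfc (ramp t' n) h := by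
      funext n
      exact he.mul_of_zero_left hW hh (cont_PartA t' n)
        (fun s hs => ramp_le_PartA t' n (hs.trans htt))
    rw [h2] at h1
    exact h1.unique hW he'.2
  refine ⟨h0, ?_⟩
  have h1 := congrArg star h0
  rwa [star_mul, he.1.1, he'.1.1] at h1

private theorem gap_PartA (hW : WT τ) {h e e' : P} {t ε : ℝ} (hε : 0 < ε)
    (he : IsSpec τ h t e) (he' : IsSpec τ h (t + ε) e') (hh : IsSelfAdjoint h) :
    ‖h * (e - e') - (t : ℂ) • (e - e')‖ ≤ ε := by
  have hle := (spec_le_PartA hW he he' hh (by linarith)).2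
  have hq : e - e' = e * (1 - e') := by rw [mul_sub, mul_one, hle]
  have ha := he.mul_eq hW hh
  have h1 : h * (e - e') - (t : ℂ) • (e - e') = cfc (fun s => max 0 (s - t)) h * (1 - e') := by
    rw [hq, ← mul_assoc, ha, add_mul, smul_mul_assoc]
    abel
  have hb : Continuous fun s : ℝ => min ε (max 0 (s - t)) := by fun_prop
  have hc : Continuous fun s : ℝ => max 0 (s - (t + ε)) := by fun_prop
  have h2 : cfc (fun s => max 0 (s - t)) h =
      cfc (fun s => min ε (max 0 (s - t))) h + cfc (fun s => max 0 (s - (t + ε))) h := by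
    rw [← cfc_add h (fun s => min ε (max 0 (s - t))) (fun s => max 0 (s - (t + ε)))
      hb.continuousOn hc.continuousOn]
    congr 1
    funext s
    rcases le_total s t with hs | hs
    · rw [max_eq_left (by linarith), max_eq_left (by linarith), min_eq_right hε.le, add_zero]
    · rw [max_eq_right (by linarith)]
      rcases le_total s (t + ε) with hs' | hs'
      · rw [max_eq_left (by linarith), min_eq_right (by linarith), add_zero]
      · rw [max_eq_right (by linarith), min_eq_left (by linarith)]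
        ring
  have h3 := he'.mul_of_zero_left hW hh hc (fun s hs => max_eq_left (sub_nonpos.2 hs))
  have h4 : cfc (fun s => max 0 (s - t)) h * (1 - e') =
      cfc (fun s => min ε (max 0 (s - t))) h * (1 - e') := by
    rw [h2, add_mul, mul_sub (cfc (fun s => max 0 (s - (t + ε))) h), mul_one, h3, sub_self,
      add_zero]
  have h5 : ‖cfc (fun s => min ε (max 0 (s - t))) h‖ ≤ ε := by
    apply norm_cfc_le hε.le
    intro s _
    rw [Real.norm_eq_abs, abs_of_nonneg (le_min hε.le (le_max_left _ _))]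
    exact min_le_left _ _
  rw [h1, h4]
  calc ‖cfc (fun s => min ε (max 0 (s - t))) h * (1 - e')‖
      ≤ ‖cfc (fun s => min ε (max 0 (s - t))) h‖ * ‖1 - e'‖ := norm_mul_le _ _
    _ ≤ ε * 1 := mul_le_mul h5 (norm_pr_PartA (one_sub_PartA he'.1)) (norm_nonneg _) hε.le
    _ = ε := mul_one _

/-- Levels `t_k = -R + k ε`, `R > ‖h‖`, `k = 0 … L`, `e k` from `exists_spec`, `e 0 = 1`,
`e L = 0` (`IsSpec.mul_of_zero_left` etc. with functions which are `1` or `0` on the spectrum),
decreasing; `q k = e k - e (k+1)`, `h q k - t_k q k = (h - t_k) e k (1 - e (k+1))` has norm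
`≤ ε`: `IsSpec.mul_eq`, `IsSpec.mul_one_sub_eq` give
`0 ≤ (h - t_k) q k ≤ ε q k`. They commute with everything that commutes with `h`
(`IsSpec.comm`; note `star c` commutes with `h` as `h` is self-adjoint). -/
theorem exists_part_one (hW : WT τ) {h : P} (hh : IsSelfAdjoint h) {ε : ℝ} (hε : 0 < ε) :
    ∃ (L : ℕ) (q : Fin L → P) (t : Fin L → ℝ), (∀ l, IsPr (q l)) ∧
      (∀ l l', l ≠ l' → q l * q l' = 0) ∧ ∑ l, q l = 1 ∧
      (∀ l, ‖h * q l - (t l : ℂ) • q l‖ ≤ ε) ∧
      ∀ c : P, c * h = h * c → ∀ l, c * q l = q l * c := by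
  have h10 : (1 : P) ≠ 0 := by
    intro h0
    have h1 := hW.one
    rw [h0, map_zero] at h1
    exact zero_ne_one h1
  have : Nontrivial P := ⟨1, 0, h10⟩
  have hsp : ∀ s ∈ spectrum ℝ h, |s| ≤ ‖h‖ := fun s hs => by
    rw [← Real.norm_eq_abs]
    exact spectrum.norm_le_norm_of_mem hs
  obtain ⟨R, hR⟩ : ∃ R : ℝ, R = ‖h‖ + 1 := ⟨_, rfl⟩
  obtain ⟨L, hL⟩ := exists_nat_ge (2 * R / ε)
  rw [div_le_iff₀ hε] at hL
  choose e he using fun k : ℕ => exists_spec hW hh (-R + k * ε)
  have hmono : ∀ k l : ℕ, k ≤ l → e l * e k = e l ∧ e k * e l = e l := by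
    intro k l hkl
    refine spec_le_PartA hW (he k) (he l) hh ?_
    have h1 : (k : ℝ) * ε ≤ l * ε := mul_le_mul_of_nonneg_right (Nat.cast_le.2 hkl) hε.le
    linarith
  have he0 : e 0 = 1 := by
    refine spec_one_PartA hW (he 0) hh fun s hs => ?_
    have h1 := (abs_le.1 (hsp s hs)).1
    rw [Nat.cast_zero, zero_mul, hR]
    linarith
  have heL : e L = 0 := by
    refine spec_zero_PartA hW (he L) hh fun s hs => ?_
    have h1 := (abs_le.1 (hsp s hs)).2
    linarith
  have horth : ∀ k l : ℕ, k < l → (e k - e (k + 1)) * (e l - e (l + 1)) = 0 ∧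
      (e l - e (l + 1)) * (e k - e (k + 1)) = 0 := by
    intro k l hkl
    have a1 := hmono k l hkl.le
    have a2 := hmono k (l + 1) (by omega)
    have a3 := hmono (k + 1) l hkl
    have a4 := hmono (k + 1) (l + 1) (by omega)
    constructor
    · rw [sub_mul, mul_sub, mul_sub, a1.2, a2.2, a3.2, a4.2, sub_self]
    · rw [sub_mul, mul_sub, mul_sub, a1.1, a2.1, a3.1, a4.1, sub_self, sub_self, sub_self]
  refine ⟨L, fun l => e l - e (l + 1), fun l => -R + (l : ℕ) * ε, fun l => ⟨?_, ?_⟩, ?_, ?_, ?_, ?_⟩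
  · rw [star_sub, (he _).1.1, (he _).1.1]
  · have a1 := hmono (l : ℕ) (l + 1) (Nat.le_succ _)
    rw [sub_mul, mul_sub, mul_sub, (he _).1.2, (he _).1.2, a1.1, a1.2, sub_self, sub_zero]
  · intro l l' hll
    rcases lt_or_gt_of_ne (fun h0 => hll (Fin.ext h0) : (l : ℕ) ≠ l') with h1 | h1
    · exact (horth _ _ h1).1
    · exact (horth _ _ h1).2
  · rw [Fin.sum_univ_eq_sum_range (fun l => e l - e (l + 1)) L, Finset.sum_range_sub', he0, heL,
      sub_zero]
  · intro l
    refine gap_PartA hW hε (he l) ?_ hh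
    have h1 := he ((l : ℕ) + 1)
    have h2 : -R + (((l : ℕ) + 1 : ℕ) : ℝ) * ε = -R + (l : ℕ) * ε + ε := by
      push_cast
      ring
    rwa [h2] at h1
  · intro c hc l
    have hc' : star c * h = h * star c := by
      have h1 := congrArg star hc
      rw [star_mul, star_mul, hh.star_eq] at h1
      exact h1.symm
    rw [mul_sub, sub_mul, (he _).comm hW hh hc hc', (he _).comm hW hh hc hc']

end Pool.McT
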