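import Pool.Agent.McT.F.Exp

/-! Estimates for moving a projection under a large projection. -/

set_option autoImplicit false

namespace Pool.McT

open Filter Topology

variable {P : Type*} [CStarAlgebra P] {τ : P →ₗ[ℂ] ℂ}

private theorem N_add3_StgA (hτ : IsTr τ) (a b c : P) :
    N τ (a + b + c) ≤ 3 * (N τ a + N τ b + N τ c) := by
  have h1 := sqrt_N_add_le hτ (a + b) c
  have h2 := sqrt_N_add_le hτ a b
  have h3 := Real.sq_sqrt (N_nonneg hτ (a + b + c))
  have h4 := Real.sq_sqrt (N_nonneg hτ a)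
  have h5 := Real.sq_sqrt (N_nonneg hτ b)
  have h6 := Real.sq_sqrt (N_nonneg hτ c)
  have p0 := Real.sqrt_nonneg (N τ (a + b + c))
  have p1 := Real.sqrt_nonneg (N τ a)
  have p2 := Real.sqrt_nonneg (N τ b)
  have p3 := Real.sqrt_nonneg (N τ c)
  rw [← h3, ← h4, ← h5, ← h6]
  have h7 : √(N τ (a + b + c)) ≤ √(N τ a) + √(N τ b) + √(N τ c) := by linarith
  have h8 : √(N τ (a + b + c)) ^ 2 ≤ (√(N τ a) + √(N τ b) + √(N τ c)) ^ 2 :=
    pow_le_pow_left₀ p0 h7 2
  nlinarith [sq_nonneg (√(N τ a) - √(N τ b)), sq_nonneg (√(N τ b) - √(N τ c)),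
    sq_nonneg (√(N τ a) - √(N τ c))]

private theorem norm_pr_StgA {q : P} (hq : IsPr q) : ‖q‖ ≤ 1 := by
  have h : ‖q‖ = ‖q‖ * ‖q‖ := by
    conv_lhs => rw [← hq.2]
    nth_rw 1 [← hq.1]
    exact CStarRing.norm_star_mul_self
  by_contra hlt
  rw [not_le] at hlt
  nlinarith

private theorem compl_pr_StgA {q : P} (hq : IsPr q) : IsPr (1 - q) := by
  refine ⟨by rw [star_sub, star_one, hq.1], ?_⟩
  rw [mul_sub, mul_one, sub_mul, one_mul, hq.2, sub_self, sub_zero]

private theorem N_pr_left_StgA (hτ : IsTr τ) {q : P} (hq : IsPr q) (x : P) :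
    N τ (q * x) ≤ N τ x :=
  (N_mul_le_left hτ q x).trans (mul_le_of_le_one_left (N_nonneg hτ x)
    (pow_le_one₀ (norm_nonneg _) (norm_pr_StgA hq)))

private theorem N_pr_right_StgA (hτ : IsTr τ) {q : P} (hq : IsPr q) (x : P) :
    N τ (x * q) ≤ N τ x :=
  (N_mul_le_right hτ x q).trans (mul_le_of_le_one_left (N_nonneg hτ x)
    (pow_le_one₀ (norm_nonneg _) (norm_pr_StgA hq)))

/-- `e - q e q = (1 - q) e + q e (1 - q)`; `(1 - q) e q = (1 - q) (e q - q e)`,
`q e (1 - q) = (q e - e q) (1 - q)`. -/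
theorem N_sub_under (hτ : IsTr τ) {q e e' : P} (hq : IsPr q) (he : IsPr e)
    (h : N τ (e' - q * e * q) ≤ 4 * N τ ((1 - q) * e * q)) :
    N τ (e - e') ≤ 3 * N τ ((1 - q) * e) + 15 * N τ (cm e q) := by
  have hq2 := hq.2
  have hc := compl_pr_StgA hq
  have hpq : (1 - q) * q = 0 := by rw [sub_mul, one_mul, hq2, sub_self]
  have hqp : q * (1 - q) = 0 := by rw [mul_sub, mul_one, hq2, sub_self]
  have e1 : e - e' = (1 - q) * e + q * e * (1 - q) + -(e' - q * e * q) := by noncomm_ring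
  have e2 : (1 - q) * e * q = (1 - q) * cm e q := by
    have : (1 - q) * cm e q = (1 - q) * e * q - ((1 - q) * q) * e := by
      unfold cm
      noncomm_ring
    rw [this, hpq, zero_mul, sub_zero]
  have e3 : q * e * (1 - q) = -(cm e q * (1 - q)) := by
    have : cm e q * (1 - q) = e * (q * (1 - q)) - q * e * (1 - q) := by
      unfold cm
      noncomm_ring
    rw [this, hqp, mul_zero, zero_sub, neg_neg]
  have h1 := N_add3_StgA hτ ((1 - q) * e) (q * e * (1 - q)) (-(e' - q * e * q))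
  rw [← e1, N_neg] at h1
  have h2 : N τ ((1 - q) * e * q) ≤ N τ (cm e q) := by
    rw [e2]
    exact N_pr_left_StgA hτ hc _
  have h3 : N τ (q * e * (1 - q)) ≤ N τ (cm e q) := by
    rw [e3, N_neg]
    exact N_pr_right_StgA hτ hc _
  linarith

theorem S_add_le' (hτ : IsTr τ) (F : Finset P) (x y : P) :
    S τ F (x + y) ≤ 2 * S τ F x + 2 * S τ F y := by
  unfold S
  rw [Finset.mul_sum, Finset.mul_sum, ← Finset.sum_add_distrib]
  refine Finset.sum_le_sum fun u _ => ?_
  have e1 : cm (x + y) u = cm x u + cm y u := by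
    unfold cm
    noncomm_ring
  have e2 : cm (star (x + y)) u = cm (star x) u + cm (star y) u := by
    rw [star_add]
    unfold cm
    noncomm_ring
  have h1 := N_add_le hτ (cm x u) (cm y u)
  have h2 := N_add_le hτ (cm (star x) u) (cm (star y) u)
  rw [e1, e2]
  linarith

private theorem N_cm_le_StgA (hτ : IsTr τ) (y u : P) : N τ (cm y u) ≤ 4 * (‖u‖ ^ 2 * N τ y) := by
  have e : cm y u = y * u + -(u * y) := by
    unfold cm
    abel
  have h1 := N_add_le hτ (y * u) (-(u * y))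
  have h2 := N_mul_le_right hτ y u
  have h3 := N_mul_le_left hτ u y
  rw [N_neg] at h1
  rw [e]
  linarith

/-- `N [y, u] ≤ 4 ‖u‖² N y`, `N (star y) = N y`. -/
theorem S_le_N (hτ : IsTr τ) (F : Finset P) (y : P) :
    S τ F y ≤ 8 * (∑ u ∈ F, ‖u‖ ^ 2) * N τ y := by
  unfold S
  rw [Finset.mul_sum, Finset.sum_mul]
  refine Finset.sum_le_sum fun u _ => ?_
  have h1 := N_cm_le_StgA hτ y u
  have h2 := N_cm_le_StgA hτ (star y) u
  rw [N_star hτ] at h2
  linarith

private theorem S_sa_StgA (F : Finset P) {y : P} (hy : star y = y) :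
    S τ F y = 2 * ∑ u ∈ F, N τ (cm y u) := by
  unfold S
  rw [Finset.mul_sum]
  refine Finset.sum_congr rfl fun u _ => ?_
  rw [hy]
  ring

/-- `[q e q, u] = q e [q, u] + q [e, u] q + [q, u] e q`, three terms (`N (a + b + c) ≤
3 (N a + N b + N c)`); `q e q` and `e` are self-adjoint, so `S = 2 ∑ N [·, u]`. -/
theorem S_corner' (hτ : IsTr τ) {q e : P} (hq : IsPr q) (he : IsPr e) (F : Finset P) :
    S τ F (q * e * q) ≤ 6 * ∑ u ∈ F, (N τ (e * cm q u) + N τ (cm q u * e)) + 3 * S τ F e := by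
  have hs : star (q * e * q) = q * e * q := by
    rw [star_mul, star_mul, hq.1, he.1, mul_assoc]
  rw [S_sa_StgA F hs, S_sa_StgA F he.1]
  have h : ∑ u ∈ F, N τ (cm (q * e * q) u) ≤
      3 * ∑ u ∈ F, (N τ (e * cm q u) + N τ (cm q u * e)) + 3 * ∑ u ∈ F, N τ (cm e u) := by
    rw [Finset.mul_sum, Finset.mul_sum, ← Finset.sum_add_distrib]
    refine Finset.sum_le_sum fun u _ => ?_
    have e1 : cm (q * e * q) u = q * (e * cm q u) + q * cm e u * q + cm q u * e * q := by
      unfold cm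
      noncomm_ring
    have h1 := N_add3_StgA hτ (q * (e * cm q u)) (q * cm e u * q) (cm q u * e * q)
    have h2 := N_pr_left_StgA hτ hq (e * cm q u)
    have h3 := N_pr_right_StgA hτ hq (q * cm e u)
    have h4 := N_pr_left_StgA hτ hq (cm e u)
    have h5 := N_pr_right_StgA hτ hq (cm q u * e)
    rw [e1]
    linarith
  linarith

end Pool.McT
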