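import Pool.Agent.McT.F.Exp
import Pool.Agent.McT.W.DixB

/-! Traces of products with almost central projections. -/

set_option autoImplicit false

namespace Pool.McT

open Filter Topology

variable {P : Type*} [CStarAlgebra P] {τ : P →ₗ[ℂ] ℂ}

private theorem StgN_left (hτ : IsTr τ) {e : P} (he : IsPr e) (c : P) :
    N τ (e * c) = (τ (e * (c * star c))).re := by
  unfold N
  have h1 : star (e * c) * (e * c) = star c * (e * c) := by
    rw [star_mul, he.1, mul_assoc, ← mul_assoc e e c, he.2]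
  rw [h1, hτ.comm, mul_assoc]

private theorem StgN_right (hτ : IsTr τ) {e : P} (he : IsPr e) (c : P) :
    N τ (c * e) = (τ (e * (star c * c))).re := by
  unfold N
  have h1 : star (c * e) * (c * e) = (e * (star c * c)) * e := by
    rw [star_mul, he.1]
    simp only [mul_assoc]
  rw [h1, hτ.comm, ← mul_assoc, he.2]

private theorem StgN_mono (hτ : IsTr τ) {G G' : Finset P} {C C' : ℝ} (h : G' ⊆ G) (h0 : 0 ≤ C')
    (hC : C' ≤ C) (e : P) : C' * S τ G' e ≤ C * S τ G e := by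
  have h1 : S τ G' e ≤ S τ G e := by
    unfold S
    exact Finset.sum_le_sum_of_subset_of_nonneg h fun g _ _ =>
      add_nonneg (N_nonneg hτ _) (N_nonneg hτ _)
  have h2 : 0 ≤ S τ G' e := by
    unfold S
    exact Finset.sum_nonneg fun g _ => add_nonneg (N_nonneg hτ _) (N_nonneg hτ _)
  exact mul_le_mul hC h1 h2 (h0.trans hC)

private theorem StgN_key (hF : Fac τ) {s : ℝ} (hs : 0 < s) (b : P) (hb : IsSelfAdjoint b) :
    ∃ (G : Finset P) (C : ℝ), 0 ≤ C ∧ ∀ e : P, IsPr e →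
      (τ (e * b)).re ≤ ((τ b).re + s) * N τ e + C * S τ G e := by
  have hτ := hF.tr
  have hne : (1 : P) ≠ 0 := by
    intro h
    have h1 := hF.one
    rw [h, map_zero] at h1
    exact zero_ne_one h1
  obtain ⟨G, C, hC, -, h⟩ := near_trace hF (q := (1 : P)) ⟨star_one _, one_mul 1⟩ hne hb
    (one_mul b) (mul_one b) hs
  refine ⟨G, C, hC, fun e he => ?_⟩
  have h1 := (abs_le.1 (h e (one_mul e) (mul_one e))).2
  rw [he.1, he.2, hF.one, Complex.one_re, div_one] at h1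
  have h2 : ∑ g ∈ G, N τ (cm e g) ≤ S τ G e := by
    unfold S
    exact Finset.sum_le_sum fun g _ => le_add_of_nonneg_right (N_nonneg hτ _)
  have h3 := mul_le_mul_of_nonneg_left h2 hC
  linarith

/-- `near_trace` with `q = 1`, `w = e`: `N (e c) = τ (c* e c) = τ (e* e (c c*))` for
`b = c c*`, `N (c e) = τ (e* e (c* c))` for `b = c* c`, and `N ((1 - q) e) = τ (e* e (1 - q))`.
Finitely many applications. -/
theorem near_all (hF : Fac τ) (F : Finset P) {q : P} (hq : IsPr q) {s : ℝ} (hs : 0 < s) :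
    ∃ (G : Finset P) (C : ℝ), 0 ≤ C ∧ ∀ e : P, IsPr e →
      (∀ u ∈ F, N τ (e * cm q u) ≤ (N τ (cm q u) + s) * N τ e + C * S τ G e ∧
        N τ (cm q u * e) ≤ (N τ (cm q u) + s) * N τ e + C * S τ G e) ∧
      N τ ((1 - q) * e) ≤ (1 - (τ q).re + s) * N τ e + C * S τ G e := by
  classical
  have hτ := hF.tr
  have k1 := fun u : P => StgN_key hF hs (cm q u * star (cm q u)) (IsSelfAdjoint.mul_star_self _)
  have k2 := fun u : P => StgN_key hF hs (star (cm q u) * cm q u) (IsSelfAdjoint.star_mul_self _)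
  choose G₁ C₁ hC₁ h₁ using k1
  choose G₂ C₂ hC₂ h₂ using k2
  have hq1 : IsSelfAdjoint (1 - q) := by
    rw [IsSelfAdjoint, star_sub, star_one, hq.1]
  obtain ⟨G₃, C₃, hC₃, h₃⟩ := StgN_key hF hs (1 - q) hq1
  have hsum : ∀ u ∈ F, C₁ u + C₂ u ≤ ∑ u ∈ F, (C₁ u + C₂ u) := fun u hu =>
    Finset.single_le_sum (f := fun u => C₁ u + C₂ u) (fun v _ => add_nonneg (hC₁ v) (hC₂ v)) hu
  have hsum0 : 0 ≤ ∑ u ∈ F, (C₁ u + C₂ u) :=
    Finset.sum_nonneg fun u _ => add_nonneg (hC₁ u) (hC₂ u)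
  refine ⟨(F.biUnion fun u => G₁ u ∪ G₂ u) ∪ G₃, (∑ u ∈ F, (C₁ u + C₂ u)) + C₃,
    add_nonneg hsum0 hC₃, fun e he => ⟨fun u hu => ⟨?_, ?_⟩, ?_⟩⟩
  · have e1 := h₁ u e he
    rw [← StgN_left hτ he, hτ.comm] at e1
    have hsub : G₁ u ⊆ (F.biUnion fun u => G₁ u ∪ G₂ u) ∪ G₃ := by
      refine Finset.Subset.trans ?_ Finset.subset_union_left
      exact Finset.Subset.trans (Finset.subset_union_left : G₁ u ⊆ G₁ u ∪ G₂ u)
        (Finset.subset_biUnion_of_mem (fun u => G₁ u ∪ G₂ u) hu)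
    have e2 := StgN_mono hτ hsub (hC₁ u)
      (show C₁ u ≤ (∑ u ∈ F, (C₁ u + C₂ u)) + C₃ by linarith [hsum u hu, hC₂ u]) e
    exact e1.trans (add_le_add le_rfl e2)
  · have e1 := h₂ u e he
    rw [← StgN_right hτ he] at e1
    have hsub : G₂ u ⊆ (F.biUnion fun u => G₁ u ∪ G₂ u) ∪ G₃ := by
      refine Finset.Subset.trans ?_ Finset.subset_union_left
      exact Finset.Subset.trans (Finset.subset_union_right : G₂ u ⊆ G₁ u ∪ G₂ u)
        (Finset.subset_biUnion_of_mem (fun u => G₁ u ∪ G₂ u) hu)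
    have e2 := StgN_mono hτ hsub (hC₂ u)
      (show C₂ u ≤ (∑ u ∈ F, (C₁ u + C₂ u)) + C₃ by linarith [hsum u hu, hC₁ u]) e
    exact e1.trans (add_le_add le_rfl e2)
  · have e1 := h₃ e he
    have hqq : star (1 - q) * (1 - q) = 1 - q := by
      rw [hq1.star_eq, mul_sub, mul_one, sub_mul, one_mul, hq.2, sub_self, sub_zero]
    have e3 := StgN_right hτ he (1 - q)
    rw [hqq] at e3
    rw [← e3, map_sub, Complex.sub_re, hF.one, Complex.one_re] at e1
    have e2 := StgN_mono hτ (Finset.subset_union_right :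
        G₃ ⊆ (F.biUnion fun u => G₁ u ∪ G₂ u) ∪ G₃) hC₃
      (show C₃ ≤ (∑ u ∈ F, (C₁ u + C₂ u)) + C₃ by linarith) e
    exact e1.trans (add_le_add le_rfl e2)

end Pool.McT
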