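import Pool.Agent.McT.F.StgU
import Pool.Agent.McT.F.StgA
import Pool.Agent.McT.F.StgN

/-! One step of the exhaustion. -/

set_option autoImplicit false

namespace Pool.McT

open Filter Topology

variable {P : Type*} [CStarAlgebra P] {τ : P →ₗ[ℂ] ℂ} {E : P →ₗ[ℂ] P}

private theorem Stg_S_mono (hτ : IsTr τ) {F F' : Finset P} (h : F ⊆ F') (x : P) :
    S τ F x ≤ S τ F' x :=
  Finset.sum_le_sum_of_subset_of_nonneg h fun _ _ _ =>
    add_nonneg (N_nonneg hτ _) (N_nonneg hτ _)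

private theorem Stg_N_le_S (hτ : IsTr τ) {F : Finset P} {u : P} (hu : u ∈ F) (x : P) :
    N τ (cm x u) ≤ S τ F x := by
  have h1 := Finset.single_le_sum (f := fun u => N τ (cm x u) + N τ (cm (star x) u))
    (fun u _ => add_nonneg (N_nonneg hτ _) (N_nonneg hτ _)) hu
  have h2 := N_nonneg hτ (cm (star x) u)
  unfold S
  have h3 : N τ (cm x u) + N τ (cm (star x) u) ≤
      ∑ u ∈ F, (N τ (cm x u) + N τ (cm (star x) u)) := h1
  linarith

private theorem Stg_pr_sub {q : P} (hq : IsPr q) : IsPr (1 - q) := by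
  refine ⟨by rw [star_sub, star_one, hq.1], ?_⟩
  rw [sub_mul, mul_sub, mul_sub, one_mul, mul_one, one_mul, hq.2, sub_self, sub_zero]

/-- the numerical part -/
private theorem Stg_num {a b c f g r ne : ℝ} (ha : 0 ≤ a) (hb : 0 ≤ b) (hc : 0 ≤ c)
    (hr : 0 ≤ r) (hr1 : r ≤ 1) (hg0 : 0 ≤ g) (hne : a ^ 2 = ne)
    (h1 : b ^ 2 ≤ r ^ 2 / 1000 * ne) (h2 : r ^ 2 / 16 * ne ≤ c ^ 2) (h3 : c ≤ f + b)
    (h4 : g ≤ a + b) : 0.047 * (r ^ 2 * ne) ≤ f ^ 2 ∧ g ^ 2 ≤ 1.065 * ne := by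
  subst hne
  have hra : 0 ≤ r * a := mul_nonneg hr ha
  have e1 : b ≤ 0.0317 * (r * a) := by
    refine abs_le_of_sq_le_sq' ?_ (by positivity) |>.2
    nlinarith [sq_nonneg (r * a)]
  have e2 : r * a / 4 ≤ c := by
    refine abs_le_of_sq_le_sq' ?_ hc |>.2
    nlinarith
  have e3 : 0.2183 * (r * a) ≤ f := by linarith
  constructor
  · have e4 : (0.2183 * (r * a)) ^ 2 ≤ f ^ 2 := pow_le_pow_left₀ (by positivity) e3 2
    nlinarith [sq_nonneg (r * a)]
  · have e5 : r * a ≤ a := mul_le_of_le_one_left ha hr1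
    have e6 : g ≤ 1.0317 * a := by linarith
    have e7 : g ^ 2 ≤ (1.0317 * a) ^ 2 := pow_le_pow_left₀ hg0 e6 2
    nlinarith [sq_nonneg a]

/-- Let `U = ∑ u ∈ F, ‖u‖²`, `s` very small (`s ≤ δ / (10^5 (1 + K + K U + K card F))`), `G`,
`C` from `near_all`, and `e` from `hbad` for the set `F ∪ G ∪ {q}` and `K' = (1 + C) / s`. As
`N (e - E e) ≤ N e`, every `S τ G e`, `S τ F e`, `N [e, q]` is at most `s N e / (1 + C)`. `e'`
from `exists_under`: `N (e - e') ≤ 3 (δ/4000 + 2 s) N e + 15 s N e ≤ δ/1000 N e`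
(`N_sub_under`), so `√ N (e' - E e') ≥ √ N (e - E e) - √ N (e - e') ≥ (1/4 - 0.0317) √(δ N e)`
and `N (e' - E e') ≥ 0.047 δ N e`. `S e' ≤ 2 S (q e q) + 2 S (e' - q e q)
≤ 12 ∑ (2 N [q, u] + 4 s) N e + 6 S e + 64 U s N e` and `∑ 2 N [q, u] = S q`, so
`K S e' ≤ (12 K S q + small) N e ≤ 0.013 δ N e`; `N e' ≤ (1 + 0.0317)² N e`, so
`δ/100 N e' + K S e' < 0.047 δ N e`. `e' ≠ 0`, as `N (e' - E e') > 0`. -/
theorem stg (hF : Fac τ) (hE : AbExp τ E) {δ K : ℝ} (hδ : 0 < δ) (hδ1 : δ ≤ 1) (hK : 0 < K)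
    (hbad : ∀ (F : Finset P) (K' : ℝ), 0 ≤ K' → ∃ e : P, IsPr e ∧ e ≠ 0 ∧
      δ / 16 * N τ e + K' * S τ F e < N τ (e - E e))
    (F : Finset P) {q : P} (hq : IsPr q) (hτq : 1 - δ / 4000 ≤ (τ q).re)
    (hS : K * S τ F q ≤ δ / 1000) :
    ∃ e' : P, IsPr e' ∧ e' ≠ 0 ∧ q * e' = e' ∧ e' * q = e' ∧
      δ / 100 * N τ e' + K * S τ F e' < N τ (e' - E e') := by
  classical
  have hτ : IsTr τ := hF.tr
  obtain ⟨U, hU⟩ : ∃ U : ℝ, U = ∑ u ∈ F, ‖u‖ ^ 2 := ⟨_, rfl⟩
  have hU0 : 0 ≤ U := by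
    rw [hU]
    exact Finset.sum_nonneg fun _ _ => sq_nonneg _
  obtain ⟨m, hm⟩ : ∃ m : ℝ, m = (F.card : ℝ) := ⟨_, rfl⟩
  have hm0 : 0 ≤ m := by
    rw [hm]
    exact Nat.cast_nonneg _
  obtain ⟨W, hW⟩ : ∃ W : ℝ, W = 1 + K + K * U + K * m := ⟨_, rfl⟩
  have hKU : 0 ≤ K * U := mul_nonneg hK.le hU0
  have hKm : 0 ≤ K * m := mul_nonneg hK.le hm0
  have hW0 : 1 ≤ W := by
    rw [hW]
    linarith
  obtain ⟨s, hs⟩ : ∃ s : ℝ, s = δ / (100000 * W) := ⟨_, rfl⟩
  have hs0 : 0 < s := by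
    rw [hs]
    positivity
  have hsW : s * W = δ / 100000 := by
    rw [hs]
    field_simp
  have hs1 : s ≤ δ / 100000 := by
    rw [← hsW]
    exact le_mul_of_one_le_right hs0.le hW0
  obtain ⟨G, C, hC, hnear⟩ := near_all hF F hq hs0
  obtain ⟨e, he, he0, hbe⟩ := hbad (F ∪ G ∪ {q}) ((1 + C) / s) (by positivity)
  obtain ⟨hn1, hn2⟩ := hnear e he
  obtain ⟨S', hS'⟩ : ∃ S' : ℝ, S' = S τ (F ∪ G ∪ {q}) e := ⟨_, rfl⟩
  rw [← hS'] at hbe
  have hS'0 : 0 ≤ S' := by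
    rw [hS']
    exact S_nonneg hτ _ _
  obtain ⟨a, ha⟩ : ∃ a : ℝ, a = N τ e := ⟨_, rfl⟩
  rw [← ha] at hbe hn2
  have ha0 : 0 < a := by
    rw [ha]
    exact lt_of_le_of_ne (N_nonneg hτ e) fun h => he0 (hF.faithful e h.symm)
  have hle := hE.N_sub_le hτ e
  rw [← ha] at hle
  have hSs : (1 + C) * S' ≤ s * a := by
    have h1 : (1 + C) / s * S' ≤ a := by
      have h2 : 0 ≤ δ / 16 * a := by positivity
      linarith
    rw [div_mul_eq_mul_div, div_le_iff₀ hs0] at h1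
    linarith
  have hCS : 0 ≤ C * S' := mul_nonneg hC hS'0
  have hSe : S' ≤ s * a := by nlinarith
  have hCSe : C * S' ≤ s * a := by nlinarith
  have hSG : C * S τ G e ≤ s * a := by
    refine (mul_le_mul_of_nonneg_left ?_ hC).trans hCSe
    rw [hS']
    exact Stg_S_mono hτ (fun x hx => by simp [hx]) e
  have hSF : S τ F e ≤ s * a := by
    refine le_trans ?_ hSe
    rw [hS']
    exact Stg_S_mono hτ (fun x hx => by simp [hx]) e
  have hSq : N τ (cm e q) ≤ s * a := by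
    refine le_trans ?_ hSe
    rw [hS']
    exact Stg_N_le_S hτ (by simp) e
  obtain ⟨e', he', hqe, heq, hNe⟩ := exists_under hF.toWT hq he
  have hsub := N_sub_under hτ hq he hNe
  -- `N (e - e')`
  have hb : N τ (e - e') ≤ δ / 1000 * a := by
    have h1 : N τ ((1 - q) * e) ≤ (δ / 4000 + 2 * s) * a := by
      have h2 : (1 - (τ q).re + s) * a ≤ (δ / 4000 + s) * a :=
        mul_le_mul_of_nonneg_right (by linarith) ha0.le
      linarith
    have h3 : 21 * (s * a) ≤ 21 * (δ / 100000 * a) :=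
      mul_le_mul_of_nonneg_left (mul_le_mul_of_nonneg_right hs1 ha0.le) (by norm_num)
    have h4 : 0 ≤ δ * a := by positivity
    linarith
  -- `S e'`
  have hqq : N τ ((1 - q) * e * q) ≤ s * a := by
    have h1 : (1 - q) * e * q = (1 - q) * cm e q := by
      unfold cm
      have h2 : (1 - q) * (q * e) = 0 := by
        rw [← mul_assoc, sub_mul, one_mul, hq.2, sub_self, zero_mul]
      rw [mul_sub, h2, sub_zero, mul_assoc]
    rw [h1]
    have h3 := N_mul_le_left hτ (1 - q) (cm e q)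
    have h4 : ‖1 - q‖ ^ 2 ≤ 1 := by
      have h5 := (Stg_pr_sub hq).norm_le
      exact pow_le_one₀ (norm_nonneg _) h5
    have h6 := N_nonneg hτ (cm e q)
    nlinarith
  have hSe' : S τ F e' ≤ 12 * S τ F q * a + (48 * m + 6 + 64 * U) * (s * a) := by
    have h1 := S_add_le' hτ F (q * e * q) (e' - q * e * q)
    rw [add_sub_cancel] at h1
    have h2 := S_corner' hτ hq he F
    have h3 := S_le_N hτ F (e' - q * e * q)
    rw [← hU] at h3
    have h4 : ∑ u ∈ F, (N τ (e * cm q u) + N τ (cm q u * e)) ≤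
        (S τ F q + 4 * s * m) * a := by
      have h5 : ∀ u ∈ F, N τ (e * cm q u) + N τ (cm q u * e) ≤
          ((N τ (cm q u) + N τ (cm (star q) u)) + 4 * s) * a := by
        intro u hu
        obtain ⟨h6, h7⟩ := hn1 u hu
        rw [← ha] at h6 h7
        rw [hq.1]
        linarith
      refine (Finset.sum_le_sum h5).trans (le_of_eq ?_)
      rw [← Finset.sum_mul, Finset.sum_add_distrib, Finset.sum_const, nsmul_eq_mul, ← hm]
      unfold S
      ring
    have h8 : N τ (e' - q * e * q) ≤ 4 * (s * a) := by linarith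
    have h9 : 8 * U * N τ (e' - q * e * q) ≤ 8 * U * (4 * (s * a)) :=
      mul_le_mul_of_nonneg_left h8 (by positivity)
    have h10 : S τ F e' ≤ 2 * (6 * ((S τ F q + 4 * s * m) * a) + 3 * (s * a)) +
        2 * (8 * U * (4 * (s * a))) := by
      linarith
    refine h10.trans (le_of_eq ?_)
    ring
  have hKS : K * S τ F e' ≤ 0.013 * (δ * a) := by
    have h1 : K * S τ F e' ≤ K * (12 * S τ F q * a + (48 * m + 6 + 64 * U) * (s * a)) :=
      mul_le_mul_of_nonneg_left hSe' hK.le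
    have h2 : K * (12 * S τ F q * a + (48 * m + 6 + 64 * U) * (s * a)) =
        12 * ((K * S τ F q) * a) + (48 * (K * m) + 6 * K + 64 * (K * U)) * (s * a) := by
      ring
    have h3 : (K * S τ F q) * a ≤ δ / 1000 * a := mul_le_mul_of_nonneg_right hS ha0.le
    have h4 : 48 * (K * m) + 6 * K + 64 * (K * U) ≤ 64 * W := by
      rw [hW]
      linarith
    have h5 : (48 * (K * m) + 6 * K + 64 * (K * U)) * (s * a) ≤ 64 * W * (s * a) :=
      mul_le_mul_of_nonneg_right h4 (by positivity)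
    have h6 : 64 * W * (s * a) = 64 * (δ / 100000) * a := by
      rw [← hsW]
      ring
    have h7 : 0 ≤ δ * a := by positivity
    linarith
  -- the square roots
  have hr : Real.sqrt δ ^ 2 = δ := Real.sq_sqrt hδ.le
  have hr1 : Real.sqrt δ ≤ 1 := Real.sqrt_le_one.2 hδ1
  have htri := hE.sqrt_add_le hτ e' (e - e')
  rw [add_sub_cancel] at htri
  have htri2 : Real.sqrt (N τ ((e - e') - E (e - e'))) ≤ Real.sqrt (N τ (e - e')) :=
    Real.sqrt_le_sqrt (hE.N_sub_le hτ _)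
  have htri3 : Real.sqrt (N τ e') ≤ Real.sqrt (N τ e) + Real.sqrt (N τ (e - e')) := by
    have h1 := sqrt_N_add_le hτ e (e' - e)
    rw [add_sub_cancel] at h1
    have h2 : N τ (e' - e) = N τ (e - e') := by
      rw [← N_neg, neg_sub]
    rwa [h2] at h1
  have hnum := Stg_num (a := Real.sqrt (N τ e)) (b := Real.sqrt (N τ (e - e')))
    (c := Real.sqrt (N τ (e - E e))) (f := Real.sqrt (N τ (e' - E e')))
    (g := Real.sqrt (N τ e')) (r := Real.sqrt δ) (ne := a) (Real.sqrt_nonneg _)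
    (Real.sqrt_nonneg _) (Real.sqrt_nonneg _) (Real.sqrt_nonneg _) hr1 (Real.sqrt_nonneg _)
    (by rw [Real.sq_sqrt (N_nonneg hτ _), ha])
    (by rw [Real.sq_sqrt (N_nonneg hτ _), hr]; exact hb)
    (by
      rw [Real.sq_sqrt (N_nonneg hτ _), hr]
      have h1 : 0 ≤ (1 + C) / s * S' := by positivity
      linarith)
    (by linarith) htri3
  rw [Real.sq_sqrt (N_nonneg hτ _), Real.sq_sqrt (N_nonneg hτ _), hr] at hnum
  obtain ⟨hf, hg⟩ := hnum
  have hδa : 0 < δ * a := mul_pos hδ ha0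
  have hfin : δ / 100 * N τ e' + K * S τ F e' < N τ (e' - E e') := by
    have h1 : δ / 100 * N τ e' ≤ δ / 100 * (1.065 * a) :=
      mul_le_mul_of_nonneg_left hg (by positivity)
    have h2 : δ / 100 * (1.065 * a) = 0.01065 * (δ * a) := by ring
    linarith
  refine ⟨e', he', ?_, hqe, heq, hfin⟩
  rintro rfl
  rw [map_zero, sub_zero, N_zero] at hf
  linarith

end Pool.McT
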