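import Pool.Agent.McT.F.Exp
import Pool.Agent.McT.W.Spec

/-! Moving a projection under a large projection. -/

set_option autoImplicit false

namespace Pool.McT

open Filter Topology

variable {P : Type*} [CStarAlgebra P] {τ : P →ₗ[ℂ] ℂ}

private theorem tau_nonneg_StgU (hτ : IsTr τ) (h : P) {k : ℝ → ℝ} (hk : Continuous k)
    (h0 : ∀ s ∈ spectrum ℝ h, 0 ≤ k s) : 0 ≤ (τ (cfc k h)).re := by
  have h1 : cfc k h = star (cfc (fun s => Real.sqrt (k s)) h) *
      cfc (fun s => Real.sqrt (k s)) h := by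
    have hs : Continuous fun s => Real.sqrt (k s) := by fun_prop
    rw [← cfc_star, ← cfc_mul (fun s => star (Real.sqrt (k s))) (fun s => Real.sqrt (k s)) h
      hs.star.continuousOn hs.continuousOn]
    apply cfc_congr
    intro s hs
    show k s = star (Real.sqrt (k s)) * Real.sqrt (k s)
    rw [star_trivial, Real.mul_self_sqrt (h0 s hs)]
  rw [h1]
  exact hτ.nonneg _

private theorem N_le_StgU (hW : WT τ) {y : P} (hy : IsSelfAdjoint y) {r g : ℝ → ℝ} {c : ℝ}
    (hr : Continuous r) (hg : Continuous g)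
    (h0 : ∀ s ∈ spectrum ℝ y, r s * r s ≤ g s * g s + c) :
    N τ (cfc r y) ≤ N τ (cfc g y) + c := by
  have hN : ∀ f : ℝ → ℝ, Continuous f → N τ (cfc f y) = (τ (cfc (fun s => f s * f s) y)).re := by
    intro f hf
    unfold N
    rw [← cfc_star, ← cfc_mul (fun s => star (f s)) f y hf.star.continuousOn hf.continuousOn]
    rfl
  have h1 := tau_nonneg_StgU hW.tr y (k := fun s => (g s * g s + c) - r s * r s)
    (((hg.mul hg).add continuous_const).sub (hr.mul hr))
    (fun s hs => sub_nonneg.2 (h0 s hs))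
  have hc : τ (cfc (fun _ : ℝ => c) y) = (c : ℂ) := by
    rw [cfc_const c y hy, Algebra.algebraMap_eq_smul_one]
    have h2 : (c : ℝ) • (1 : P) = (c : ℂ) • (1 : P) := rfl
    rw [h2, map_smul, hW.one, smul_eq_mul, mul_one]
  rw [cfc_sub (fun s => g s * g s + c) (fun s => r s * r s) y
    ((hg.mul hg).add continuous_const).continuousOn (hr.mul hr).continuousOn,
    cfc_add y (fun s => g s * g s) (fun _ => c) (hg.mul hg).continuousOn
      continuous_const.continuousOn, map_sub, map_add, Complex.sub_re, Complex.add_re, hc,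
    Complex.ofReal_re, ← hN g hg, ← hN r hr] at h1
  linarith

private theorem ramp_bound_StgU {m : ℕ} (hm : 0 < m) {s : ℝ} (h0 : 0 ≤ s) (h1 : s ≤ 1) :
    (ramp (1 / 2) m s - s) * (ramp (1 / 2) m s - s) ≤
      (2 * (s - s * s)) * (2 * (s - s * s)) + 12 / m := by
  have hm' : (1 : ℝ) ≤ m := by exact_mod_cast hm
  have hm0 : (0 : ℝ) < m := by linarith
  have hz : 0 ≤ 2 * (s - s * s) := by nlinarith
  have hz1 : 2 * (s - s * s) ≤ 1 / 2 := by nlinarith [sq_nonneg (s - 1 / 2)]
  have hinv0 : 0 < 1 / (m : ℝ) := by positivity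
  have hinv1 : 1 / (m : ℝ) ≤ 1 := by
    rw [div_le_one hm0]
    exact hm'
  have key : |ramp (1 / 2) m s - s| ≤ 2 * (s - s * s) + 3 * (1 / m) := by
    rcases le_total s (1 / 2) with hs | hs
    · have hr : ramp (1 / 2) m s = 0 := by
        unfold ramp
        have h2 : (m : ℝ) * (s - 1 / 2) ≤ 0 :=
          mul_nonpos_of_nonneg_of_nonpos hm0.le (by linarith)
        rw [max_eq_left h2, min_eq_right zero_le_one]
      rw [hr, zero_sub, abs_neg, abs_of_nonneg h0]
      nlinarith
    · have hr0 : 0 ≤ ramp (1 / 2) m s := le_min zero_le_one (le_max_left _ _)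
      have hr1 : ramp (1 / 2) m s ≤ 1 := min_le_left _ _
      by_cases h2 : 1 ≤ (m : ℝ) * (s - 1 / 2)
      · have hr : ramp (1 / 2) m s = 1 := by
          unfold ramp
          exact min_eq_left (h2.trans (le_max_right _ _))
        rw [hr, abs_of_nonneg (by linarith)]
        nlinarith
      · rw [not_le] at h2
        have h3 : s - 1 / 2 < 1 / m := by
          rw [lt_div_iff₀ hm0, mul_comm]
          exact h2
        have h4 : |ramp (1 / 2) m s - s| ≤ s := by
          rw [abs_le]
          constructor <;> linarith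
        have h5 : (s - 1 / 2) * (s - 1 / 2) ≤ (1 / m) * (1 / m) :=
          mul_le_mul h3.le h3.le (by linarith) hinv0.le
        have h6 : (1 / (m : ℝ)) * (1 / m) ≤ 1 * (1 / m) :=
          mul_le_mul_of_nonneg_right hinv1 hinv0.le
        nlinarith
  have h2 : (ramp (1 / 2) m s - s) * (ramp (1 / 2) m s - s) =
      |ramp (1 / 2) m s - s| * |ramp (1 / 2) m s - s| := (abs_mul_abs_self _).symm
  rw [h2]
  have h3 : 12 / (m : ℝ) = 12 * (1 / m) := by ring
  rw [h3]
  have h4 : |ramp (1 / 2) m s - s| * |ramp (1 / 2) m s - s| ≤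
      (2 * (s - s * s) + 3 * (1 / m)) * (2 * (s - s * s) + 3 * (1 / m)) :=
    mul_le_mul key key (abs_nonneg _) (by positivity)
  have h5 : (1 / (m : ℝ)) * (1 / m) ≤ 1 * (1 / m) :=
    mul_le_mul_of_nonneg_right hinv1 hinv0.le
  have h6 : (2 * (s - s * s)) * (1 / (m : ℝ)) ≤ 1 / 2 * (1 / m) :=
    mul_le_mul_of_nonneg_right hz1 hinv0.le
  nlinarith

/-- `y = q e q` is self-adjoint with spectrum in `[0, 1]`; `e'` the spectral projection for
`(1/2, ∞)` (`exists_spec`). `|1_{s > 1/2} - s| ≤ 2 s (1 - s)` on `[0, 1]`, so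
`N (e' - y) ≤ 4 N (y - y²)` (for the approximating functions `ramp (1/2) m` the error is at
most `1/m` larger: `|ramp (1/2) m s - s| ≤ 2 s (1-s) + 2/m`), `y - y² = q e (1 - q) e q`,
`N (y - y²) ≤ N ((1 - q) e q)` (`‖q e‖ ≤ 1`). `q e' = e'`: `q cfc f y = cfc f y` for `f 0 = 0`
(uniform limits of polynomials without constant term; or `IsSpec.comm` and
`IsSpec.mul_of_zero...`: `e' = lim`, `cfc (ramp (1/2) m) y = y * cfc g y` with
`g s = ramp (1/2) m s / s`). -/
theorem exists_under (hW : WT τ) {q e : P} (hq : IsPr q) (he : IsPr e) :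
    ∃ e' : P, IsPr e' ∧ q * e' = e' ∧ e' * q = e' ∧
      N τ (e' - q * e * q) ≤ 4 * N τ ((1 - q) * e * q) := by
  obtain ⟨hq1, hq2⟩ := hq
  obtain ⟨he1, he2⟩ := he
  have hqn : ‖q‖ ≤ 1 := IsPr.norm_le ⟨hq1, hq2⟩
  have hen : ‖e‖ ≤ 1 := IsPr.norm_le ⟨he1, he2⟩
  have h1n : ‖(1 : P)‖ ≤ 1 := IsPr.norm_le ⟨star_one P, one_mul 1⟩
  obtain ⟨y, hyd⟩ : ∃ y, y = q * e * q := ⟨_, rfl⟩
  have hystar : y = star (e * q) * (e * q) := by
    rw [hyd, star_mul, hq1, he1]
    calc q * e * q = q * (e * e) * q := by rw [he2]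
      _ = q * e * (e * q) := by noncomm_ring
  have hy : IsSelfAdjoint y := by
    rw [hystar]
    exact IsSelfAdjoint.star_mul_self _
  have heq : ‖e * q‖ ≤ 1 := by
    refine (norm_mul_le _ _).trans ?_
    calc ‖e‖ * ‖q‖ ≤ 1 * 1 := mul_le_mul hen hqn (norm_nonneg _) zero_le_one
      _ = 1 := one_mul 1
  have hqe : ‖q * e‖ ≤ 1 := by
    refine (norm_mul_le _ _).trans ?_
    calc ‖q‖ * ‖e‖ ≤ 1 * 1 := mul_le_mul hqn hen (norm_nonneg _) zero_le_one
      _ = 1 := one_mul 1
  have hyn : ‖y‖ ≤ 1 := by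
    rw [hystar, CStarRing.norm_star_mul_self]
    calc ‖e * q‖ * ‖e * q‖ ≤ 1 * 1 := mul_le_mul heq heq (norm_nonneg _) zero_le_one
      _ = 1 := one_mul 1
  have hs0 : ∀ s ∈ spectrum ℝ y, 0 ≤ s := by
    rw [hystar]
    exact spectrum_star_mul_self_nonneg
  have hs1 : ∀ s ∈ spectrum ℝ y, s ≤ 1 := by
    intro s hs
    have h1 := spectrum.norm_le_norm_mul_of_mem hs
    have h2 : ‖y‖ * ‖(1 : P)‖ ≤ 1 * 1 := mul_le_mul hyn h1n (norm_nonneg _) zero_le_one
    have h3 := le_abs_self s
    rw [Real.norm_eq_abs] at h1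
    linarith
  obtain ⟨e', he', hlim⟩ := exists_spec hW hy (1 / 2)
  have hcont : ∀ m : ℕ, Continuous (ramp (1 / 2) m) := fun m => by
    unfold ramp
    fun_prop
  have hqy : q * y = y := by
    rw [hyd]
    calc q * (q * e * q) = (q * q) * e * q := by noncomm_ring
      _ = q * e * q := by rw [hq2]
  have hqm : ∀ m : ℕ, q * cfc (ramp (1 / 2) m) y = cfc (ramp (1 / 2) m) y := by
    intro m
    have hg : Continuous fun s : ℝ => ramp (1 / 2) m s * (1 / max s (1 / 2)) := by
      refine (hcont m).mul (continuous_const.div (by fun_prop) fun s => ?_)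
      have : (1 / 2 : ℝ) ≤ max s (1 / 2) := le_max_right _ _
      linarith
    have h1 : cfc (ramp (1 / 2) m) y =
        y * cfc (fun s : ℝ => ramp (1 / 2) m s * (1 / max s (1 / 2))) y := by
      have h0 := cfc_mul (fun s : ℝ => s)
        (fun s : ℝ => ramp (1 / 2) m s * (1 / max s (1 / 2))) y continuous_id.continuousOn
        hg.continuousOn
      rw [cfc_id' ℝ y hy] at h0
      rw [← h0]
      congr 1
      funext s
      rcases le_total s (1 / 2) with hs | hs
      · have hr : ramp (1 / 2) m s = 0 := by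
          unfold ramp
          have h2 : (m : ℝ) * (s - 1 / 2) ≤ 0 :=
            mul_nonpos_of_nonneg_of_nonpos (Nat.cast_nonneg m) (by linarith)
          rw [max_eq_left h2, min_eq_right zero_le_one]
        rw [hr]
        ring
      · rw [max_eq_left hs]
        have : s ≠ 0 := by
          intro h
          rw [h] at hs
          norm_num at hs
        field_simp
    rw [h1, ← mul_assoc, hqy]
  have hqe' : q * e' = e' := by
    have h1 := hlim.mul_left hW q
    simp only [hqm] at h1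
    exact h1.unique hW hlim
  have heq' : e' * q = e' := by
    have h1 := congrArg star hqe'
    rwa [star_mul, he'.1, hq1] at h1
  refine ⟨e', he', hqe', heq', ?_⟩
  rw [← hyd]
  have hbd : ∀ m : ℕ, 0 < m → N τ (cfc (ramp (1 / 2) m) y - y) ≤
      4 * N τ (y - y * y) + 12 / m := by
    intro m hm
    have hid : y = cfc (fun s : ℝ => s) y := (cfc_id' ℝ y hy).symm
    have h1 : cfc (ramp (1 / 2) m) y - y = cfc (fun s => ramp (1 / 2) m s - s) y := by
      rw [cfc_sub (ramp (1 / 2) m) (fun s => s) y (hcont m).continuousOn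
        continuous_id.continuousOn, ← hid]
    have h2 : (2 : ℂ) • (y - y * y) = cfc (fun s : ℝ => 2 * (s - s * s)) y := by
      have e1 : (fun s : ℝ => 2 * (s - s * s)) = fun s => (s - s * s) + (s - s * s) := by
        funext s
        ring
      have hc1 : Continuous fun s : ℝ => s - s * s := by fun_prop
      have hc2 : Continuous fun s : ℝ => s * s := by fun_prop
      rw [e1, cfc_add y _ _ hc1.continuousOn hc1.continuousOn,
        cfc_sub (fun s : ℝ => s) (fun s => s * s) y continuous_id.continuousOn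
          hc2.continuousOn,
        cfc_mul (fun s : ℝ => s) (fun s => s) y continuous_id.continuousOn
          continuous_id.continuousOn, ← hid, two_smul]
    have h3 := N_le_StgU (c := 12 / (m : ℝ)) hW hy (r := fun s => ramp (1 / 2) m s - s)
      (g := fun s => 2 * (s - s * s)) ((hcont m).sub continuous_id) (by fun_prop)
      (fun s hs => ramp_bound_StgU hm (hs0 s hs) (hs1 s hs))
    rw [← h1, ← h2, N_smul] at h3
    have h4 : ‖(2 : ℂ)‖ ^ 2 = 4 := by
      rw [Complex.norm_ofNat]
      norm_num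
    rwa [h4] at h3
  have hl : Tendsto (fun m : ℕ => N τ (cfc (ramp (1 / 2) m) y - y)) atTop
      (𝓝 (N τ (e' - y))) := (hlim.sub hW (Lim2.const y)).tendsto_N hW
  have hr : Tendsto (fun m : ℕ => 4 * N τ (y - y * y) + 12 / (m : ℝ)) atTop
      (𝓝 (4 * N τ (y - y * y) + 0)) :=
    tendsto_const_nhds.add (tendsto_const_div_atTop_nhds_zero_nat 12)
  rw [add_zero] at hr
  have h5 : N τ (e' - y) ≤ 4 * N τ (y - y * y) :=
    le_of_tendsto_of_tendsto hl hr (by
      filter_upwards [eventually_gt_atTop 0] with m hm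
      exact hbd m hm)
  have h6 : y - y * y = (q * e) * ((1 - q) * e * q) := by
    rw [hyd]
    have e1 : q * e * q * (q * e * q) = q * e * (q * q) * e * q := by noncomm_ring
    have e2 : q * e * ((1 - q) * e * q) = q * (e * e) * q - q * e * q * e * q := by
      noncomm_ring
    rw [e1, hq2, e2, he2]
  have h7 : N τ (y - y * y) ≤ N τ ((1 - q) * e * q) := by
    rw [h6]
    refine (N_mul_le_left hW.tr _ _).trans ?_
    have h8 : ‖q * e‖ ^ 2 ≤ 1 := pow_le_one₀ (norm_nonneg _) hqe
    exact mul_le_of_le_one_left (N_nonneg hW.tr _) h8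
  linarith

end Pool.McT
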