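import Pool.Agent.McT.F.Exp
import Pool.Agent.McT.P.MainZ

/-! The conditional expectation on the second factor of a tensor product. -/

set_option autoImplicit false

namespace Pool.McT

variable {A P D : Type*} [CStarAlgebra A] [CStarAlgebra P] [CStarAlgebra D]
  {τA : A →ₗ[ℂ] ℂ} {τP : P →ₗ[ℂ] ℂ} {τD : D →ₗ[ℂ] ℂ} {iA : A →⋆ₐ[ℂ] D} {iP : P →⋆ₐ[ℂ] D}
  {E : P →ₗ[ℂ] P}

private theorem prod_TensE (T : Tens τA τP τD iA iP) (a a' : A) (b b' : P) :
    star (iA a * iP b) * (iA a' * iP b') = iA (star a * a') * iP (star b * b') := by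
  rw [star_mul, ← map_star, ← map_star, map_mul, map_mul]
  have h1 := T.comm (star a) (star b)
  have h2 := T.comm a' (star b)
  rw [← h1, mul_assoc, mul_assoc, ← mul_assoc (iP (star b)), ← h2, mul_assoc]

private theorem N_sum_TensE (T : Tens τA τP τD iA iP) {m : ℕ} (x : Fin m → A) (y : Fin m → P) :
    N τD (∑ i, iA (x i) * iP (y i)) =
      (∑ i, ∑ j, τA (star (x i) * x j) * τP (star (y i) * y j)).re := by
  unfold N
  congr 1
  rw [star_sum, Finset.sum_mul, map_sum]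
  refine Finset.sum_congr rfl fun p _ => ?_
  rw [Finset.mul_sum, map_sum]
  refine Finset.sum_congr rfl fun q _ => ?_
  rw [prod_TensE T, T.tau]

private theorem cm_TensE (T : Tens τA τP τD iA iP) {n : ℕ} (a : Fin n → A) (f : Fin n → P)
    (u : A) : cm (∑ q, iA (a q) * iP (f q)) (iA u) = ∑ q, iA (cm (a q) u) * iP (f q) := by
  unfold cm
  rw [Finset.sum_mul, Finset.mul_sum, ← Finset.sum_sub_distrib]
  refine Finset.sum_congr rfl fun q _ => ?_
  rw [mul_assoc, ← T.comm u (f q), map_sub, map_mul, map_mul, sub_mul, mul_assoc, mul_assoc]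

private theorem star_TensE (T : Tens τA τP τD iA iP) {n : ℕ} (a : Fin n → A) (f : Fin n → P) :
    star (∑ q, iA (a q) * iP (f q)) = ∑ q, iA (star (a q)) * iP (star (f q)) := by
  rw [star_sum]
  refine Finset.sum_congr rfl fun q _ => ?_
  rw [star_mul, ← map_star, ← map_star, T.comm]

/-- `N (∑ x_i ⊗ y_i) = ∑ i j, τ (x_i* x_j) τ (y_i* y_j)`, and
`τ (y_i* y_j) = τ ((E y_i)* (E y_j)) + τ ((y_i - E y_i)* (y_j - E y_j))` (`AbExp.tau_sub`). -/
theorem N_tens_exp (T : Tens τA τP τD iA iP) (hE : AbExp τP E) {m : ℕ} (x : Fin m → A)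
    (y : Fin m → P) :
    N τD (∑ i, iA (x i) * iP (y i)) = N τD (∑ i, iA (x i) * iP (E (y i))) +
      N τD (∑ i, iA (x i) * iP (y i - E (y i))) := by
  rw [N_sum_TensE T, N_sum_TensE T, N_sum_TensE T, ← Complex.add_re, ← Finset.sum_add_distrib]
  congr 1
  refine Finset.sum_congr rfl fun i _ => ?_
  rw [← Finset.sum_add_distrib]
  refine Finset.sum_congr rfl fun j _ => ?_
  rw [hE.tau_sub]
  ring

/-- `[f', u] = ∑ (a_i u - u a_i) ⊗ E b_i`, so `N [f', u] ≤ N [f, u]` by `N_tens_exp`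
(`2 k` terms, or `cm (iA (a i)) ..`), the same for `star`. -/
theorem comm_tens_exp (T : Tens τA τP τD iA iP) (hE : AbExp τP E) {k : ℕ} (a : Fin k → A)
    (b : Fin k → P) (f : D) (hf : f = ∑ i, iA (a i) * iP (b i)) (u : A) :
    N τD (cm (∑ i, iA (a i) * iP (E (b i))) (iA u)) ≤ N τD (cm f (iA u)) ∧
      N τD (cm (star (∑ i, iA (a i) * iP (E (b i)))) (iA u)) ≤ N τD (cm (star f) (iA u)) := by
  have key : ∀ (x : Fin k → A) (y : Fin k → P), N τD (cm (∑ i, iA (x i) * iP (E (y i))) (iA u)) ≤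
      N τD (cm (∑ i, iA (x i) * iP (y i)) (iA u)) := by
    intro x y
    rw [cm_TensE T, cm_TensE T, N_tens_exp T hE (fun i => cm (x i) u) y]
    have h := N_nonneg T.trD (∑ i, iA (cm (x i) u) * iP (y i - E (y i)))
    linarith
  subst hf
  refine ⟨key a b, ?_⟩
  rw [star_TensE T, star_TensE T]
  have h := key (fun i => star (a i)) (fun i => star (b i))
  simp only [hE.star] at h
  exact h

end Pool.McT
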